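import Mathlib

/-!
The abc inequality for forms with a given error term: definitions. Heights are not divided by `[K : ℚ]`.
-/

universe u

namespace Pool.Agent.Lib.MP_17a322_nt.FE

open MvPolynomial Height NumberField

/-- The abc inequality with the error term `c h(w) + C` for the forms `f_a`, `a ∈ κ`, in `n + 1` variables over the
number field `K`, at the point `w`: the height of the vector with the coordinates
`det (∂ f_a / ∂ X_j (w))_{a ∈ s} * ∏_{a ∉ s} f_a(w)`, where `s` runs over the subsets of `κ` with `n + 1`
elements (in the definition `s` is a map to `κ`; if it is not injective the coordinate is zero), is at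
most the sum of `log q_v` over the finite places `v` at which the absolute values of the numbers
`f_a(w)` are not all equal, plus `c h(w) + C`. -/
def ErrAt {K : Type u} [Field K] [NumberField K] {n : ℕ} {κ : Type} [Fintype κ] [DecidableEq κ]
    (f : κ → MvPolynomial (Fin (n + 1)) K) (c C : ℝ) (w : Fin (n + 1) → K) : Prop :=
  logHeight (fun s : Fin (n + 1) → κ => (Matrix.of fun i j => eval w (pderiv j (f (s i)))).det *
      ∏ a ∈ (Finset.univ.image s)ᶜ, eval w (f a)) ≤
    (∑ᶠ v ∈ {v : FinitePlace K | ∃ a b, v (eval w (f a)) ≠ v (eval w (f b))},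
      Real.log (Ideal.absNorm v.maximalIdeal.asIdeal)) + c * logHeight w + C

/-- The abc inequality for the forms `f_a` with the error term `c h(w) + O(1)` at the points outside a hypersurface. -/
def ErrFam {K : Type u} [Field K] [NumberField K] {n : ℕ} {κ : Type} [Fintype κ] [DecidableEq κ]
    (f : κ → MvPolynomial (Fin (n + 1)) K) (c : ℝ) : Prop :=
  ∃ (G : MvPolynomial (Fin (n + 1)) K) (C : ℝ), G ≠ 0 ∧ (∃ d', G.IsHomogeneous d') ∧
    ∀ w : Fin (n + 1) → K, eval w G ≠ 0 → ErrAt f c C w

/-- The abc inequality for the forms `f_a` with the error term `c h(w) + O(1)` at all but few points: outside a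
hypersurface, for every `B ≥ 1`, it holds for all but at most `C B ^ b` of the points of height at most `log B` (the
points are represented by vectors `w` with `w_0 = 1`). -/
def ErrFamX {K : Type u} [Field K] [NumberField K] {n : ℕ} {κ : Type} [Fintype κ] [DecidableEq κ]
    (f : κ → MvPolynomial (Fin (n + 1)) K) (c b : ℝ) : Prop :=
  ∃ (G : MvPolynomial (Fin (n + 1)) K) (C : ℝ), G ≠ 0 ∧ (∃ d', G.IsHomogeneous d') ∧
    ∀ B : ℝ, 1 ≤ B → ∃ S : Finset (Fin (n + 1) → K), (S.card : ℝ) ≤ C * B ^ b ∧
      ∀ w : Fin (n + 1) → K, w 0 = 1 → eval w G ≠ 0 → logHeight w ≤ Real.log B → w ∉ S → ErrAt f c C w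

/-- The abc inequality over `K` in all dimensions with one fixed error term: for all `n` and all finite families of forms
of the same degree in `n + 1` variables the inequality holds with the error term `c h(w) + O(1)`; the number `c` is
fixed, only the bounded term `O(1)` depends on the forms. -/
def ABCFix (K : Type u) [Field K] [NumberField K] (c : ℝ) : Prop :=
  ∀ (n : ℕ) (κ : Type) [Fintype κ] [DecidableEq κ] (f : κ → MvPolynomial (Fin (n + 1)) K) (d : ℕ),
    (∀ a, (f a).IsHomogeneous d) → ErrFam f c

/-- The same with `C B ^ c` exceptions: for all `n` and all finite families of forms of the same degree in `n + 1`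
variables over `K`, outside a hypersurface, the inequality with the error term `c h(w) + O(1)` holds for all but at most
`C B ^ c` of the points of height at most `log B`, for all `B ≥ 1`. -/
def ABCFixX (K : Type u) [Field K] [NumberField K] (c : ℝ) : Prop :=
  ∀ (n : ℕ) (κ : Type) [Fintype κ] [DecidableEq κ] (f : κ → MvPolynomial (Fin (n + 1)) K) (d : ℕ),
    (∀ a, (f a).IsHomogeneous d) → ErrFamX f c c

/-- The abc inequality over `K` with an error term of linear growth and few exceptions: for every `η > 0` there are
arbitrarily large `n` such that for all `s` and `d` and all `s` forms of degree `d` in `n + 1` variables, outside a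
hypersurface, the inequality with the error term `η (s + d) h(w) + O(1)` holds for all but at most `C B ^ (η (s + d))` of
the points of height at most `log B`, for all `B ≥ 1`. -/
def ABCLinX (K : Type u) [Field K] [NumberField K] : Prop :=
  ∀ η : ℝ, 0 < η → ∀ n₀ : ℕ, ∃ n, n₀ ≤ n ∧
    ∀ (κ : Type) [Fintype κ] [DecidableEq κ] (f : κ → MvPolynomial (Fin (n + 1)) K) (d : ℕ),
      (∀ a, (f a).IsHomogeneous d) → ErrFamX f (η * (Fintype.card κ + d)) (η * (Fintype.card κ + d))

end Pool.Agent.Lib.MP_17a322_nt.FE
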