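import Pool.Agent.Lib.MP_17a322_nt.FE.Defs
import Pool.Agent.Lib.MP_17a322_nt.FE.Err
import Pool.Agent.Lib.MP_17a322_nt.EQ.G0

/-!
The abc inequality with a given error term for forms gives the one for polynomials.
-/

universe u

namespace Pool.Agent.Lib.MP_17a322_nt.FE

open MvPolynomial hiding psum
open Height NumberField
open Pool.Agent.Lib.MP_17a322_nt.EQ

section

variable {K : Type u} [Field K] {τ : Type}

/-- The form of degree `d` which is `P` on the hyperplane `X none = 1`. -/
private noncomputable def A_hom (d : ℕ) (P : MvPolynomial τ K) : MvPolynomial (Option τ) K :=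
  ∑ k ∈ Finset.range (d + 1), X none ^ (d - k) * rename some (homogeneousComponent k P)

private theorem A_isHom (d : ℕ) (P : MvPolynomial τ K) : (A_hom d P).IsHomogeneous d := by
  unfold A_hom
  apply IsHomogeneous.sum
  intro k hk
  have h1 : (X none ^ (d - k) : MvPolynomial (Option τ) K).IsHomogeneous (1 * (d - k)) :=
    (isHomogeneous_X K none).pow (d - k)
  have h2 := h1.mul ((homogeneousComponent_isHomogeneous k P).rename_isHomogeneous (f := some))
  have h3 : 1 * (d - k) + k = d := by
    have := Finset.mem_range.1 hk
    omega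
  rwa [h3] at h2

private theorem A_sum (d : ℕ) (P : MvPolynomial τ K) (hP : P.totalDegree ≤ d) :
    ∑ k ∈ Finset.range (d + 1), homogeneousComponent k P = P := by
  have h1 : ∑ k ∈ Finset.range (d + 1), homogeneousComponent k P =
      ∑ k ∈ Finset.range (P.totalDegree + 1), homogeneousComponent k P := by
    symm
    apply Finset.sum_subset
    · intro k hk
      rw [Finset.mem_range] at hk ⊢
      omega
    · intro k _ hk
      apply homogeneousComponent_eq_zero
      rw [Finset.mem_range] at hk
      omega
  rw [h1, sum_homogeneousComponent]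

private theorem A_ren (w : τ → K) (Q : MvPolynomial τ K) :
    eval (fun o : Option τ => o.elim 1 w) (rename some Q) = eval w Q := by
  rw [eval_rename]
  rfl

private theorem A_eval (d : ℕ) (P : MvPolynomial τ K) (hP : P.totalDegree ≤ d) (w : τ → K) :
    eval (fun o : Option τ => o.elim 1 w) (A_hom d P) = eval w P := by
  unfold A_hom
  rw [map_sum]
  have h1 : ∀ k ∈ Finset.range (d + 1),
      eval (fun o : Option τ => o.elim 1 w) (X none ^ (d - k) * rename some (homogeneousComponent k P)) =
      eval w (homogeneousComponent k P) := by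
    intro k _
    rw [map_mul, map_pow, eval_X, A_ren]
    simp
  rw [Finset.sum_congr rfl h1, ← map_sum, A_sum d P hP]

private theorem A_some (d : ℕ) (P : MvPolynomial τ K) (hP : P.totalDegree ≤ d) (w : τ → K) (j : τ) :
    eval (fun o : Option τ => o.elim 1 w) (pderiv (some j) (A_hom d P)) = eval w (pderiv j P) := by
  unfold A_hom
  rw [map_sum, map_sum]
  have h1 : ∀ k ∈ Finset.range (d + 1),
      eval (fun o : Option τ => o.elim 1 w)
        (pderiv (some j) (X none ^ (d - k) * rename some (homogeneousComponent k P))) =
      eval w (pderiv j (homogeneousComponent k P)) := by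
    intro k _
    rw [Derivation.leibniz, Derivation.leibniz_pow, pderiv_X_of_ne (by simp),
      pderiv_rename (Option.some_injective τ)]
    simp only [smul_zero, add_zero, smul_eq_mul, mul_zero]
    rw [map_mul, map_pow, eval_X, A_ren]
    simp
  rw [Finset.sum_congr rfl h1, ← map_sum, ← map_sum, A_sum d P hP]

private theorem A_dehom_eval [Fintype τ] (G : MvPolynomial (Option τ) K) (w : τ → K) :
    eval w (aeval (fun o : Option τ => o.elim 1 (X : τ → MvPolynomial τ K)) G) =
      eval (fun o : Option τ => o.elim 1 w) G := by
  have h1 := aeval_comp (L := K) w (fun o : Option τ => o.elim 1 (X : τ → MvPolynomial τ K)) G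
  have h2 : (fun o : Option τ => aeval w (o.elim 1 (X : τ → MvPolynomial τ K))) =
      fun o : Option τ => o.elim 1 w := by
    funext o
    cases o with
    | none => simp
    | some j => simp
  rw [h2] at h1
  exact h1

private theorem A_dehom_ne [Infinite K] [Fintype τ] {G : MvPolynomial (Option τ) K} (hG : G ≠ 0) {d' : ℕ}
    (hG' : G.IsHomogeneous d') :
    aeval (fun o : Option τ => o.elim 1 (X : τ → MvPolynomial τ K)) G ≠ 0 := by
  intro h0
  apply hG
  have h1 : G * X none = 0 := by
    apply MvPolynomial.funext
    intro p
    rw [map_mul, eval_X, map_zero]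
    by_cases hp : p none = 0
    · rw [hp, mul_zero]
    · have h2 := aeval_mul hG' (p none) (fun o : Option τ => o.elim 1 fun j => p (some j) / p none)
      have h3 : (fun o : Option τ => p none * o.elim 1 fun j => p (some j) / p none) = p := by
        funext o
        cases o with
        | none => simp
        | some j =>
          simp only [Option.elim_some]
          field_simp
      have h4 := A_dehom_eval G fun j => p (some j) / p none
      rw [h0, map_zero] at h4
      have h5 : aeval (fun o : Option τ => o.elim 1 fun j => p (some j) / p none) G = (0 : K) :=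
        h4.symm
      rw [h3, h5, mul_zero] at h2
      have h6 : eval p G = 0 := h2
      rw [h6, zero_mul]
  rcases mul_eq_zero.1 h1 with h2 | h2
  · exact h2
  · exact absurd h2 (X_ne_zero none)

end

private theorem A_height {K : Type u} [Field K] [NumberField K] {ι ι' : Type*} [Finite ι] [Finite ι'] (u : ι → K)
    (V : ι' → K) (h : ∀ i, u i = 0 ∨ ∃ j, u i = V j) : logHeight u ≤ logHeight V := by
  rw [logHeight_eq_logHeight_restrict_support]
  have h1 : ∀ i : Function.support u, ∃ j, u i.1 = V j := by
    intro i
    rcases h i.1 with h2 | h2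
    · exact absurd h2 i.2
    · exact h2
  choose φ hφ using h1
  have h2 : (fun i : Function.support u => u i.1) = V ∘ φ := by
    funext i
    exact hφ i
  rw [h2]
  exact logHeight_comp_le φ V

/-- The abc inequality for a set `P` of polynomials of degree at most `d` in `n` variables follows from the abc inequality
for families of `|P| + 1` forms of degree `d` in `n + 1` variables, with the same error term and as many exceptions. -/
theorem poly_of_err {K : Type u} [Field K] [NumberField K] {α : Type} [Fintype α] [DecidableEq α] (n : ℕ)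
    (hn : Fintype.card α = n) (P : Finset (MvPolynomial α K)) (hP : ∀ p ∈ P, p ≠ 0) (d : ℕ) (hd1 : 1 ≤ d)
    (hd : ∀ p ∈ P, p.totalDegree ≤ d) (c₀ b₀ : ℝ)
    (h : ∀ (κ : Type) [Fintype κ] [DecidableEq κ] (f : κ → MvPolynomial (Fin (n + 1)) K),
      Fintype.card κ = P.card + 1 → (∀ a, (f a).IsHomogeneous d) → ErrFamX f c₀ b₀) :
    IneqX P c₀ b₀ := by
  classical
  have hd0 : (d : K) ≠ 0 := by
    have : d ≠ 0 := by omega
    exact_mod_cast this
  have e : α ≃ Fin n := Fintype.equivFinOfCardEq hn
  obtain ⟨ι, hι0⟩ : ∃ ι : Option α ≃ Fin (n + 1), ι none = 0 :=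
    ⟨(Equiv.optionCongr e).trans (finSuccEquiv n).symm, by simp⟩
  obtain ⟨π, -⟩ : ∃ π : P ≃ Fin P.card, True := ⟨P.equivFin, trivial⟩
  let f : Option (Fin P.card) → MvPolynomial (Fin (n + 1)) K := fun o =>
    o.elim (rename ι (X none ^ d)) (fun j => rename ι (A_hom d (π.symm j).1))
  have hf : ∀ a, (f a).IsHomogeneous d := by
    intro a
    cases a with
    | none =>
      have h1 : (X none ^ d : MvPolynomial (Option α) K).IsHomogeneous (1 * d) := (isHomogeneous_X K none).pow d
      rw [one_mul] at h1
      exact h1.rename_isHomogeneous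
    | some j => exact (A_isHom d _).rename_isHomogeneous
  obtain ⟨G₁, C, hG₁, ⟨d', hG₁'⟩, hGC⟩ := h (Option (Fin P.card)) f (by
    rw [Fintype.card_option, Fintype.card_fin]) hf
  have hι : Function.Injective (ι : Option α → Fin (n + 1)) := ι.injective
  have hG₂ : rename ι.symm G₁ ≠ 0 := by
    intro h0
    exact hG₁ (rename_injective _ ι.symm.injective (h0.trans (map_zero _).symm))
  have hG₂' : (rename ι.symm G₁).IsHomogeneous d' := hG₁'.rename_isHomogeneous
  have hwι : ∀ y : α → K, (fun i : Fin (n + 1) => (ι.symm i).elim 1 y) ∘ ι = fun o : Option α => o.elim 1 y := by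
    intro y
    funext o
    simp
  refine ⟨aeval (fun o : Option α => o.elim 1 (X : α → MvPolynomial α K)) (rename ι.symm G₁) * ∏ p ∈ P, p, C,
    mul_ne_zero (A_dehom_ne hG₂ hG₂') (Finset.prod_ne_zero_iff.mpr hP), ?_⟩
  intro B hB
  obtain ⟨S, hS, hS'⟩ := hGC B hB
  refine ⟨S.image fun w a => w (ι (some a)), (Nat.cast_le.2 Finset.card_image_le).trans hS, ?_⟩
  intro y hy hyB hyS
  rw [map_mul, mul_ne_zero_iff] at hy
  have hy1 := hy.1
  have hy2 : ∀ p ∈ P, eval y p ≠ 0 := by
    have h1 := hy.2
    rw [map_prod, Finset.prod_ne_zero_iff] at h1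
    exact h1
  refine ⟨hy2, ?_⟩
  rw [A_dehom_eval, eval_rename] at hy1
  have hw0 : (fun o : Option α => o.elim 1 y) ∘ ι.symm = fun i : Fin (n + 1) => (ι.symm i).elim 1 y := rfl
  rw [hw0] at hy1
  -- the height of the point
  have hh : logHeight (fun i : Fin (n + 1) => (ι.symm i).elim 1 y) = logHeight (fun o : Option α => o.elim 1 y) := by
    rw [← hw0]
    exact logHeight_comp_equiv ι.symm _
  have h1 : ErrAt f c₀ C (fun i : Fin (n + 1) => (ι.symm i).elim 1 y) := by
    refine hS' _ ?_ hy1 (by rw [hh]; exact hyB) fun hmem => hyS ?_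
    · rw [← hι0, Equiv.symm_apply_apply]
      rfl
    · refine Finset.mem_image.2 ⟨_, hmem, ?_⟩
      funext a
      rw [Equiv.symm_apply_apply]
      rfl
  unfold ErrAt at h1
  -- values
  have v0 : eval (fun i : Fin (n + 1) => (ι.symm i).elim 1 y) (f none) = 1 := by
    change eval _ (rename ι (X none ^ d)) = 1
    rw [eval_rename, hwι, map_pow, eval_X]
    simp
  have v1 : ∀ p : P, eval (fun i : Fin (n + 1) => (ι.symm i).elim 1 y) (f (some (π p))) = eval y p.1 := by
    intro p
    change eval _ (rename ι (A_hom d (π.symm (π p)).1)) = _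
    rw [eval_rename, hwι, Equiv.symm_apply_apply, A_eval d _ (hd _ p.2)]
  -- the set of places
  have hset : {v : FinitePlace K | ∃ a b, v (eval (fun i : Fin (n + 1) => (ι.symm i).elim 1 y) (f a)) ≠
      v (eval (fun i : Fin (n + 1) => (ι.symm i).elim 1 y) (f b))} =
      {v : FinitePlace K | ∃ p ∈ P, v (eval y p) ≠ 1} := by
    ext v
    rw [Set.mem_ofPred_eq, Set.mem_ofPred_eq]
    constructor
    · rintro ⟨a, b, hab⟩
      by_contra hcon
      push Not at hcon
      apply hab
      have key : ∀ a, v (eval (fun i : Fin (n + 1) => (ι.symm i).elim 1 y) (f a)) = 1 := by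
        intro a
        cases a with
        | none => rw [v0, map_one]
        | some j =>
          have h2 := v1 (π.symm j)
          rw [Equiv.apply_symm_apply] at h2
          rw [h2]
          exact hcon _ (π.symm j).2
      rw [key a, key b]
    · rintro ⟨p, hp, hpv⟩
      refine ⟨some (π ⟨p, hp⟩), none, ?_⟩
      rw [v0, v1, map_one]
      exact hpv
  rw [hset] at h1
  rw [hh] at h1
  refine le_trans ?_ h1
  -- the comparison of the vectors
  set c : K := (d : K) * ∏ p : P, eval y p.1 with hc
  have hc0 : c ≠ 0 := mul_ne_zero hd0 (Finset.prod_ne_zero_iff.mpr fun p _ => hy2 p.1 p.2)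
  rw [← logHeight_smul_eq_logHeight _ hc0]
  refine A_height _ _ fun I => ?_
  by_cases hI : Function.Injective I
  · right
    refine ⟨fun i => (ι.symm i).elim none fun a => some (π (I a)), ?_⟩
    set s : Fin (n + 1) → Option (Fin P.card) := fun i => (ι.symm i).elim none fun a => some (π (I a)) with hs
    have hs0 : s (ι none) = none := by simp [hs]
    have hs1 : ∀ a, s (ι (some a)) = some (π (I a)) := by
      intro a
      simp [hs]
    have hdet : (Matrix.of fun i j => eval (fun i : Fin (n + 1) => (ι.symm i).elim 1 y) (pderiv j (f (s i)))).det =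
        (Matrix.of fun k l => eval y (pderiv l (I k).1)).det * d := by
      rw [← Matrix.det_submatrix_equiv_self ((Equiv.optionEquivSumPUnit.{0} α).symm.trans ι)]
      have hM : (Matrix.of fun i j => eval (fun i : Fin (n + 1) => (ι.symm i).elim 1 y) (pderiv j (f (s i)))).submatrix
          ((Equiv.optionEquivSumPUnit.{0} α).symm.trans ι) ((Equiv.optionEquivSumPUnit.{0} α).symm.trans ι) =
          Matrix.fromBlocks (Matrix.of fun k l => eval y (pderiv l (I k).1))
            (Matrix.of fun k _ => eval (fun i : Fin (n + 1) => (ι.symm i).elim 1 y)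
              (pderiv (ι none) (f (some (π (I k))))))
            0 (Matrix.of fun _ _ => (d : K)) := by
        ext i j
        rcases i with i | i <;> rcases j with j | j
        · change eval _ (pderiv (ι (some j)) (f (s (ι (some i))))) = eval y (pderiv j (I i).1)
          rw [hs1]
          change eval _ (pderiv (ι (some j)) (rename ι (A_hom d (π.symm (π (I i))).1))) = _
          rw [pderiv_rename hι, eval_rename, hwι, Equiv.symm_apply_apply, A_some d _ (hd _ (I i).2)]
        · change eval _ (pderiv (ι none) (f (s (ι (some i))))) = _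
          rw [hs1]
          rfl
        · change eval _ (pderiv (ι (some j)) (f (s (ι none)))) = 0
          rw [hs0]
          change eval _ (pderiv (ι (some j)) (rename ι (X none ^ d))) = _
          rw [pderiv_rename hι, eval_rename, hwι, Derivation.leibniz_pow, pderiv_X_of_ne (by simp)]
          simp
        · change eval _ (pderiv (ι none) (f (s (ι none)))) = (d : K)
          rw [hs0]
          change eval _ (pderiv (ι none) (rename ι (X none ^ d))) = _
          rw [pderiv_rename hι, eval_rename, hwι, Derivation.leibniz_pow, pderiv_X_self]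
          simp
      have hD : (Matrix.of fun _ _ : PUnit.{1} => (d : K)).det = d := by
        rw [Matrix.det_unique]
        rfl
      rw [hM, Matrix.det_fromBlocks_zero₂₁, hD]
    have hsinj : Function.Injective s := by
      intro i j hij
      obtain ⟨o, rfl⟩ := ι.surjective i
      obtain ⟨o', rfl⟩ := ι.surjective j
      cases o with
      | none =>
        cases o' with
        | none => rfl
        | some b =>
          rw [hs0, hs1] at hij
          exact absurd hij (by simp)
      | some a =>
        cases o' with
        | none =>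
          rw [hs0, hs1] at hij
          exact absurd hij (by simp)
        | some b =>
          rw [hs1, hs1] at hij
          rw [hI (π.injective (Option.some_injective _ hij))]
    have hprod1 : ∏ a ∈ Finset.univ.image s, eval (fun i : Fin (n + 1) => (ι.symm i).elim 1 y) (f a) =
        ∏ k, eval y (I k).1 := by
      rw [Finset.prod_image fun i _ j _ hij => hsinj hij, ← Equiv.prod_comp ι, Fintype.prod_option, hs0, v0, one_mul]
      refine Finset.prod_congr rfl fun k _ => ?_
      rw [hs1, v1]
    have hprod2 : ∏ a, eval (fun i : Fin (n + 1) => (ι.symm i).elim 1 y) (f a) = ∏ p : P, eval y p.1 := by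
      rw [Fintype.prod_option, v0, one_mul, ← Equiv.prod_comp π]
      refine Finset.prod_congr rfl fun p _ => ?_
      rw [v1]
    have hprod3 := Finset.prod_mul_prod_compl (Finset.univ.image s)
      (fun a => eval (fun i : Fin (n + 1) => (ι.symm i).elim 1 y) (f a))
    rw [hprod1, hprod2] at hprod3
    have hk0 : ∏ k, eval y (I k).1 ≠ 0 := Finset.prod_ne_zero_iff.mpr fun k _ => hy2 _ (I k).2
    have hL : (Matrix.of fun k l => eval y (pderiv l (I k).1) / eval y (I k).1).det =
        (∏ k, (eval y (I k).1)⁻¹) * (Matrix.of fun k l => eval y (pderiv l (I k).1)).det := by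
      rw [← Matrix.det_mul_column]
      congr 1
      ext k l
      rw [Matrix.of_apply, Matrix.of_apply, Matrix.of_apply, div_eq_inv_mul]
    rw [Pi.smul_apply, smul_eq_mul]
    change c * (Matrix.of fun k l => eval y (pderiv l (I k).1) / eval y (I k).1).det = _
    rw [hdet, hL, hc, ← hprod3, Finset.prod_inv_distrib]
    field_simp
  · left
    rw [Pi.smul_apply, smul_eq_mul]
    have hI' : ∃ i j, I i = I j ∧ i ≠ j := by
      by_contra hcon
      push Not at hcon
      exact hI fun i j hij => hcon i j hij
    obtain ⟨i, j, hij, hne⟩ := hI'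
    have h0 : (Matrix.of fun k l => eval y (pderiv l (I k).1) / eval y (I k).1).det = 0 := by
      refine Matrix.det_zero_of_row_eq hne ?_
      funext l
      rw [Matrix.of_apply, Matrix.of_apply, hij]
    change c * (Matrix.of fun k l => eval y (pderiv l (I k).1) / eval y (I k).1).det = 0
    rw [h0, mul_zero]

end Pool.Agent.Lib.MP_17a322_nt.FE
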