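import Pool.Agent.Lib.MP_17a322_nt.FE.P1

/-!
The choice of the bases, the constants and the digits such that a given polynomial does not vanish.
-/

namespace Pool.Agent.Lib.MP_17a322_nt.FE

open MvPolynomial

variable {α : Type}

/-- The point with the given bases, constants and digits. -/
def mk {R : Type} {k : ℕ} (u c : Option α → R) (w : Option α → Fin (k + 1) → R) : Var k α → R
  | (i, none) => u i
  | (i, some none) => c i
  | (i, some (some j)) => w i j

theorem eval_mk {k : ℕ} (u c : Option α → ℚ) (w : Option α → Fin (k + 1) → ℚ) (i : Option α) :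
    eval (mk u c w) (XX k i) = c i + ∑ j, w i j * u i ^ (j : ℕ) := by
  simp [XX, mk]

theorem map_mk {R S : Type} {k : ℕ} (φ : R → S) (u c : Option α → R) (w : Option α → Fin (k + 1) → R) (a : Var k α) :
    φ (mk u c w a) = mk (fun i => φ (u i)) (fun i => φ (c i)) (fun i j => φ (w i j)) a := by
  obtain ⟨i, b⟩ := a
  cases b with
  | none => rfl
  | some b =>
    cases b with
    | none => rfl
    | some j => rfl

/-- The digit `w 0` is changed such that the value is `x`. -/
def cpl {R : Type} [CommRing R] {k : ℕ} (x u c : R) (w : Fin (k + 1) → R) : Fin (k + 1) → R :=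
  Fin.cons (α := fun _ => R) (x - c - ∑ j : Fin k, w j.succ * u ^ ((j : ℕ) + 1)) (fun j => w j.succ)

theorem sum_cpl {R : Type} [CommRing R] {k : ℕ} (x u c : R) (w : Fin (k + 1) → R) :
    ∑ j, cpl x u c w j * u ^ (j : ℕ) = x - c := by
  rw [Fin.sum_univ_succ]
  have h1 : cpl x u c w 0 = x - c - ∑ j : Fin k, w j.succ * u ^ ((j : ℕ) + 1) := rfl
  have h2 : ∀ j : Fin k, cpl x u c w j.succ = w j.succ := fun j => rfl
  simp only [h1, h2, Fin.val_zero, pow_zero, mul_one, Fin.val_succ]
  ring

theorem cpl_self {R : Type} [CommRing R] {k : ℕ} {x u c : R} {w : Fin (k + 1) → R}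
    (h : c + ∑ j, w j * u ^ (j : ℕ) = x) : cpl x u c w = w := by
  funext j
  refine Fin.cases ?_ (fun i => rfl) j
  change x - c - ∑ j : Fin k, w j.succ * u ^ ((j : ℕ) + 1) = w 0
  rw [← h, Fin.sum_univ_succ]
  simp only [Fin.val_zero, pow_zero, mul_one, Fin.val_succ]
  ring

theorem map_cpl {R S : Type} [CommRing R] [CommRing S] (φ : R →+* S) {k : ℕ} (x u c : R) (w : Fin (k + 1) → R)
    (j : Fin (k + 1)) : φ (cpl x u c w j) = cpl (φ x) (φ u) (φ c) (fun j => φ (w j)) j := by
  refine Fin.cases ?_ (fun i => rfl) j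
  change φ (x - c - ∑ j : Fin k, w j.succ * u ^ ((j : ℕ) + 1)) =
    φ x - φ c - ∑ j : Fin k, φ (w j.succ) * φ u ^ ((j : ℕ) + 1)
  simp only [map_sub, map_sum, map_mul, map_pow]

theorem deg_cpl {σ : Type} {k : ℕ} (x u c : MvPolynomial σ ℚ) (w : Fin (k + 1) → ℚ) (hx : x.totalDegree ≤ 1)
    (hu : u.totalDegree ≤ 1) (hc : c.totalDegree ≤ 1) (j : Fin (k + 1)) :
    (cpl x u c (fun j => C (w j)) j).totalDegree ≤ k + 1 := by
  refine Fin.cases ?_ (fun i => ?_) j
  · change (x - c - ∑ j : Fin k, C (w j.succ) * u ^ ((j : ℕ) + 1)).totalDegree ≤ k + 1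
    refine (totalDegree_sub _ _).trans (max_le ((totalDegree_sub _ _).trans (max_le ?_ ?_)) ?_)
    · omega
    · omega
    · refine totalDegree_finsetSum_le fun j _ => (totalDegree_mul _ _).trans ?_
      rw [totalDegree_C, zero_add]
      refine (totalDegree_pow _ _).trans ?_
      have h1 : ((j : ℕ) + 1) * u.totalDegree ≤ ((j : ℕ) + 1) * 1 := Nat.mul_le_mul_left _ hu
      have h2 := j.2
      omega
  · change (C (w i.succ) : MvPolynomial σ ℚ).totalDegree ≤ k + 1
    rw [totalDegree_C]
    omega

theorem eval_aeval {σ τ : Type} (f : σ → MvPolynomial τ ℚ) (a : τ → ℚ) (p : MvPolynomial σ ℚ) :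
    eval a (aeval f p) = eval (fun i => eval a (f i)) p := by
  rw [← aeval_eq_eval, ← aeval_eq_eval]
  change (aeval a) ((aeval f) p) = _
  rw [← AlgHom.comp_apply, comp_aeval]

theorem pow_inj (e : ℕ) : Function.Injective fun s : ℕ => (2 : ℚ) ^ (e + s) := by
  intro a b h
  have := pow_right_injective₀ (by norm_num : (0 : ℚ) < 2) (by norm_num : (2 : ℚ) ≠ 1) h
  omega

/-- The first choice: the multiple of the coordinates, the bases, the constants. -/
theorem choice_one [Finite α] {k : ℕ} (F : MvPolynomial (Var k α) ℚ) (w₀ : Option α → Fin (k + 1) → ℚ)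
    (x : Option α → ℚ) (l : ℚ) (u₀ c₀ : Option α → ℚ) (e : Option α → ℕ)
    (h : eval (mk u₀ c₀ fun i => cpl (x i * l) (u₀ i) (c₀ i) (w₀ i)) F ≠ 0) :
    ∃ (t : ℕ) (s r : Option α → ℕ), t ≤ F.totalDegree * (k + 1) ∧ (∀ i, s i ≤ F.totalDegree * (k + 1)) ∧
      (∀ i, r i ≤ F.totalDegree * (k + 1)) ∧
      eval (mk (fun i => (2 : ℚ) ^ (e i + s i)) (fun i => (2 : ℚ) ^ r i)
        fun i => cpl (x i * 2 ^ t) ((2 : ℚ) ^ (e i + s i)) ((2 : ℚ) ^ r i) (w₀ i)) F ≠ 0 := by
  classical
  set f : Var k α → MvPolynomial (Option (Option α × Bool)) ℚ :=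
    mk (fun i => X (some (i, true))) (fun i => X (some (i, false)))
      fun i => cpl (C (x i) * X none) (X (some (i, true))) (X (some (i, false))) fun j => C (w₀ i j) with hf
  have hf1 : ∀ a, (f a).totalDegree ≤ k + 1 := by
    rintro ⟨i, b⟩
    cases b with
    | none =>
      change (X (some (i, true)) : MvPolynomial (Option (Option α × Bool)) ℚ).totalDegree ≤ k + 1
      rw [totalDegree_X]
      omega
    | some b =>
      cases b with
      | none =>
        change (X (some (i, false)) : MvPolynomial (Option (Option α × Bool)) ℚ).totalDegree ≤ k + 1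
        rw [totalDegree_X]
        omega
      | some j =>
        refine deg_cpl (C (x i) * X none) (X (some (i, true))) (X (some (i, false))) (w₀ i) ?_ ?_ ?_ j
        · refine (totalDegree_mul _ _).trans ?_
          rw [totalDegree_C, totalDegree_X]
        · rw [totalDegree_X]
        · rw [totalDegree_X]
  have hf2 : ∀ a : Option (Option α × Bool) → ℚ, (fun v => eval a (f v)) =
      mk (fun i => a (some (i, true))) (fun i => a (some (i, false)))
        fun i => cpl (x i * a none) (a (some (i, true))) (a (some (i, false))) (w₀ i) := by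
    intro a
    funext v
    rw [hf, map_mk (fun q => eval a q)]
    simp only [eval_X]
    have h1 : ∀ (i : Option α) (j : Fin (k + 1)), eval a (cpl (C (x i) * X none) (X (some (i, true)))
        (X (some (i, false))) (fun j => C (w₀ i j)) j) =
        cpl (x i * a none) (a (some (i, true))) (a (some (i, false))) (w₀ i) j := by
      intro i j
      rw [map_cpl (eval a)]
      simp only [map_mul, eval_X, eval_C]
    simp only [h1]
  obtain ⟨s, hs, hs'⟩ := exists_grid (aeval f F) (F.totalDegree * (k + 1)) (totalDegree_aeval_le f (k + 1) hf1 F)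
    (fun o => match o with
      | none => l
      | some (i, true) => u₀ i
      | some (i, false) => c₀ i) (by rw [eval_aeval, hf2]; exact h)
    (fun o s => match o with
      | none => (2 : ℚ) ^ s
      | some (i, true) => (2 : ℚ) ^ (e i + s)
      | some (i, false) => (2 : ℚ) ^ s) (by
        intro o
        match o with
        | none =>
          have := pow_inj 0
          simpa only [zero_add] using this
        | some (i, true) => exact pow_inj (e i)
        | some (i, false) =>
          have := pow_inj 0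
          simpa only [zero_add] using this)
  refine ⟨s none, fun i => s (some (i, true)), fun i => s (some (i, false)), hs _, fun i => hs _, fun i => hs _, ?_⟩
  rw [eval_aeval, hf2] at hs'
  exact hs'

/-- The second choice: the carries, in given intervals. -/
theorem choice_two [Finite α] {k : ℕ} (F : MvPolynomial (Var k α) ℚ) (w₁ : Option α → Fin (k + 1) → ℚ)
    (u c : Option α → ℤ) (x : Option α → ℤ) (hu : ∀ i, 0 < u i)
    (h : eval (mk (fun i => (u i : ℚ)) (fun i => (c i : ℚ)) fun i => cpl (x i : ℚ) (u i : ℚ) (c i : ℚ) (w₁ i)) F ≠ 0)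
    (b : Option α → Fin k → ℕ) :
    ∃ t : Option α → Fin k → ℕ, (∀ i j, b i j ≤ t i j ∧ t i j ≤ b i j + F.totalDegree) ∧
      eval (fun a => ((mk u c (fun i => dg k (u i) (x i - c i) (t i)) a : ℤ) : ℚ)) F ≠ 0 := by
  classical
  set d : Option α → Fin (k + 1) → ℚ := fun i j => ((dig k (u i) (x i - c i) j : ℤ) : ℚ) with hd
  have hd1 : ∀ i, ∑ j, d i j * (u i : ℚ) ^ (j : ℕ) = (x i : ℚ) - c i := by
    intro i
    have h1 : ((∑ j, dig k (u i) (x i - c i) j * (u i) ^ (j : ℕ) : ℤ) : ℚ) = ((x i - c i : ℤ) : ℚ) := by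
      rw [sum_dig k (u i) (x i - c i) (hu i)]
    push_cast at h1
    exact h1
  have h2 : ∀ i, ∃ t : Fin k → ℚ, ∀ j, cpl (x i : ℚ) (u i : ℚ) (c i : ℚ) (w₁ i) j = d i j + lo t j - u i * hi t j :=
    fun i => exists_carry k (u i) (d i) _ (by rw [hd1, sum_cpl])
  choose t₀ ht₀ using h2
  set f : Var k α → MvPolynomial (Option α × Fin k) ℚ :=
    mk (fun i => C (u i : ℚ)) (fun i => C (c i : ℚ))
      fun i j => C (d i j) + lo (fun l => X (i, l)) j - C (u i : ℚ) * hi (fun l => X (i, l)) j with hf
  have hlo : ∀ (i : Option α) (j : Fin (k + 1)), (lo (fun l => (X (i, l) : MvPolynomial (Option α × Fin k) ℚ)) j).totalDegree ≤ 1 := by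
    intro i j
    refine Fin.cases ?_ (fun l => ?_) j
    · rw [lo_zero, totalDegree_zero]
      omega
    · rw [lo_succ, totalDegree_X]
  have hhi : ∀ (i : Option α) (j : Fin (k + 1)), (hi (fun l => (X (i, l) : MvPolynomial (Option α × Fin k) ℚ)) j).totalDegree ≤ 1 := by
    intro i j
    refine Fin.lastCases ?_ (fun l => ?_) j
    · rw [hi_last, totalDegree_zero]
      omega
    · rw [hi_castSucc, totalDegree_X]
  have hf1 : ∀ a, (f a).totalDegree ≤ 1 := by
    rintro ⟨i, b⟩
    cases b with
    | none =>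
      change (C (u i : ℚ) : MvPolynomial (Option α × Fin k) ℚ).totalDegree ≤ 1
      rw [totalDegree_C]
      omega
    | some b =>
      cases b with
      | none =>
        change (C (c i : ℚ) : MvPolynomial (Option α × Fin k) ℚ).totalDegree ≤ 1
        rw [totalDegree_C]
        omega
      | some j =>
        change (C (d i j) + lo (fun l => X (i, l)) j - C (u i : ℚ) * hi (fun l => X (i, l)) j :
          MvPolynomial (Option α × Fin k) ℚ).totalDegree ≤ 1
        refine (totalDegree_sub _ _).trans (max_le ((totalDegree_add _ _).trans (max_le ?_ (hlo i j))) ?_)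
        · rw [totalDegree_C]
          omega
        · refine (totalDegree_mul _ _).trans ?_
          rw [totalDegree_C, zero_add]
          exact hhi i j
  have hf2 : ∀ a : Option α × Fin k → ℚ, (fun v => eval a (f v)) =
      mk (fun i => (u i : ℚ)) (fun i => (c i : ℚ))
        fun i j => d i j + lo (fun l => a (i, l)) j - u i * hi (fun l => a (i, l)) j := by
    intro a
    funext v
    rw [hf, map_mk (fun q => eval a q)]
    simp only [eval_C]
    have h1 : ∀ (i : Option α) (j : Fin (k + 1)),
        eval a (C (d i j) + lo (fun l => X (i, l)) j - C (u i : ℚ) * hi (fun l => X (i, l)) j) =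
        d i j + lo (fun l => a (i, l)) j - u i * hi (fun l => a (i, l)) j := by
      intro i j
      rw [map_sub, map_add, map_mul, eval_C, eval_C, map_lo (eval a) (map_zero _), map_hi (eval a) (map_zero _)]
      simp only [eval_X]
    simp only [h1]
  obtain ⟨s, hs, hs'⟩ := exists_grid (aeval f F) F.totalDegree
    ((totalDegree_aeval_le f 1 hf1 F).trans (by rw [mul_one]))
    (fun v => t₀ v.1 v.2) (by
      rw [eval_aeval, hf2]
      have h3 : (fun (i : Option α) (j : Fin (k + 1)) => d i j + lo (fun l => t₀ (i, l).1 (i, l).2) j -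
          u i * hi (fun l => t₀ (i, l).1 (i, l).2) j) = fun i => cpl (x i : ℚ) (u i : ℚ) (c i : ℚ) (w₁ i) := by
        funext i j
        rw [ht₀ i j]
      rw [h3]
      exact h)
    (fun v s => ((b v.1 v.2 + s : ℕ) : ℚ)) (fun v s s' hss => by
      have h4 : b v.1 v.2 + s = b v.1 v.2 + s' := Nat.cast_injective hss
      omega)
  refine ⟨fun i l => b i l + s (i, l), fun i j => ⟨Nat.le_add_right _ _, Nat.add_le_add_left (hs _) _⟩, ?_⟩
  rw [eval_aeval, hf2] at hs'
  have h3 : (fun a => ((mk u c (fun i => dg k (u i) (x i - c i) fun l => b i l + s (i, l)) a : ℤ) : ℚ)) =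
      mk (fun i => (u i : ℚ)) (fun i => (c i : ℚ))
        fun i j => d i j + lo (fun l => ((b i l + s (i, l) : ℕ) : ℚ)) j -
          u i * hi (fun l => ((b i l + s (i, l) : ℕ) : ℚ)) j := by
    funext a
    rw [map_mk (fun n : ℤ => (n : ℚ))]
    have h4 : ∀ (i : Option α) (j : Fin (k + 1)), ((dg k (u i) (x i - c i) (fun l => b i l + s (i, l)) j : ℤ) : ℚ) =
        d i j + lo (fun l => ((b i l + s (i, l) : ℕ) : ℚ)) j - u i * hi (fun l => ((b i l + s (i, l) : ℕ) : ℚ)) j := by
      intro i j
      rw [dg, Int.cast_sub, Int.cast_add, Int.cast_mul, map_lo (fun n : ℤ => (n : ℚ)) Int.cast_zero,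
        map_hi (fun n : ℤ => (n : ℚ)) Int.cast_zero]
      simp only [Int.cast_natCast, hd]
    simp only [h4]
  rw [h3]
  exact hs'

end Pool.Agent.Lib.MP_17a322_nt.FE
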