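import Pool.Agent.Lib.MP_17a322_nt.FE.Bad
import Pool.Agent.Lib.MP_17a322_nt.FE.P2

/-!
Additional variables, whose values are powers of `2`.
-/

namespace Pool.Agent.Lib.MP_17a322_nt.FE

open MvPolynomial Height NumberField
open Pool.Agent.Lib.MP_17a322_nt.GQ (vec pr pr_prime pr_inj absNorm_pr apply_eq_one)

variable {α β : Type} [Fintype α] [DecidableEq α] [Fintype β] [DecidableEq β]

private theorem Ext_nonneg (v : FinitePlace ℚ) : 0 ≤ Real.log (Ideal.absNorm v.maximalIdeal.asIdeal) := by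
  rw [absNorm_pr]
  exact Real.log_natCast_nonneg _

private theorem Ext_mono {A B : Set (FinitePlace ℚ)} (hB : B.Finite) (h : A ⊆ B) :
    ∑ᶠ v ∈ A, Real.log (Ideal.absNorm v.maximalIdeal.asIdeal) ≤
      ∑ᶠ v ∈ B, Real.log (Ideal.absNorm v.maximalIdeal.asIdeal) := by
  have hA : A.Finite := hB.subset h
  rw [finsum_mem_eq_finite_toFinset_sum _ hA, finsum_mem_eq_finite_toFinset_sum _ hB]
  refine Finset.sum_le_sum_of_subset_of_nonneg ?_ fun v _ _ => Ext_nonneg v
  intro v hv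
  exact hB.mem_toFinset.2 (h (hA.mem_toFinset.1 hv))

private theorem Ext_union {A B : Set (FinitePlace ℚ)} (hA : A.Finite) (hB : B.Finite) :
    ∑ᶠ v ∈ A ∪ B, Real.log (Ideal.absNorm v.maximalIdeal.asIdeal) ≤
      (∑ᶠ v ∈ A, Real.log (Ideal.absNorm v.maximalIdeal.asIdeal)) +
      ∑ᶠ v ∈ B, Real.log (Ideal.absNorm v.maximalIdeal.asIdeal) := by
  classical
  rw [← finsum_mem_union_inter hA hB]
  have h : 0 ≤ ∑ᶠ v ∈ A ∩ B, Real.log (Ideal.absNorm v.maximalIdeal.asIdeal) :=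
    finsum_nonneg fun v => finsum_nonneg fun _ => Ext_nonneg v
  linarith

private theorem Ext_pderiv_inl (l : α) (p : MvPolynomial α ℚ) :
    pderiv (Sum.inl l : α ⊕ β) (rename Sum.inl p) = rename Sum.inl (pderiv l p) :=
  pderiv_rename Sum.inl_injective l p

private theorem Ext_pderiv_inr (b : β) (p : MvPolynomial α ℚ) :
    pderiv (Sum.inr b : α ⊕ β) (rename Sum.inl p) = 0 := by
  apply pderiv_eq_zero_of_notMem_vars
  intro h
  obtain ⟨a, -, ha⟩ := Finset.mem_image.1 (vars_rename Sum.inl p h)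
  exact Sum.inl_ne_inr ha

private theorem Ext_eval (y : α → ℚ) (t : β → ℚ) (p : MvPolynomial α ℚ) :
    eval (Sum.elim y t) (rename Sum.inl p) = eval y p := by
  rw [eval_rename]
  rfl

/-- The determinants at the new point. -/
private theorem Ext_vec {P : Finset (MvPolynomial α ℚ)} {Q : Finset (MvPolynomial (α ⊕ β) ℚ)}
    (h1 : ∀ p ∈ P, rename Sum.inl p ∈ Q) (h2 : ∀ b, X (Sum.inr b) ∈ Q) (y : α → ℚ) (t : β → ℚ) (I : α → P) :
    vec Q (Sum.elim y t) (Sum.elim (fun a => ⟨rename Sum.inl (I a).1, h1 _ (I a).2⟩) fun b => ⟨X (Sum.inr b), h2 b⟩) =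
      vec P y I * ∏ b, (t b)⁻¹ := by
  have e : (Matrix.of fun k l : α ⊕ β => eval (Sum.elim y t) (pderiv l ((Sum.elim (fun a =>
      (⟨rename Sum.inl (I a).1, h1 _ (I a).2⟩ : Q)) (fun b => (⟨X (Sum.inr b), h2 b⟩ : Q)) k).1)) /
      eval (Sum.elim y t) ((Sum.elim (fun a =>
      (⟨rename Sum.inl (I a).1, h1 _ (I a).2⟩ : Q)) (fun b => (⟨X (Sum.inr b), h2 b⟩ : Q)) k).1)) =
      Matrix.fromBlocks (Matrix.of fun k l => eval y (pderiv l (I k).1) / eval y (I k).1) 0 0
        (Matrix.diagonal fun b => (t b)⁻¹) := by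
    ext k l
    rcases k with k | k <;> rcases l with l | l
    · rw [Matrix.fromBlocks_apply₁₁, Matrix.of_apply, Matrix.of_apply]
      change eval (Sum.elim y t) (pderiv (Sum.inl l) (rename Sum.inl (I k).1)) /
        eval (Sum.elim y t) (rename Sum.inl (I k).1) = _
      rw [Ext_pderiv_inl, Ext_eval, Ext_eval]
    · rw [Matrix.fromBlocks_apply₁₂, Matrix.of_apply]
      change eval (Sum.elim y t) (pderiv (Sum.inr l) (rename Sum.inl (I k).1)) / _ = _
      rw [Ext_pderiv_inr, map_zero, zero_div]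
      rfl
    · rw [Matrix.fromBlocks_apply₂₁, Matrix.of_apply]
      change eval (Sum.elim y t) (pderiv (Sum.inl l) (X (Sum.inr k))) / _ = _
      rw [pderiv_X_of_ne (by exact Sum.inr_ne_inl), map_zero, zero_div]
      rfl
    · rw [Matrix.fromBlocks_apply₂₂, Matrix.of_apply]
      change eval (Sum.elim y t) (pderiv (Sum.inr l) (X (Sum.inr k))) / eval (Sum.elim y t) (X (Sum.inr k)) = _
      rw [eval_X]
      by_cases hkl : k = l
      · subst hkl
        rw [pderiv_X_self, map_one, Matrix.diagonal_apply_eq, one_div]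
        rfl
      · rw [pderiv_X_of_ne (fun h => hkl (Sum.inr_injective h)), map_zero, zero_div, Matrix.diagonal_apply_ne _ hkl]
  change (Matrix.of fun k l : α ⊕ β => eval (Sum.elim y t) (pderiv l ((Sum.elim (fun a =>
      (⟨rename Sum.inl (I a).1, h1 _ (I a).2⟩ : Q)) (fun b => (⟨X (Sum.inr b), h2 b⟩ : Q)) k).1)) /
      eval (Sum.elim y t) ((Sum.elim (fun a =>
      (⟨rename Sum.inl (I a).1, h1 _ (I a).2⟩ : Q)) (fun b => (⟨X (Sum.inr b), h2 b⟩ : Q)) k).1)).det = _
  rw [e, Matrix.det_fromBlocks_zero₂₁, Matrix.det_diagonal]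
  rfl

/-- The height of the new point. -/
private theorem Ext_height (N : ℕ) (y : α → ℚ) (s : β → ℕ) (hs : ∀ b, s b ≤ N) :
    logHeight (fun o : Option (α ⊕ β) => o.elim 1 (Sum.elim y fun b => (2 : ℚ) ^ s b)) ≤
      logHeight (fun o : Option α => o.elim 1 y) + N * Real.log 2 := by
  classical
  set A : Option α → ℚ := fun o => o.elim 1 y with hA
  set B : Option β → ℤ := fun o => o.elim 1 fun b => 2 ^ s b with hB
  have hA0 : A ≠ 0 := fun h => one_ne_zero (congrFun h none)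
  have hB0 : (((↑) : ℤ → ℚ) ∘ B) ≠ 0 := fun h => by
    have := congrFun h none
    simp [hB] at this
  have hg : Finset.univ.gcd B = 1 := by
    rw [← Finset.normalize_gcd, normalize_eq_one]
    exact isUnit_of_dvd_one (Finset.gcd_dvd (Finset.mem_univ none))
  have h1 : logHeight (((↑) : ℤ → ℚ) ∘ B) ≤ N * Real.log 2 := by
    rw [Rat.logHeight_eq_max_abs_of_gcd_eq_one hg]
    obtain ⟨i, hi⟩ := exists_eq_ciSup_of_finite (f := fun i => |B i|)
    rw [← hi]
    have hN : 0 ≤ (N : ℝ) * Real.log 2 := mul_nonneg (Nat.cast_nonneg N) (Real.log_nonneg (by norm_num))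
    cases i with
    | none =>
      have h4 : Real.log ((|B none| : ℤ) : ℝ) = 0 := by simp [hB]
      rw [h4]
      exact hN
    | some b =>
      have h4 : ((|B (some b)| : ℤ) : ℝ) = 2 ^ s b := by simp [hB]
      rw [h4, Real.log_pow]
      exact mul_le_mul_of_nonneg_right (Nat.cast_le.2 (hs b)) (Real.log_nonneg (by norm_num))
  have h2 := logHeight_fun_mul_eq hA0 hB0
  set f : Option (α ⊕ β) → Option α × Option β := fun o => match o with
    | none => (none, none)
    | some (Sum.inl a) => (some a, none)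
    | some (Sum.inr b) => (none, some b) with hf
  have h3 : (fun o : Option (α ⊕ β) => o.elim 1 (Sum.elim y fun b => (2 : ℚ) ^ s b)) =
      (fun a : Option α × Option β => A a.1 * (((↑) : ℤ → ℚ) ∘ B) a.2) ∘ f := by
    funext o
    rcases o with - | (a | b)
    · simp [hf, hA, hB]
    · simp [hf, hA, hB]
    · simp [hf, hA, hB]
  rw [h3]
  refine (logHeight_comp_le f _).trans ?_
  rw [h2]
  linarith

/-- The variables of `β` are not needed. -/
theorem ineqX_of_sum {P : Finset (MvPolynomial α ℚ)} {Q : Finset (MvPolynomial (α ⊕ β) ℚ)}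
    (h1 : ∀ p ∈ P, rename Sum.inl p ∈ Q) (h2 : ∀ b, X (Sum.inr b) ∈ Q)
    (h3 : ∀ q ∈ Q, (∃ p ∈ P, q = rename Sum.inl p) ∨ ∃ b, q = X (Sum.inr b))
    {c b : ℝ} (hc : 0 ≤ c) (h : IneqX Q c b) : IneqX P c b := by
  classical
  obtain ⟨G, C₀, hG, hGC⟩ := h
  obtain ⟨t₀, ht₀⟩ : ∃ t₀ : α ⊕ β → ℚ, eval t₀ G ≠ 0 := by
    by_contra hcon
    push Not at hcon
    exact hG (MvPolynomial.funext fun z => by rw [hcon z, map_zero])
  set f : α ⊕ β → MvPolynomial α ℚ := Sum.elim X fun b => C (t₀ (Sum.inr b)) with hf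
  have hf2 : ∀ y : α → ℚ, (fun v => eval y (f v)) = Sum.elim y fun b => t₀ (Sum.inr b) := by
    intro y
    funext v
    rcases v with v | v
    · simp [hf]
    · simp [hf]
  set M : ℝ := (2 : ℝ) ^ G.totalDegree with hM
  have hM1 : 1 ≤ M := one_le_pow₀ (by norm_num)
  have hM0 : 0 ≤ M := zero_le_one.trans hM1
  have hMl : Real.log M = G.totalDegree * Real.log 2 := by rw [hM, Real.log_pow]
  have hMb : 0 ≤ M ^ b := Real.rpow_nonneg hM0 b
  have hl2 : 0 ≤ Real.log 2 := Real.log_nonneg (by norm_num)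
  have hE : 0 ≤ c * (G.totalDegree * Real.log 2) := mul_nonneg hc (mul_nonneg (Nat.cast_nonneg _) hl2)
  refine ⟨aeval f G, |C₀| * M ^ b + |C₀| + c * (G.totalDegree * Real.log 2) + Real.log 2, ?_, fun B hB => ?_⟩
  · intro h0
    apply ht₀
    have h4 : eval (fun a => t₀ (Sum.inl a)) (aeval f G) = eval t₀ G := by
      rw [eval_aeval, hf2]
      congr 2
      funext v
      rcases v with v | v <;> rfl
    rw [← h4, h0, map_zero]
  have hB0 : 0 < B := zero_lt_one.trans_le hB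
  obtain ⟨S', hS', hSS⟩ := hGC (B * M) (one_le_mul_of_one_le_of_one_le hB hM1)
  refine ⟨S'.image fun v a => v (Sum.inl a), ?_, fun y hy hyB hyS => ?_⟩
  · have h4 : (((S'.image fun v (a : α) => v (Sum.inl a)).card : ℕ) : ℝ) ≤ (S'.card : ℝ) :=
      Nat.cast_le.2 Finset.card_image_le
    refine h4.trans (hS'.trans ?_)
    rw [Real.mul_rpow hB0.le hM0]
    have h5 : 0 ≤ B ^ b := Real.rpow_nonneg hB0.le b
    have h6 : C₀ ≤ |C₀| := le_abs_self C₀
    have h7 : C₀ * (B ^ b * M ^ b) ≤ |C₀| * (B ^ b * M ^ b) := mul_le_mul_of_nonneg_right h6 (mul_nonneg h5 hMb)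
    have h8 : |C₀| * (B ^ b * M ^ b) = (|C₀| * M ^ b) * B ^ b := by ring
    refine h7.trans (h8.trans_le (mul_le_mul_of_nonneg_right ?_ h5))
    have := abs_nonneg C₀
    linarith
  rw [eval_aeval, hf2] at hy
  set g : α ⊕ β → MvPolynomial β ℚ := Sum.elim (fun a => C (y a)) X with hg
  have hg2 : ∀ t : β → ℚ, (fun v => eval t (g v)) = Sum.elim y t := by
    intro t
    funext v
    rcases v with v | v
    · simp [hg]
    · simp [hg]
  have hg1 : ∀ v, (g v).totalDegree ≤ 1 := by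
    intro v
    rcases v with v | v
    · change (C (y v) : MvPolynomial β ℚ).totalDegree ≤ 1
      rw [totalDegree_C]
      omega
    · change (X v : MvPolynomial β ℚ).totalDegree ≤ 1
      rw [totalDegree_X]
  obtain ⟨s, hs, hs'⟩ := exists_grid (aeval g G) G.totalDegree
    ((totalDegree_aeval_le g 1 hg1 G).trans (by rw [mul_one])) (fun b => t₀ (Sum.inr b))
    (by rw [eval_aeval, hg2]; exact hy) (fun _ s => (2 : ℚ) ^ s) (fun _ => by
      have := pow_inj 0
      simpa only [zero_add] using this)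
  rw [eval_aeval, hg2] at hs'
  have hht := Ext_height G.totalDegree y s hs
  obtain ⟨h4, h5⟩ := hSS (Sum.elim y fun b => (2 : ℚ) ^ s b) hs'
    (by
      rw [Real.log_mul hB0.ne' (by positivity), hMl]
      exact hht.trans (by linarith))
    (fun hmem => hyS (Finset.mem_image.2 ⟨_, hmem, rfl⟩))
  have hP : ∀ p ∈ P, eval y p ≠ 0 := by
    intro p hp
    have := h4 _ (h1 p hp)
    rwa [Ext_eval] at this
  refine ⟨hP, ?_⟩
  set t : β → ℚ := fun b => (2 : ℚ) ^ s b with ht
  have ht0 : ∀ b, t b ≠ 0 := fun b => pow_ne_zero _ (by norm_num)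
  have hT : ∏ b, t b ≠ 0 := Finset.prod_ne_zero_iff.2 fun b _ => ht0 b
  -- the vector
  have h6 : logHeight (vec P y) ≤ logHeight (vec Q (Sum.elim y t)) := by
    set J : (α → P) → (α ⊕ β → Q) := fun I =>
      Sum.elim (fun a => ⟨rename Sum.inl (I a).1, h1 _ (I a).2⟩) fun b => ⟨X (Sum.inr b), h2 b⟩ with hJ
    have h7 : vec P y = (∏ b, t b) • (vec Q (Sum.elim y t) ∘ J) := by
      funext I
      have h8 := Ext_vec h1 h2 y t I
      have h9 : (vec Q (Sum.elim y t) ∘ J) I = vec P y I * ∏ b, (t b)⁻¹ := h8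
      rw [Pi.smul_apply, h9, smul_eq_mul, Finset.prod_inv_distrib]
      field_simp
    rw [h7, logHeight_smul_eq_logHeight _ hT]
    exact logHeight_comp_le J _
  -- the places
  have hSf : {v : FinitePlace ℚ | ∃ p ∈ P, v (eval y p) ≠ 1}.Finite := by
    have h7 : {v : FinitePlace ℚ | ∃ p ∈ P, v (eval y p) ≠ 1} = ⋃ p ∈ P, {v : FinitePlace ℚ | v (eval y p) ≠ 1} := by
      ext v
      simp
    rw [h7]
    exact Set.Finite.biUnion P.finite_toSet fun p hp => FinitePlace.hasFiniteMulSupport (hP p hp)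
  obtain ⟨h2f, h2s⟩ := sum_int 2 two_ne_zero
  have h8 : {v : FinitePlace ℚ | ∃ q ∈ Q, v (eval (Sum.elim y t) q) ≠ 1} ⊆
      {v : FinitePlace ℚ | ∃ p ∈ P, v (eval y p) ≠ 1} ∪ {v : FinitePlace ℚ | v ((2 : ℤ) : ℚ) ≠ 1} := by
    rintro v ⟨q, hq, hv⟩
    rcases h3 q hq with ⟨p, hp, rfl⟩ | ⟨b, rfl⟩
    · left
      rw [Ext_eval] at hv
      exact ⟨p, hp, hv⟩
    · right
      intro h9
      apply hv
      rw [eval_X]
      change v ((2 : ℚ) ^ s b) = 1
      rw [map_pow]
      have h10 : v (2 : ℚ) = 1 := by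
        rw [Int.cast_ofNat] at h9
        exact h9
      rw [h10, one_pow]
  have h9 := (Ext_mono (hSf.union h2f) h8).trans (Ext_union hSf h2f)
  have h10 : Real.log |(((2 : ℤ) : ℝ))| = Real.log 2 := by norm_num
  rw [h10] at h2s
  have h11 := mul_le_mul_of_nonneg_left hht hc
  rw [mul_add] at h11
  have h12 : C₀ ≤ |C₀| := le_abs_self C₀
  have h13 : 0 ≤ |C₀| * M ^ b := mul_nonneg (abs_nonneg C₀) hMb
  linarith

end Pool.Agent.Lib.MP_17a322_nt.FE
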