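import Pool.Agent.Lib.MP_17a322_nt.FE.Det
import Pool.Agent.Lib.MP_17a322_nt.GQ.K1

namespace Pool.Agent.Lib.MP_17a322_nt.FE

open MvPolynomial Height NumberField
open Pool.Agent.Lib.MP_17a322_nt.GQ (vec pr pr_prime pr_inj absNorm_pr apply_eq_one)

variable {α : Type} [Fintype α] [DecidableEq α]

private theorem Bad_log_nonneg (v : FinitePlace ℚ) : 0 ≤ Real.log (Ideal.absNorm v.maximalIdeal.asIdeal) := by
  rw [absNorm_pr]
  exact Real.log_natCast_nonneg _

private theorem Bad_neg (v : FinitePlace ℚ) (x : ℚ) : v (-x) = v x := by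
  have h1 : v (-1 : ℚ) ^ 2 = 1 := by
    rw [← map_pow]
    norm_num
  have h2 : v (-1 : ℚ) = 1 := by
    have h3 : 0 ≤ v (-1 : ℚ) := apply_nonneg v _
    nlinarith [sq_nonneg (v (-1 : ℚ) - 1)]
  rw [← neg_one_mul, map_mul, h2, one_mul]

/-- an integer prime to the prime of the place is a unit -/
private theorem Bad_unit (v : FinitePlace ℚ) (m : ℤ) (h : ¬ ((pr v : ℕ) : ℤ) ∣ m) : v (m : ℚ) = 1 := by
  have h1 : ¬ pr v ∣ m.natAbs := fun h2 => h (Int.natCast_dvd.2 h2)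
  have h2 := apply_eq_one v _ h1
  rcases Int.natAbs_eq m with h3 | h3
  · rw [h3, Int.cast_natCast]
    exact h2
  · rw [h3, Int.cast_neg, Int.cast_natCast, Bad_neg]
    exact h2

private theorem Bad_fin {x : ℚ} (hx : x ≠ 0) : {v : FinitePlace ℚ | v x ≠ 1}.Finite :=
  FinitePlace.hasFiniteMulSupport hx

/-- For an integer `m ≠ 0` the sum of `log q_v` over the places with `v m ≠ 1` is at most `log |m|`. -/
theorem sum_int (m : ℤ) (hm : m ≠ 0) : {v : FinitePlace ℚ | v (m : ℚ) ≠ 1}.Finite ∧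
    ∑ᶠ v ∈ {v : FinitePlace ℚ | v (m : ℚ) ≠ 1}, Real.log (Ideal.absNorm v.maximalIdeal.asIdeal) ≤
      Real.log |(m : ℝ)| := by
  classical
  have hfin : {v : FinitePlace ℚ | v (m : ℚ) ≠ 1}.Finite := Bad_fin (Int.cast_ne_zero.2 hm)
  refine ⟨hfin, ?_⟩
  rw [finsum_mem_eq_finite_toFinset_sum _ hfin]
  have h1 : ∑ v ∈ hfin.toFinset, Real.log (Ideal.absNorm v.maximalIdeal.asIdeal) =
      ∑ p ∈ hfin.toFinset.image pr, Real.log (p : ℝ) := by
    rw [Finset.sum_image fun a _ b _ hab => pr_inj hab]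
    exact Finset.sum_congr rfl fun v _ => by rw [absNorm_pr]
  have h2 : hfin.toFinset.image pr ⊆ m.natAbs.primeFactors := by
    intro p hp
    obtain ⟨v, hv, rfl⟩ := Finset.mem_image.1 hp
    have hv' : v (m : ℚ) ≠ 1 := hfin.mem_toFinset.1 hv
    refine Nat.mem_primeFactors.2 ⟨pr_prime v, ?_, Int.natAbs_ne_zero.2 hm⟩
    by_contra h
    exact hv' (Bad_unit v m fun h3 => h (Int.natCast_dvd.1 h3))
  rw [h1]
  refine (Finset.sum_le_sum_of_subset_of_nonneg h2 fun p _ _ => Real.log_natCast_nonneg p).trans ?_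
  rw [← Real.log_prod (fun p hp => by
    have := (Nat.prime_of_mem_primeFactors hp).ne_zero
    exact_mod_cast this)]
  have h3 : (∏ p ∈ m.natAbs.primeFactors, (p : ℝ)) ≤ (m.natAbs : ℝ) := by
    rw [← Nat.cast_prod]
    exact Nat.cast_le.2 (Nat.le_of_dvd (Int.natAbs_pos.2 hm) (Nat.prod_primeFactors_dvd _))
  have h4 : |(m : ℝ)| = (m.natAbs : ℝ) := by
    rw [Nat.cast_natAbs, Int.cast_abs]
  rw [h4]
  refine Real.log_le_log ?_ h3
  exact Finset.prod_pos fun p hp => by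
    have := (Nat.prime_of_mem_primeFactors hp).pos
    exact_mod_cast this

private theorem Bad_mono {A B : Set (FinitePlace ℚ)} (hB : B.Finite) (h : A ⊆ B) :
    ∑ᶠ v ∈ A, Real.log (Ideal.absNorm v.maximalIdeal.asIdeal) ≤
      ∑ᶠ v ∈ B, Real.log (Ideal.absNorm v.maximalIdeal.asIdeal) := by
  have hA : A.Finite := hB.subset h
  rw [finsum_mem_eq_finite_toFinset_sum _ hA, finsum_mem_eq_finite_toFinset_sum _ hB]
  refine Finset.sum_le_sum_of_subset_of_nonneg ?_ fun v _ _ => Bad_log_nonneg v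
  intro v hv
  exact hB.mem_toFinset.2 (h (hA.mem_toFinset.1 hv))

private theorem Bad_union {A B : Set (FinitePlace ℚ)} (hA : A.Finite) (hB : B.Finite) :
    ∑ᶠ v ∈ A ∪ B, Real.log (Ideal.absNorm v.maximalIdeal.asIdeal) ≤
      (∑ᶠ v ∈ A, Real.log (Ideal.absNorm v.maximalIdeal.asIdeal)) +
      ∑ᶠ v ∈ B, Real.log (Ideal.absNorm v.maximalIdeal.asIdeal) := by
  classical
  rw [← finsum_mem_union_inter hA hB]
  have h : 0 ≤ ∑ᶠ v ∈ A ∩ B, Real.log (Ideal.absNorm v.maximalIdeal.asIdeal) :=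
    finsum_nonneg fun v => finsum_nonneg fun _ => Bad_log_nonneg v
  linarith

private theorem Bad_biUnion {ι : Type} (s : Finset ι) (A : ι → Set (FinitePlace ℚ)) (hA : ∀ i, (A i).Finite) :
    ∑ᶠ v ∈ ⋃ i ∈ s, A i, Real.log (Ideal.absNorm v.maximalIdeal.asIdeal) ≤
      ∑ i ∈ s, ∑ᶠ v ∈ A i, Real.log (Ideal.absNorm v.maximalIdeal.asIdeal) := by
  classical
  induction s using Finset.induction_on with
  | empty =>
    have h : (⋃ i ∈ (∅ : Finset ι), A i) = ∅ := by simp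
    rw [h, finsum_mem_empty, Finset.sum_empty]
  | insert i s hi ih =>
    have e : (⋃ j ∈ insert i s, A j) = A i ∪ ⋃ j ∈ s, A j := by
      ext v
      simp
    have hf : (⋃ j ∈ s, A j).Finite := Set.Finite.biUnion s.finite_toSet fun j _ => hA j
    rw [e, Finset.sum_insert hi]
    refine (Bad_union (hA i) hf).trans ?_
    linarith

/-- The places on the right side for the new point. -/
theorem bad_le {k d D : ℕ} {C C' : ℝ} {P : Finset (MvPolynomial α ℚ)} {Q : Finset (MvPolynomial (Var k α) ℚ)}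
    (hQ : IsDig k d P Q) (hdeg : ∀ p ∈ P, p.totalDegree ≤ d) (hX : ∀ l, (X l : MvPolynomial α ℚ) ∈ P) (y : α → ℚ)
    (hP : ∀ p ∈ P, eval y p ≠ 0) (x : Option α → ℤ) (z : Var k α → ℤ) (hR : Rep k D C C' y x z) :
    ∑ᶠ v ∈ {v : FinitePlace ℚ | ∃ q ∈ Q, v (eval (fun a => (z a : ℚ)) q) ≠ 1},
        Real.log (Ideal.absNorm v.maximalIdeal.asIdeal) ≤
      (∑ᶠ v ∈ {v : FinitePlace ℚ | ∃ p ∈ P, v (eval y p) ≠ 1}, Real.log (Ideal.absNorm v.maximalIdeal.asIdeal)) +
        Real.log 2 + ∑ i, ∑ j : Fin (k + 1), Real.log |(z (i, some (some j)) : ℝ)| := by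
  classical
  set S : Set (FinitePlace ℚ) := {v | ∃ p ∈ P, v (eval y p) ≠ 1} with hS
  set S2 : Set (FinitePlace ℚ) := {v | v ((2 : ℤ) : ℚ) ≠ 1} with hS2
  set A : Option α × Fin (k + 1) → Set (FinitePlace ℚ) := fun t => {v | v ((z (t.1, some (some t.2)) : ℤ) : ℚ) ≠ 1}
    with hA
  have hSf : S.Finite := by
    have h1 : S = ⋃ p ∈ P, {v : FinitePlace ℚ | v (eval y p) ≠ 1} := by
      ext v
      simp [hS]
    rw [h1]
    exact Set.Finite.biUnion P.finite_toSet fun p hp => Bad_fin (hP p hp)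
  have hS2f : S2.Finite := (sum_int 2 two_ne_zero).1
  have hAf : ∀ t, (A t).Finite := fun t => (sum_int _ (hR.z_ne _)).1
  have hUf : (⋃ t ∈ (Finset.univ : Finset (Option α × Fin (k + 1))), A t).Finite :=
    Set.Finite.biUnion (Finset.finite_toSet _) fun t _ => hAf t
  have hx0 : ((x none : ℤ) : ℚ) ≠ 0 := Int.cast_ne_zero.2 (hR.x_ne none)
  have hsub : {v : FinitePlace ℚ | ∃ q ∈ Q, v (eval (fun a => (z a : ℚ)) q) ≠ 1} ⊆
      (S ∪ S2) ∪ ⋃ t ∈ (Finset.univ : Finset (Option α × Fin (k + 1))), A t := by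
    rintro v ⟨q, hq, hv⟩
    by_contra hcon
    simp only [Set.mem_union, not_or, Set.mem_iUnion, Finset.mem_univ, true_and, exists_prop, not_exists] at hcon
    obtain ⟨⟨k1, k2⟩, k3⟩ := hcon
    have e1 : ∀ p ∈ P, v (eval y p) = 1 := by
      intro p hp
      by_contra h
      exact k1 ⟨p, hp, h⟩
    have e2 : v ((2 : ℤ) : ℚ) = 1 := by
      by_contra h
      exact k2 h
    have e2' : v (2 : ℚ) = 1 := by
      have h := e2
      rw [Int.cast_ofNat] at h
      exact h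
    have e3 : ∀ i j, v ((z (i, some (some j)) : ℤ) : ℚ) = 1 := by
      intro i j
      by_contra h
      exact k3 (i, j) h
    have e4 : ∀ a, v ((z a : ℤ) : ℚ) = 1 := by
      rintro ⟨i, (_ | (_ | j))⟩
      · obtain ⟨e, he⟩ := hR.base i
        rw [he, Int.cast_pow, map_pow, e2, one_pow]
      · obtain ⟨e, _, he⟩ := hR.cst i
        rw [he, Int.cast_pow, map_pow, e2, one_pow]
      · exact e3 i j
    have e5 : ∀ l, v ((x (some l) : ℤ) : ℚ) = v ((x none : ℤ) : ℚ) := by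
      intro l
      have h1 := e1 _ (hX l)
      rw [eval_X, hR.y_eq l, map_div₀] at h1
      have h2 : v ((x none : ℤ) : ℚ) ≠ 0 := (map_ne_zero v).2 hx0
      exact (div_eq_one_iff_eq h2).1 h1
    have hp2 : pr v ≠ 2 := by
      intro h
      have h1 := GQ.apply_pr v
      rw [h, Nat.cast_ofNat, e2'] at h1
      norm_num at h1
    obtain ⟨i, hi⟩ := hR.prim (pr v) (pr_prime v) hp2
    have e6 : v ((x none : ℤ) : ℚ) = 1 := by
      have h1 := Bad_unit v _ hi
      cases i with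
      | none => exact h1
      | some l => rw [← e5 l, h1]
    apply hv
    rcases hQ.all q hq with ⟨a, rfl⟩ | rfl | ⟨p, hp, rfl⟩
    · rw [eval_X]
      exact e4 a
    · rw [map_pow, hR.val none, map_pow, e6, one_pow]
    · rw [eval_form (hdeg p hp) (fun a => (z a : ℚ)) (fun i => (x i : ℚ)) hR.val hx0 y hR.y_eq, map_mul, map_pow, e6,
        one_pow, one_mul, e1 p hp]
  have h1 := Bad_mono ((hSf.union hS2f).union hUf) hsub
  have h2 := Bad_union (hSf.union hS2f) hUf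
  have h3 := Bad_union hSf hS2f
  have h4 := Bad_biUnion Finset.univ A hAf
  have h5 : ∑ t ∈ (Finset.univ : Finset (Option α × Fin (k + 1))),
      ∑ᶠ v ∈ A t, Real.log (Ideal.absNorm v.maximalIdeal.asIdeal) ≤
      ∑ i, ∑ j : Fin (k + 1), Real.log |(z (i, some (some j)) : ℝ)| := by
    rw [← Finset.univ_product_univ, Finset.sum_product]
    exact Finset.sum_le_sum fun i _ => Finset.sum_le_sum fun j _ => (sum_int _ (hR.z_ne (i, some (some j)))).2
  have h6 := (sum_int 2 two_ne_zero).2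
  have h7 : Real.log |((2 : ℤ) : ℝ)| = Real.log 2 := by norm_num
  rw [h7] at h6
  linarith

end Pool.Agent.Lib.MP_17a322_nt.FE
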