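import Pool.Agent.Lib.MP_17a322_nt.FE.Defs

namespace Pool.Agent.Lib.MP_17a322_nt.FE

open MvPolynomial Height NumberField

/-- JOB HS. PROOF: `logHeight_linearMap_apply_le` for the linear map `B ↦ (∑ B, B none)`: the height of the vector
`(x, 2 ^ e)` is at most `logHeight B + C_k`; and it is the height of `x / 2 ^ e`, at least `log |x| - e log 2`
(`Rat.logHeight₁_eq_log_max`). -/
theorem height_summand (k D : ℕ) : ∃ C : ℝ, ∀ (B : Option (Fin (k + 1)) → ℚ) (e : ℕ), e ≤ D → B none = 2 ^ e →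
    ∀ x : ℤ, x ≠ 0 → (x : ℚ) = ∑ τ, B τ → Real.log |(x : ℝ)| ≤ logHeight B + C := by
  classical
  refine ⟨Height.totalWeight ℚ * Real.log (Nat.card (Option (Fin (k + 1)))) +
    logHeight (fun a : Fin 2 × Option (Fin (k + 1)) => if a.1 = 0 then (1 : ℚ) else if a.2 = none then 1 else 0) +
    D * Real.log 2, fun B e he hB x hx hs => ?_⟩
  have h1 := Height.logHeight_linearMap_apply_le
    (fun a : Fin 2 × Option (Fin (k + 1)) => if a.1 = 0 then (1 : ℚ) else if a.2 = none then 1 else 0) B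
  have h2 : (fun j : Fin 2 => ∑ i : Option (Fin (k + 1)),
      (if (j, i).1 = 0 then (1 : ℚ) else if (j, i).2 = none then 1 else 0) * B i) = ![(x : ℚ), 2 ^ e] := by
    funext j
    fin_cases j
    · simp [hs]
    · simp [← hB]
  rw [h2, ← Height.logHeight₁_div_eq_logHeight, Rat.logHeight₁_eq_log_max] at h1
  set q : ℚ := (x : ℚ) / 2 ^ e with hq
  have h3 : (x : ℚ) = q * 2 ^ e := by
    rw [hq]
    field_simp
  have hx0 : (0 : ℝ) < |(x : ℝ)| := abs_pos.2 (by exact_mod_cast hx)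
  have h4 : (x : ℝ) = (q : ℝ) * 2 ^ e := by exact_mod_cast congrArg (fun t : ℚ => (t : ℝ)) h3
  have h5 : |(q : ℝ)| ≤ (q.num.natAbs : ℝ) := by
    have h6 : (q : ℝ) = (q.num : ℝ) / (q.den : ℝ) := by exact_mod_cast congrArg (fun t : ℚ => (t : ℝ)) (Rat.num_div_den q).symm
    have h7 : (1 : ℝ) ≤ q.den := by exact_mod_cast q.pos
    rw [h6, abs_div, abs_of_pos (show (0 : ℝ) < (q.den : ℝ) by linarith), Nat.cast_natAbs, Int.cast_abs]
    exact div_le_self (abs_nonneg _) h7
  have h6 : |(x : ℝ)| ≤ ((max q.num.natAbs q.den : ℕ) : ℝ) * 2 ^ D := by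
    rw [h4, abs_mul, abs_of_pos (show (0 : ℝ) < 2 ^ e by positivity)]
    refine mul_le_mul (h5.trans ?_) (pow_le_pow_right₀ (by norm_num) he) (by positivity) (by positivity)
    exact_mod_cast le_max_left _ _
  have h7 := Real.log_le_log hx0 h6
  have h8 : (0 : ℝ) < ((max q.num.natAbs q.den : ℕ) : ℝ) := by
    exact_mod_cast lt_of_lt_of_le q.pos (le_max_right _ _)
  rw [Real.log_mul h8.ne' (by positivity), Real.log_pow] at h7
  linarith

end Pool.Agent.Lib.MP_17a322_nt.FE
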