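import Pool.Agent.Lib.MP_17a322_nt.FE.Defs

namespace Pool.Agent.Lib.MP_17a322_nt.FE

open MvPolynomial Height NumberField

variable {α : Type} [Fintype α]

/-- The height of the new point. -/
theorem height_z {k D : ℕ} {C C' : ℝ} (hC : 0 ≤ C') (y : α → ℚ) (x : Option α → ℤ) (z : Var k α → ℤ)
    (hR : Rep k D C C' y x z) : logHeight (fun o : Option (Var k α) => o.elim 1 fun a => (z a : ℚ)) ≤
      logHeight (fun o : Option α => o.elim 1 y) / k + C' := by
  set w : Option (Var k α) → ℤ := fun o => o.elim 1 z with hw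
  have h1 : (fun o : Option (Var k α) => o.elim 1 fun a => (z a : ℚ)) = ((↑) : ℤ → ℚ) ∘ w := by
    funext o
    cases o with
    | none => simp [hw]
    | some a => simp [hw]
  have h2 : Finset.univ.gcd w = 1 := by
    rw [← Finset.normalize_gcd, normalize_eq_one]
    have h3 : Finset.univ.gcd w ∣ w none := Finset.gcd_dvd (Finset.mem_univ _)
    exact isUnit_of_dvd_one h3
  rw [h1, Rat.logHeight_eq_max_abs_of_gcd_eq_one h2]
  obtain ⟨i, hi⟩ := exists_eq_ciSup_of_finite (f := fun i => |w i|)
  rw [← hi]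
  cases i with
  | none =>
    have h4 : Real.log ((|w none| : ℤ) : ℝ) = 0 := by simp [hw]
    rw [h4]
    exact add_nonneg (div_nonneg (logHeight_nonneg _) (Nat.cast_nonneg k)) hC
  | some a =>
    have h4 : ((|w (some a)| : ℤ) : ℝ) = |(z a : ℝ)| := by simp [hw]
    rw [h4]
    exact hR.size a

end Pool.Agent.Lib.MP_17a322_nt.FE
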