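import Pool.Agent.Lib.MP_17a322_nt.FE.P2

/-!
The choice of the new point.
-/

namespace Pool.Agent.Lib.MP_17a322_nt.FE

open MvPolynomial Height NumberField

variable {α : Type} [Fintype α] [DecidableEq α]

/-- A nonzero vector of rational numbers is a multiple of a vector of coprime integers. -/
private theorem exists_prim {ι : Type*} [Fintype ι] [Nonempty ι] (w : ι → ℚ) (hw : w ≠ 0) :
    ∃ (c : ℚ) (y : ι → ℤ), c ≠ 0 ∧ (∀ i, w i = c * (y i : ℚ)) ∧ Finset.univ.gcd y = 1 := by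
  classical
  set m : ℚ := ∏ i, ((w i).den : ℚ) with hm
  have hm0 : m ≠ 0 := Finset.prod_ne_zero_iff.2 fun i _ => Nat.cast_ne_zero.2 (w i).den_nz
  let u : ι → ℤ := fun i => (w i).num * ∏ j ∈ Finset.univ.erase i, ((w j).den : ℤ)
  have hu : ∀ i, (u i : ℚ) = m * w i := by
    intro i
    simp only [u, hm]
    rw [Int.cast_mul, Int.cast_prod, ← Finset.mul_prod_erase Finset.univ _ (Finset.mem_univ i)]
    simp only [Int.cast_natCast]
    have h1 : ((w i).num : ℚ) = w i * (w i).den := (Rat.mul_den_eq_num (w i)).symm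
    rw [h1]
    ring
  obtain ⟨y, hy, hg⟩ := Finset.extract_gcd (s := Finset.univ) u Finset.univ_nonempty
  set g : ℤ := Finset.univ.gcd u with hgdef
  have hg0 : g ≠ 0 := by
    intro h
    apply hw
    funext i
    have h1 := hu i
    rw [hy i (Finset.mem_univ i), h, zero_mul, Int.cast_zero] at h1
    exact ((mul_eq_zero.1 h1.symm).resolve_left hm0)
  refine ⟨g / m, y, div_ne_zero (Int.cast_ne_zero.2 hg0) hm0, fun i => ?_, hg⟩
  have h1 := hu i
  rw [hy i (Finset.mem_univ i), Int.cast_mul] at h1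
  rw [div_mul_eq_mul_div, h1, mul_div_cancel_left₀ _ hm0]

/-- The coordinates of a vector of coprime integers are at most the height. -/
private theorem log_le_height {ι : Type*} [Fintype ι] [Nonempty ι] (x : ι → ℤ) (hg : Finset.univ.gcd x = 1) (i : ι)
    (hi : x i ≠ 0) : Real.log |(x i : ℝ)| ≤ logHeight (fun i => (x i : ℚ)) := by
  have h0 : (fun i => (x i : ℚ)) = ((↑) : ℤ → ℚ) ∘ x := rfl
  rw [h0, Rat.logHeight_eq_max_abs_of_gcd_eq_one hg]
  have h1 : |x i| ≤ ⨆ i, |x i| := Finite.le_ciSup_of_le i (le_refl _)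
  apply Real.log_le_log (abs_pos.2 (Int.cast_ne_zero.2 hi))
  rw [← Int.cast_abs]
  exact Int.cast_le.2 h1

/-- The choice of many new points. -/
theorem exists_reps (k : ℕ) (hk : 0 < k) (F : MvPolynomial (Var k α) ℚ) (hF : F ≠ 0) :
    ∃ (D : ℕ) (C : ℝ) (G : MvPolynomial α ℚ), 0 ≤ C ∧ G ≠ 0 ∧ ∀ y : α → ℚ, eval y G ≠ 0 → (∀ l, y l ≠ 0) →
      ∀ T : ℕ, 0 < T → ∃ (x : Option α → ℤ) (Z : Finset (Var k α → ℤ)), T ^ (k * Fintype.card (Option α)) ≤ Z.card ∧
        ∀ z ∈ Z, Rep k D (C + (k + 1) * Real.log T) (C + Real.log T) y x z ∧ eval (fun a => (z a : ℚ)) F ≠ 0 := by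
  classical
  set F₁ : MvPolynomial (Var k α) ℚ := F * ∏ a, X a with hF₁
  have hF₁0 : F₁ ≠ 0 := mul_ne_zero hF (Finset.prod_ne_zero_iff.2 fun a _ => X_ne_zero a)
  have hXX : (XX k (none : Option α) : MvPolynomial (Var k α) ℚ) ≠ 0 := by
    intro h
    have h1 := congrArg (eval (mk (fun _ : Option α => (0 : ℚ)) (fun _ => 1) (fun _ _ => 0))) h
    rw [eval_mk, map_zero] at h1
    simp at h1
  obtain ⟨z₀, hz₀⟩ : ∃ z₀ : Var k α → ℚ, eval z₀ (F₁ * XX k none) ≠ 0 := by
    by_contra hcon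
    push Not at hcon
    apply mul_ne_zero hF₁0 hXX
    apply MvPolynomial.funext
    intro z
    rw [hcon z, map_zero]
  rw [map_mul, mul_ne_zero_iff] at hz₀
  obtain ⟨hz1, hz2⟩ := hz₀
  set u₀ : Option α → ℚ := fun i => z₀ (i, none) with hu₀
  set c₀ : Option α → ℚ := fun i => z₀ (i, some none) with hc₀
  set w₀ : Option α → Fin (k + 1) → ℚ := fun i j => z₀ (i, some (some j)) with hw₀
  have hz₀ : mk u₀ c₀ w₀ = z₀ := by
    funext a
    obtain ⟨i, b⟩ := a
    cases b with
    | none => rfl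
    | some b =>
      cases b with
      | none => rfl
      | some j => rfl
  set x₀ : Option α → ℚ := fun i => eval z₀ (XX k i) with hx₀
  have hx₀' : ∀ i, c₀ i + ∑ j, w₀ i j * u₀ i ^ (j : ℕ) = x₀ i := by
    intro i
    change _ = eval z₀ (XX k i)
    rw [← hz₀, eval_mk]
  set l₀ : ℚ := x₀ none with hl₀
  set N : ℕ := F₁.totalDegree * (k + 1) with hN
  set M : ℕ := F₁.totalDegree with hM
  set f : Var k α → MvPolynomial α ℚ := mk (fun i => C (u₀ i)) (fun i => C (c₀ i))
    fun i => cpl (C l₀ * i.elim 1 X) (C (u₀ i)) (C (c₀ i)) fun j => C (w₀ i j) with hf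
  have hf2 : ∀ y : α → ℚ, (fun v => eval y (f v)) = mk u₀ c₀ fun i => cpl (l₀ * i.elim 1 y) (u₀ i) (c₀ i) (w₀ i) := by
    intro y
    funext v
    rw [hf, map_mk (fun q => eval y q)]
    simp only [eval_C]
    have h1 : ∀ (i : Option α) (j : Fin (k + 1)), eval y (cpl (C l₀ * i.elim 1 X) (C (u₀ i)) (C (c₀ i))
        (fun j => C (w₀ i j)) j) = cpl (l₀ * i.elim 1 y) (u₀ i) (c₀ i) (w₀ i) j := by
      intro i j
      rw [map_cpl (eval y)]
      simp only [map_mul, eval_C]
      cases i with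
      | none => simp
      | some i => simp
    simp only [h1]
  set C₁ : ℝ := k * (N * Real.log 2) + k * Real.log (2 * M + 3) + Real.log (2 ^ (N + 1 + k) + (M + 1)) with hC₁
  have hlog2 : 0 ≤ Real.log 2 := Real.log_nonneg (by norm_num)
  have hM0 : (0 : ℝ) ≤ M := Nat.cast_nonneg M
  have hlM : 0 ≤ Real.log (2 * (M : ℝ) + 3) := Real.log_nonneg (by linarith)
  have hlA : 0 ≤ Real.log ((2 : ℝ) ^ (N + 1 + k) + (M + 1)) := by
    apply Real.log_nonneg
    have h1 : (1 : ℝ) ≤ 2 ^ (N + 1 + k) := one_le_pow₀ (by norm_num)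
    linarith
  have hN2 : 0 ≤ (N : ℝ) * Real.log 2 := mul_nonneg (Nat.cast_nonneg N) hlog2
  have hk1 : (1 : ℝ) ≤ k := by exact_mod_cast hk
  have hC1 : (N : ℝ) * Real.log 2 + Real.log (2 * M + 3) + Real.log (2 ^ (N + 1 + k) + (M + 1)) ≤ C₁ := by
    rw [hC₁]
    have h1 : (N : ℝ) * Real.log 2 ≤ k * (N * Real.log 2) := le_mul_of_one_le_left hN2 hk1
    have h2 : Real.log (2 * (M : ℝ) + 3) ≤ k * Real.log (2 * M + 3) := le_mul_of_one_le_left hlM hk1
    linarith
  refine ⟨N, C₁, aeval f F₁, by linarith, ?_, fun y hy hy0 T hT => ?_⟩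
  · intro h
    apply hz1
    have h1 : eval (fun i => x₀ (some i) / l₀) (aeval f F₁) = eval z₀ F₁ := by
      rw [eval_aeval, hf2]
      have h2 : (fun i : Option α => cpl (l₀ * i.elim 1 fun i => x₀ (some i) / l₀) (u₀ i) (c₀ i) (w₀ i)) = w₀ := by
        funext i
        apply cpl_self
        rw [hx₀']
        cases i with
        | none =>
          change l₀ = l₀ * 1
          rw [mul_one]
        | some i =>
          change x₀ (some i) = l₀ * (x₀ (some i) / l₀)
          rw [mul_div_cancel₀ _ hz2]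
      rw [h2, hz₀]
    rw [← h1, h, map_zero]
  obtain ⟨c, m, hc, hm, hg⟩ := exists_prim (fun o : Option α => o.elim 1 y) (fun h => by
    have := congrFun h none
    simp at this)
  have hm0 : ∀ i, m i ≠ 0 := by
    intro i h
    have h1 := hm i
    rw [h, Int.cast_zero, mul_zero] at h1
    cases i with
    | none => exact one_ne_zero h1
    | some i => exact hy0 i h1
  have hy' : eval (mk u₀ c₀ fun i => cpl ((m i : ℚ) * (l₀ * c)) (u₀ i) (c₀ i) (w₀ i)) F₁ ≠ 0 := by
    rw [eval_aeval, hf2] at hy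
    have h1 : (fun i : Option α => cpl ((m i : ℚ) * (l₀ * c)) (u₀ i) (c₀ i) (w₀ i)) =
        fun i : Option α => cpl (l₀ * i.elim 1 y) (u₀ i) (c₀ i) (w₀ i) := by
      funext i
      have h2 : i.elim 1 y = c * (m i : ℚ) := hm i
      rw [h2]
      congr 1
      ring
    rw [h1]
    exact hy
  obtain ⟨t, s, r, ht, hs, hr, h1⟩ := choice_one F₁ w₀ (fun i => (m i : ℚ)) (l₀ * c) u₀ c₀
    (fun i => Nat.log 2 (m i).natAbs / k) hy'
  set u : Option α → ℤ := fun i => 2 ^ (Nat.log 2 (m i).natAbs / k + s i) with hu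
  set cc : Option α → ℤ := fun i => 2 ^ r i with hcc
  set x : Option α → ℤ := fun i => m i * 2 ^ t with hx
  have hu0 : ∀ i, 0 < u i := fun i => pow_pos (by norm_num) _
  have hcc0 : ∀ i, 0 < cc i := fun i => pow_pos (by norm_num) _
  have h2 : eval (mk (fun i => (u i : ℚ)) (fun i => (cc i : ℚ)) fun i => cpl (x i : ℚ) (u i : ℚ) (cc i : ℚ) (w₀ i)) F₁
      ≠ 0 := by
    simp only [hu, hcc, hx]
    push_cast
    exact h1
  have hTR : (1 : ℝ) ≤ T := by exact_mod_cast hT
  have hlT : 0 ≤ Real.log (T : ℝ) := Real.log_nonneg hTR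
  choose τ hτ h3 using fun β : Option α → Fin k → Fin T =>
    choice_two F₁ w₀ u cc x hu0 h2 fun i l => (β i l : ℕ) * (M + 1)
  have hτ' : ∀ β i l, τ β i l ≤ (M + 1) * T := by
    intro β i l
    have h4 := (hτ β i l).2
    have h5 : ((β i l : ℕ) + 1) * (M + 1) ≤ T * (M + 1) := Nat.mul_le_mul_right _ (β i l).2
    have h6 : ((β i l : ℕ) + 1) * (M + 1) = (β i l : ℕ) * (M + 1) + M + 1 := by ring
    have h7 : T * (M + 1) = (M + 1) * T := mul_comm _ _
    omega
  have hinj : Function.Injective fun β : Option α → Fin k → Fin T =>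
      (mk u cc (fun i => dg k (u i) (x i - cc i) (τ β i)) : Var k α → ℤ) := by
    intro β β' hβ
    funext i l
    have h4 : τ β i = τ β' i := by
      apply dg_inj k (u i) (x i - cc i) (hu0 i)
      funext j
      exact congrFun hβ (i, some (some j))
    have h5 := hτ β i l
    have h6 := hτ β' i l
    rw [← h4] at h6
    apply Fin.ext
    rcases Nat.lt_trichotomy (β i l : ℕ) (β' i l : ℕ) with h7 | h7 | h7
    · have h8 : ((β i l : ℕ) + 1) * (M + 1) ≤ (β' i l : ℕ) * (M + 1) := Nat.mul_le_mul_right _ h7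
      have h9 : ((β i l : ℕ) + 1) * (M + 1) = (β i l : ℕ) * (M + 1) + M + 1 := by ring
      omega
    · exact h7
    · have h8 : ((β' i l : ℕ) + 1) * (M + 1) ≤ (β i l : ℕ) * (M + 1) := Nat.mul_le_mul_right _ h7
      have h9 : ((β' i l : ℕ) + 1) * (M + 1) = (β' i l : ℕ) * (M + 1) + M + 1 := by ring
      omega
  refine ⟨x, Finset.univ.image fun β : Option α → Fin k → Fin T =>
      (mk u cc (fun i => dg k (u i) (x i - cc i) (τ β i)) : Var k α → ℤ), ?_, ?_⟩
  · rw [Finset.card_image_of_injective _ hinj, Finset.card_univ, Fintype.card_fun, Fintype.card_fun, Fintype.card_fin,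
      Fintype.card_fin, ← pow_mul]
  intro z' hz'
  obtain ⟨β, -, rfl⟩ := Finset.mem_image.1 hz'
  replace h3 := h3 β
  set z : Var k α → ℤ := mk u cc (fun i => dg k (u i) (x i - cc i) (τ β i)) with hz
  rw [hF₁, map_mul, mul_ne_zero_iff, map_prod, Finset.prod_ne_zero_iff] at h3
  obtain ⟨h4, h5⟩ := h3
  have hz0 : ∀ a, z a ≠ 0 := by
    intro a h
    have := h5 a (Finset.mem_univ a)
    rw [eval_X, h, Int.cast_zero] at this
    exact this rfl
  have hx0 : ∀ i, x i ≠ 0 := fun i => mul_ne_zero (hm0 i) (pow_ne_zero _ (by norm_num))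
  have hh : ∀ i, Real.log |(m i : ℝ)| ≤ logHeight (fun o : Option α => o.elim 1 y) := by
    intro i
    have h6 : (fun o : Option α => o.elim 1 y) = c • fun i => (m i : ℚ) := by
      funext o
      rw [Pi.smul_apply, smul_eq_mul]
      exact hm o
    rw [h6, logHeight_smul_eq_logHeight _ hc]
    exact log_le_height m hg i (hm0 i)
  have hk' : (0 : ℝ) < k := Nat.cast_pos.2 hk
  have hbase : ∀ i, Real.log |(u i : ℝ)| ≤ Real.log |(m i : ℝ)| / k + N * Real.log 2 := by
    intro i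
    have h6 : Real.log |(u i : ℝ)| = ((Nat.log 2 (m i).natAbs / k : ℕ) : ℝ) * Real.log 2 + s i * Real.log 2 := by
      simp only [hu]
      push_cast
      rw [abs_of_pos (pow_pos (by norm_num) _), Real.log_pow]
      push_cast
      ring
    have h7 : (s i : ℝ) * Real.log 2 ≤ N * Real.log 2 := mul_le_mul_of_nonneg_right (Nat.cast_le.2 (hs i)) hlog2
    have h8 := log_base k hk (m i) (hm0 i)
    linarith
  have hdig1 : ∀ i (j : Fin k), Real.log |(z (i, some (some j.castSucc)) : ℝ)| ≤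
      Real.log |(u i : ℝ)| + Real.log T + Real.log (2 * M + 3) := by
    intro i j
    have h6 : |z (i, some (some j.castSucc))| ≤ u i * (1 + 2 * ((M + 1) * T : ℕ)) :=
      abs_dg_lt k ((M + 1) * T) (u i) (x i - cc i) (hu0 i) (τ β i) (hτ' β i) j
    have h7 : |(z (i, some (some j.castSucc)) : ℝ)| ≤ |(u i : ℝ)| * T * (2 * M + 3) := by
      rw [← Int.cast_abs, abs_of_pos (Int.cast_pos.2 (hu0 i))]
      have h8 : ((|z (i, some (some j.castSucc))| : ℤ) : ℝ) ≤ ((u i * (1 + 2 * ((M + 1) * T : ℕ)) : ℤ) : ℝ) :=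
        Int.cast_le.2 h6
      push_cast at h8 ⊢
      refine h8.trans ?_
      have h9 : (0 : ℝ) ≤ u i := Int.cast_nonneg (hu0 i).le
      have h10 : (1 : ℝ) + 2 * ((M + 1) * T) ≤ T * (2 * M + 3) := by nlinarith
      calc (u i : ℝ) * (1 + 2 * ((M + 1) * T)) ≤ u i * (T * (2 * M + 3)) := mul_le_mul_of_nonneg_left h10 h9
        _ = _ := by ring
    have h9 : (u i : ℝ) ≠ 0 := Int.cast_ne_zero.2 (hu0 i).ne'
    have h10 : (2 : ℝ) * M + 3 ≠ 0 := by positivity
    have h11 : (T : ℝ) ≠ 0 := by positivity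
    rw [← Real.log_mul (abs_ne_zero.2 h9) h11, ← Real.log_mul (mul_ne_zero (abs_ne_zero.2 h9) h11) h10]
    exact Real.log_le_log (abs_pos.2 (Int.cast_ne_zero.2 (hz0 _))) h7
  have hdig2 : ∀ i, Real.log |(z (i, some (some (Fin.last k))) : ℝ)| ≤
      Real.log T + Real.log (2 ^ (N + 1 + k) + (M + 1)) := by
    intro i
    have h6 : |z (i, some (some (Fin.last k)))| ≤ 2 ^ (N + 1 + k) + ((M + 1) * T : ℕ) :=
      abs_dg_last k ((M + 1) * T) (u i) (x i - cc i) (2 ^ (N + 1 + k)) (hu0 i)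
        (abs_le_base k hk N (m i) (hm0 i) t (s i) (r i) ht (hr i)) (τ β i) (hτ' β i)
    have h7 : |(z (i, some (some (Fin.last k))) : ℝ)| ≤ T * (2 ^ (N + 1 + k) + (M + 1)) := by
      rw [← Int.cast_abs]
      have h8 : ((|z (i, some (some (Fin.last k)))| : ℤ) : ℝ) ≤ ((2 ^ (N + 1 + k) + ((M + 1) * T : ℕ) : ℤ) : ℝ) :=
        Int.cast_le.2 h6
      push_cast at h8 ⊢
      refine h8.trans ?_
      have h9 : (0 : ℝ) < 2 ^ (N + 1 + k) := by positivity
      nlinarith
    have h11 : (T : ℝ) ≠ 0 := by positivity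
    have h12 : (2 : ℝ) ^ (N + 1 + k) + (M + 1) ≠ 0 := by positivity
    rw [← Real.log_mul h11 h12]
    exact Real.log_le_log (abs_pos.2 (Int.cast_ne_zero.2 (hz0 _))) h7
  refine ⟨⟨hx0, ?_, ?_, ?_, hz0, fun i => ⟨_, rfl⟩, fun i => ⟨r i, hr i, rfl⟩, ?_, ?_⟩, h4⟩
  · intro l
    have h6 := hm (some l)
    have h7 := hm none
    simp only [Option.elim_some, Option.elim_none] at h6 h7
    have h8 : (m none : ℚ) ≠ 0 := Int.cast_ne_zero.2 (hm0 none)
    have h9 : ((x none : ℤ) : ℚ) ≠ 0 := Int.cast_ne_zero.2 (hx0 none)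
    rw [eq_div_iff h9]
    simp only [hx]
    push_cast
    rw [h6]
    linear_combination (-(m (some l) : ℚ) * 2 ^ t) * h7
  · intro p hp hp2
    by_contra hcon
    push Not at hcon
    have h6 : ∀ i, (p : ℤ) ∣ m i := by
      intro i
      have h7 := hcon i
      rcases (Nat.prime_iff_prime_int.1 hp).dvd_or_dvd h7 with h8 | h8
      · exact h8
      · exfalso
        have h9 := (Nat.prime_iff_prime_int.1 hp).dvd_of_dvd_pow h8
        have h10 : p ∣ 2 := by exact_mod_cast h9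
        exact hp2 ((Nat.prime_dvd_prime_iff_eq hp Nat.prime_two).1 h10)
    have h7 : (p : ℤ) ∣ Finset.univ.gcd m := Finset.dvd_gcd fun i _ => h6 i
    rw [hg] at h7
    exact hp.one_lt.ne' (by exact_mod_cast Int.eq_one_of_dvd_one (Int.natCast_nonneg p) h7)
  · intro i
    have h6 : (fun a => (z a : ℚ)) =
        mk (fun i => (u i : ℚ)) (fun i => (cc i : ℚ)) (fun i j => (dg k (u i) (x i - cc i) (τ β i) j : ℚ)) := by
      funext a
      rw [hz, map_mk (fun n : ℤ => (n : ℚ))]
    rw [h6, eval_mk]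
    have h7 := sum_dg k (u i) (x i - cc i) (hu0 i) (τ β i)
    have h8 : ((∑ j, dg k (u i) (x i - cc i) (τ β i) j * (u i) ^ (j : ℕ) : ℤ) : ℚ) = ((x i - cc i : ℤ) : ℚ) := by
      rw [h7]
    push_cast at h8
    rw [h8]
    ring
  · intro i
    rw [Fin.sum_univ_castSucc]
    have h6 : ∑ j : Fin k, Real.log |(z (i, some (some j.castSucc)) : ℝ)| ≤
        k * (Real.log |(u i : ℝ)| + Real.log T + Real.log (2 * M + 3)) := by
      refine (Finset.sum_le_sum fun j _ => hdig1 i j).trans (le_of_eq ?_)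
      rw [Finset.sum_const, Finset.card_univ, Fintype.card_fin, nsmul_eq_mul]
    have h7 : (k : ℝ) * Real.log |(u i : ℝ)| ≤ Real.log |(m i : ℝ)| + k * (N * Real.log 2) := by
      have h8 := mul_le_mul_of_nonneg_left (hbase i) hk'.le
      rwa [mul_add, mul_div_cancel₀ _ hk'.ne'] at h8
    have h9 : Real.log |(m i : ℝ)| ≤ Real.log |(x i : ℝ)| := by
      apply Real.log_le_log (abs_pos.2 (Int.cast_ne_zero.2 (hm0 i)))
      simp only [hx]
      push_cast
      rw [abs_mul, abs_of_pos (pow_pos (by norm_num : (0 : ℝ) < 2) t)]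
      exact le_mul_of_one_le_right (abs_nonneg _) (one_le_pow₀ (by norm_num))
    have h10 := hdig2 i
    rw [hC₁]
    linarith
  · rintro ⟨i, b⟩
    have hh' : Real.log |(m i : ℝ)| / k ≤ logHeight (fun o : Option α => o.elim 1 y) / k :=
      div_le_div_of_nonneg_right (hh i) hk'.le
    have hh0 : 0 ≤ logHeight (fun o : Option α => o.elim 1 y) / (k : ℝ) := div_nonneg (logHeight_nonneg _) hk'.le
    have hb := hbase i
    cases b with
    | none =>
      change Real.log |(u i : ℝ)| ≤ _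
      linarith
    | some b =>
      cases b with
      | none =>
        change Real.log |(cc i : ℝ)| ≤ _
        have h6 : Real.log |(cc i : ℝ)| = r i * Real.log 2 := by
          simp only [hcc]
          push_cast
          rw [abs_of_pos (pow_pos (by norm_num) _), Real.log_pow]
        have h7 : (r i : ℝ) * Real.log 2 ≤ N * Real.log 2 := mul_le_mul_of_nonneg_right (Nat.cast_le.2 (hr i)) hlog2
        linarith
      | some j =>
        refine Fin.lastCases ?_ (fun l => ?_) j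
        · have h6 := hdig2 i
          linarith
        · have h6 := hdig1 i l
          linarith

end Pool.Agent.Lib.MP_17a322_nt.FE
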