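import Pool.Agent.Lib.MP_17a322_nt.FE.Loc
import Pool.Agent.Lib.MP_17a322_nt.FE.Hs
import Pool.Agent.Lib.MP_17a322_nt.FE.Bad
import Pool.Agent.Lib.MP_17a322_nt.FE.Hz
import Pool.Agent.Lib.MP_17a322_nt.FE.Point

namespace Pool.Agent.Lib.MP_17a322_nt.FE

open MvPolynomial Height NumberField
open Pool.Agent.Lib.MP_17a322_nt.GQ (vec)

variable {α : Type} [Fintype α] [DecidableEq α]

/-- The multiplicity `T`. -/
private theorem exists_mult {k m : ℕ} (hk : 0 < k) (hm : 0 < m) {b C₁ C₂ h : ℝ} (hb : 0 ≤ b) (hbk : 2 * b ≤ k * m)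
    (hC₂ : 0 ≤ C₂) (hh : 0 ≤ h) : ∃ T : ℕ, 0 < T ∧
      Real.log (|C₁| + 1) + b * (h / k + C₂ + Real.log T) < k * m * Real.log T ∧
      Real.log T ≤ Real.log 3 + 2 / (k * m) * (Real.log (|C₁| + 1) + b * C₂) + 2 * b / (k ^ 2 * m) * h := by
  have hk' : (0 : ℝ) < k := Nat.cast_pos.2 hk
  have hm' : (0 : ℝ) < m := Nat.cast_pos.2 hm
  obtain ⟨E, hE⟩ : ∃ E : ℝ, E = Real.log (|C₁| + 1) + b * C₂ := ⟨_, rfl⟩
  have hE0 : 0 ≤ E := by
    rw [hE]
    have h1 : 0 ≤ Real.log (|C₁| + 1) := Real.log_nonneg (by linarith [abs_nonneg C₁])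
    have h2 := mul_nonneg hb hC₂
    linarith
  obtain ⟨Y, hY⟩ : ∃ Y : ℝ, Y = 2 / (k * m) * E + 2 * b / (k ^ 2 * m) * h := ⟨_, rfl⟩
  have hY0 : 0 ≤ Y := by
    rw [hY]
    positivity
  have hYe : k * m * Y / 2 = E + b * (h / k) := by
    rw [hY]
    field_simp
  have hT1 : Real.exp Y < ((⌈Real.exp Y⌉₊ + 1 : ℕ) : ℝ) := by
    push_cast
    have := Nat.le_ceil (Real.exp Y)
    linarith
  have hT2 : ((⌈Real.exp Y⌉₊ + 1 : ℕ) : ℝ) ≤ 3 * Real.exp Y := by
    push_cast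
    have h1 := Nat.ceil_lt_add_one (Real.exp_nonneg Y)
    have h2 : 1 ≤ Real.exp Y := Real.one_le_exp hY0
    linarith
  obtain ⟨T, hT⟩ : ∃ T : ℕ, T = ⌈Real.exp Y⌉₊ + 1 := ⟨_, rfl⟩
  rw [← hT] at hT1 hT2
  have hTpos : (0 : ℝ) < T := (Real.exp_pos Y).trans hT1
  have hlT : Y < Real.log T := by
    rw [Real.lt_log_iff_exp_lt hTpos]
    exact hT1
  have hlT0 : 0 < Real.log T := lt_of_le_of_lt hY0 hlT
  refine ⟨T, Nat.cast_pos.1 hTpos, ?_, ?_⟩
  · have h1 : k * m * Real.log T = k * m * Real.log T / 2 + k * m * Real.log T / 2 := by ring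
    have h2 : k * m * Y / 2 < k * m * Real.log T / 2 := by
      have := mul_lt_mul_of_pos_left hlT (mul_pos hk' hm')
      linarith
    have h3 : b * Real.log T ≤ k * m * Real.log T / 2 := by
      have := mul_le_mul_of_nonneg_right hbk hlT0.le
      linarith
    rw [h1]
    have h4 : Real.log (|C₁| + 1) + b * (h / k + C₂ + Real.log T) = (E + b * (h / k)) + b * Real.log T := by
      rw [hE]
      ring
    rw [h4, ← hYe]
    linarith
  · have h1 := Real.log_le_log hTpos hT2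
    rw [Real.log_mul (by norm_num) (Real.exp_pos Y).ne', Real.log_exp, hY, hE] at h1
    linarith

/-- The error term is divided by `k`. Few exceptions do no harm. -/
theorem ineqC_of_dig {P : Finset (MvPolynomial α ℚ)} (hP : ∀ p ∈ P, p ≠ 0) (hX : ∀ l, (X l : MvPolynomial α ℚ) ∈ P)
    {d : ℕ} (hd : 1 ≤ d) (hdeg : ∀ p ∈ P, p.totalDegree ≤ d) {k : ℕ} (hk : 0 < k)
    {Q : Finset (MvPolynomial (Var k α) ℚ)} (hQ : IsDig k d P Q) {c b : ℝ} (hc : 0 ≤ c) (hb : 0 ≤ b)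
    (hbk : 2 * b ≤ k * (Fintype.card (Option α) : ℕ)) (h : IneqX Q c b) :
    IneqC P (c / k + ((k + 1) * (Fintype.card (Option α) : ℕ) + c) *
      (2 * b / (k ^ 2 * (Fintype.card (Option α) : ℕ)))) := by
  classical
  obtain ⟨G₁, C₁, hG₁, h₁⟩ := h
  obtain ⟨D, C₂, G₂, hC₂, hG₂, h₂⟩ := exists_reps k hk G₁ hG₁
  obtain ⟨C₃, h₃⟩ := height_summand k D
  obtain ⟨m, hm⟩ : ∃ m : ℕ, m = Fintype.card (Option α) := ⟨_, rfl⟩
  rw [← hm] at hbk ⊢
  have hm0 : 0 < m := by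
    rw [hm]
    exact Fintype.card_pos
  have hk' : (0 : ℝ) < k := Nat.cast_pos.2 hk
  have hm' : (0 : ℝ) < m := Nat.cast_pos.2 hm0
  obtain ⟨W, hW⟩ : ∃ W : ℝ, W = Real.log 3 + 2 / (k * m) * (Real.log (|C₁| + 1) + b * C₂) := ⟨_, rfl⟩
  refine ⟨G₂ * ∏ p ∈ P, p, C₁ + c * C₂ + Real.log 2 + m * (C₂ + C₃) + ((k + 1) * m + c) * W,
    mul_ne_zero hG₂ (Finset.prod_ne_zero_iff.2 hP), fun y hy => ?_⟩
  rw [map_mul, mul_ne_zero_iff, map_prod, Finset.prod_ne_zero_iff] at hy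
  obtain ⟨hy1, hy2⟩ := hy
  refine ⟨hy2, ?_⟩
  have hyl : ∀ l, y l ≠ 0 := fun l => by
    have := hy2 _ (hX l)
    rwa [eval_X] at this
  obtain ⟨L, hL⟩ : ∃ L : ℝ, L = logHeight (fun o : Option α => o.elim 1 y) := ⟨_, rfl⟩
  have hL0 : 0 ≤ L := by
    rw [hL]
    exact logHeight_nonneg _
  obtain ⟨T, hT, hT1, hT2⟩ := exists_mult (C₁ := C₁) hk hm0 hb hbk hC₂ hL0
  have hTR : (1 : ℝ) ≤ T := by exact_mod_cast hT
  have hlT : 0 ≤ Real.log (T : ℝ) := Real.log_nonneg hTR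
  obtain ⟨x, Z, hZ, hZ'⟩ := h₂ y hy1 hyl T hT
  rw [← hm] at hZ
  -- a point which is not an exception
  obtain ⟨R, hR⟩ : ∃ R : ℝ, R = L / k + C₂ + Real.log T := ⟨_, rfl⟩
  have hR0 : 0 ≤ R := by
    rw [hR]
    positivity
  obtain ⟨S, hS, hS'⟩ := h₁ (Real.exp R) (Real.one_le_exp hR0)
  obtain ⟨z, hzZ, hzS⟩ : ∃ z ∈ Z, (fun a => (z a : ℚ)) ∉ S := by
    by_contra hcon
    push Not at hcon
    have hinj : Function.Injective fun (z : Var k α → ℤ) (a : Var k α) => (z a : ℚ) := by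
      intro z z' hzz
      funext a
      exact Int.cast_injective (congrFun hzz a)
    have h4 : (Z.image fun (z : Var k α → ℤ) (a : Var k α) => (z a : ℚ)) ⊆ S := by
      intro v hv
      obtain ⟨z, hz, rfl⟩ := Finset.mem_image.1 hv
      exact hcon z hz
    have h5 := Finset.card_le_card h4
    rw [Finset.card_image_of_injective _ hinj] at h5
    have h6 : ((T ^ (k * m) : ℕ) : ℝ) ≤ (|C₁| + 1) * Real.exp (b * R) := by
      calc ((T ^ (k * m) : ℕ) : ℝ) ≤ (S.card : ℝ) := Nat.cast_le.2 (hZ.trans h5)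
        _ ≤ C₁ * Real.exp R ^ b := hS
        _ ≤ (|C₁| + 1) * Real.exp R ^ b := by
          refine mul_le_mul_of_nonneg_right ?_ (by positivity)
          linarith [le_abs_self C₁]
        _ = _ := by rw [← Real.exp_mul, mul_comm R b]
    have h7 : (0 : ℝ) < ((T ^ (k * m) : ℕ) : ℝ) := by
      have : 0 < T ^ (k * m) := pow_pos hT _
      exact_mod_cast this
    have h8 := Real.log_le_log h7 h6
    rw [Real.log_mul (by positivity) (Real.exp_pos _).ne', Real.log_exp] at h8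
    push_cast at h8
    rw [Real.log_pow] at h8
    push_cast at h8
    rw [hR] at h8
    linarith
  obtain ⟨hRep, hz⟩ := hZ' z hzZ
  have hC2' : 0 ≤ C₂ + Real.log T := by linarith
  have h7 := height_z hC2' y x z hRep
  have h7' : logHeight (fun o : Option (Var k α) => o.elim 1 fun a => (z a : ℚ)) ≤ Real.log (Real.exp R) := by
    rw [Real.log_exp, hR, hL]
    linarith
  obtain ⟨-, h4⟩ := hS' _ hz h7' hzS
  have hz0 : ∀ a, ((z a : ℤ) : ℚ) ≠ 0 := fun a => Int.cast_ne_zero.2 (hRep.z_ne a)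
  have hx0 : ((x none : ℤ) : ℚ) ≠ 0 := Int.cast_ne_zero.2 (hRep.x_ne none)
  have hvec : vec P y ≠ 0 := by
    intro h0
    have h5 := congrFun h0 fun l => ⟨X l, hX l⟩
    have h6 : vec P y (fun l => ⟨X l, hX l⟩) = ∏ l, (y l)⁻¹ := by
      have h7 : (Matrix.of fun k l : α => eval y (pderiv l (X k : MvPolynomial α ℚ)) / eval y (X k)) =
          Matrix.diagonal fun l => (y l)⁻¹ := by
        ext i j
        rw [Matrix.of_apply, eval_X]
        by_cases hij : i = j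
        · subst hij
          rw [pderiv_X_self, map_one, Matrix.diagonal_apply_eq, one_div]
        · rw [pderiv_X_of_ne hij, map_zero, zero_div, Matrix.diagonal_apply_ne _ hij]
      change (Matrix.of fun k l : α => eval y (pderiv l (X k : MvPolynomial α ℚ)) / eval y (X k)).det = _
      rw [h7, Matrix.det_diagonal]
    rw [h6] at h5
    exact Finset.prod_ne_zero_iff.2 (fun l _ => inv_ne_zero (hyl l)) h5
  have h5 := height_vec hQ hdeg hd (fun a => (z a : ℚ)) hz0 (fun i => (x i : ℚ)) hRep.val hx0 y hRep.y_eq hy2 hvec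
  have h6 := bad_le hQ hdeg hX y hy2 x z hRep
  have h8 : ∀ i, Real.log |(x i : ℝ)| - C₃ ≤ logHeight (summand k (fun a => (z a : ℚ)) i) := by
    intro i
    obtain ⟨e, he, he'⟩ := hRep.cst i
    have h9 := h₃ (summand k (fun a => (z a : ℚ)) i) e he (by
      change ((z (i, some none) : ℤ) : ℚ) = 2 ^ e
      rw [he']
      push_cast
      rfl) (x i) (hRep.x_ne i) (by rw [← eval_XX, hRep.val])
    linarith
  have h9 : ∑ i, (Real.log |(x i : ℝ)| - C₃) ≤ ∑ i, logHeight (summand k (fun a => (z a : ℚ)) i) :=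
    Finset.sum_le_sum fun i _ => h8 i
  have h10 : ∑ i, ∑ j : Fin (k + 1), Real.log |(z (i, some (some j)) : ℝ)| ≤
      ∑ i, (Real.log |(x i : ℝ)| + (C₂ + (k + 1) * Real.log T)) :=
    Finset.sum_le_sum fun i _ => hRep.cost i
  rw [Finset.sum_sub_distrib, Finset.sum_const, Finset.card_univ, nsmul_eq_mul, ← hm] at h9
  rw [Finset.sum_add_distrib, Finset.sum_const, Finset.card_univ, nsmul_eq_mul, ← hm] at h10
  have h11 := mul_le_mul_of_nonneg_left h7 hc
  rw [← hL] at h11 ⊢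
  have h12 : ((k + 1) * m + c) * Real.log T ≤ ((k + 1) * m + c) * (W + 2 * b / (k ^ 2 * m) * L) := by
    refine mul_le_mul_of_nonneg_left ?_ (by positivity)
    rw [hW]
    exact hT2
  have h13 : (m : ℝ) * (C₂ + (k + 1) * Real.log T) + c * (L / k + (C₂ + Real.log T)) =
      m * C₂ + c * C₂ + c / k * L + ((k + 1) * m + c) * Real.log T := by ring
  have h14 : (c / k + ((k + 1) * m + c) * (2 * b / (k ^ 2 * m))) * L =
      c / k * L + ((k + 1) * m + c) * (2 * b / (k ^ 2 * m) * L) := by ring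
  have h15 : (m : ℝ) * (C₂ + C₃) = m * C₂ + m * C₃ := by ring
  rw [h14, h15]
  rw [mul_add ((k + 1) * (m : ℝ) + c)] at h12
  linarith

end Pool.Agent.Lib.MP_17a322_nt.FE
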