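import Pool.Agent.Lib.MP_17a322_nt.FE.A1
import Pool.Agent.Lib.MP_17a322_nt.FE.Main
import Pool.Agent.Lib.MP_17a322_nt.FE.Ext

/-!
The abc inequality for forms with the error term `o(n) h(w)` implies the one for polynomials with every `ε`.
-/

namespace Pool.Agent.Lib.MP_17a322_nt.FE

open MvPolynomial Height NumberField
open Pool.Agent.Lib.MP_17a322_nt.GQ (vec Ineq PolyABC)

variable {α : Type} [Fintype α] [DecidableEq α]

/-- A point with given values of the `XX i`. -/
private def Asy_pt (k : ℕ) (x : Option α → ℚ) : Var k α → ℚ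
  | (i, some none) => x i
  | _ => 0

private theorem Asy_XX (k : ℕ) (x : Option α → ℚ) (i : Option α) : eval (Asy_pt k x) (XX k i) = x i := by
  rw [eval_XX, Fintype.sum_option]
  have h : ∀ j : Fin (k + 1), summand k (Asy_pt k x) i (some j) = 0 := by
    intro j
    change (0 : ℚ) * _ = 0
    rw [zero_mul]
  rw [Finset.sum_congr rfl fun j _ => h j, Finset.sum_const_zero, add_zero]
  rfl

private theorem Asy_deg_XX (k : ℕ) (i : Option α) : (XX k i).totalDegree ≤ k + 1 := by
  unfold XX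
  refine (totalDegree_add _ _).trans (max_le ?_ ?_)
  · rw [totalDegree_X]
    omega
  · refine totalDegree_finsetSum_le fun j _ => (totalDegree_mul _ _).trans ?_
    rw [totalDegree_X]
    refine (Nat.add_le_add_left (totalDegree_pow _ _) 1).trans ?_
    rw [totalDegree_X]
    have := j.2
    omega

private theorem Asy_deg_hom (d : ℕ) (p : MvPolynomial α ℚ) : (hom d p).totalDegree ≤ d := by
  unfold hom
  refine totalDegree_finsetSum_le fun m hm => (totalDegree_mul _ _).trans ?_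
  have h1 : (X none ^ (d - m) : MvPolynomial (Option α) ℚ).totalDegree ≤ d - m := by
    refine (totalDegree_pow _ _).trans ?_
    rw [totalDegree_X, mul_one]
  have h2 : (rename some (homogeneousComponent m p) : MvPolynomial (Option α) ℚ).totalDegree ≤ m :=
    ((homogeneousComponent_isHomogeneous m p).rename_isHomogeneous (f := some)).totalDegree_le
  have := Finset.mem_range.1 hm
  omega

/-- The family for `P`: the number and the degree of the polynomials. -/
theorem exists_dig {P : Finset (MvPolynomial α ℚ)} (hP : ∀ p ∈ P, p ≠ 0) {d : ℕ} (hd1 : 1 ≤ d)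
    (hdeg : ∀ p ∈ P, p.totalDegree ≤ d) (k : ℕ) : ∃ Q : Finset (MvPolynomial (Var k α) ℚ),
      IsDig k d P Q ∧ (∀ q ∈ Q, q ≠ 0) ∧ Q.card ≤ Fintype.card (Var k α) + 1 + P.card ∧
        ∀ q ∈ Q, q.totalDegree ≤ d * (k + 1) := by
  classical
  have hQ : ∀ q, q ∈ (Finset.univ.image X ∪ {XX k none ^ d} ∪ P.image fun p => aeval (XX k) (hom d p) :
      Finset (MvPolynomial (Var k α) ℚ)) ↔
      (∃ a, q = X a) ∨ q = XX k none ^ d ∨ ∃ p ∈ P, q = aeval (XX k) (hom d p) := by
    intro q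
    simp only [Finset.mem_union, Finset.mem_image, Finset.mem_univ, true_and, Finset.mem_singleton]
    constructor
    · rintro ((⟨a, rfl⟩ | h) | ⟨p, hp, rfl⟩)
      · exact Or.inl ⟨a, rfl⟩
      · exact Or.inr (Or.inl h)
      · exact Or.inr (Or.inr ⟨p, hp, rfl⟩)
    · rintro (⟨a, rfl⟩ | h | ⟨p, hp, rfl⟩)
      · exact Or.inl (Or.inl ⟨a, rfl⟩)
      · exact Or.inl (Or.inr h)
      · exact Or.inr ⟨p, hp, rfl⟩
  refine ⟨_, ⟨fun a => (hQ _).2 (Or.inl ⟨a, rfl⟩), (hQ _).2 (Or.inr (Or.inl rfl)),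
    fun p hp => (hQ _).2 (Or.inr (Or.inr ⟨p, hp, rfl⟩)), fun q hq => (hQ _).1 hq⟩, fun q hq => ?_, ?_, fun q hq => ?_⟩
  · rcases (hQ q).1 hq with ⟨a, rfl⟩ | rfl | ⟨p, hp, rfl⟩
    · exact X_ne_zero a
    · intro h0
      have h1 := congrArg (eval (Asy_pt k fun _ : Option α => (1 : ℚ))) h0
      rw [map_pow, Asy_XX, one_pow, map_zero] at h1
      exact one_ne_zero h1
    · obtain ⟨y, hy⟩ : ∃ y, eval y p ≠ 0 := by
        by_contra hcon
        push Not at hcon
        exact hP p hp (MvPolynomial.funext fun y => by rw [hcon y, map_zero])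
      intro h0
      have h1 := congrArg (eval (Asy_pt k fun o : Option α => o.elim 1 y)) h0
      rw [eval_form (hdeg p hp) _ (fun o : Option α => o.elim 1 y) (Asy_XX k _) one_ne_zero y (fun l => by simp),
        map_zero] at h1
      apply hy
      simpa using h1
  · refine (Finset.card_union_le _ _).trans (Nat.add_le_add ((Finset.card_union_le _ _).trans (Nat.add_le_add ?_ ?_)) ?_)
    · exact Finset.card_image_le
    · rw [Finset.card_singleton]
    · exact Finset.card_image_le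
  · rcases (hQ q).1 hq with ⟨a, rfl⟩ | rfl | ⟨p, hp, rfl⟩
    · rw [totalDegree_X]
      exact Nat.one_le_iff_ne_zero.2 (Nat.mul_ne_zero (by omega) (by omega))
    · exact (totalDegree_pow _ _).trans (Nat.mul_le_mul_left _ (Asy_deg_XX k none))
    · exact (totalDegree_aeval_le _ (k + 1) (Asy_deg_XX k) _).trans (Nat.mul_le_mul_right _ (Asy_deg_hom d p))

/-- If for every `η > 0` there are arbitrarily large `n` such that the abc inequality for all `s` forms of degree `d`
over `ℚ` in `n + 1` variables holds with the error term `η (s + d) h(w) + O(1)` and at most `C B ^ (η (s + d))`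
exceptions, then the abc inequality holds for finite sets of polynomials with every `ε > 0` and without exceptions. -/
theorem poly_of_lin (h : ABCLinX ℚ) (n : ℕ) : PolyABC ℚ n := by
  intro α _ _ hn P hP hX ε hε
  classical
  obtain ⟨d, hd1, hd⟩ : ∃ d : ℕ, 1 ≤ d ∧ ∀ p ∈ P, p.totalDegree ≤ d := by
    refine ⟨1 + P.sup (fun p => p.totalDegree), by omega, fun p hp => ?_⟩
    have := Finset.le_sup (f := fun p : MvPolynomial α ℚ => p.totalDegree) hp
    omega
  obtain ⟨A, hA⟩ : ∃ A : ℝ, A = 2 * (n + 1) + (P.card + 2) + 2 * d := ⟨_, rfl⟩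
  have hA0 : 0 < A := by
    rw [hA]
    positivity
  obtain ⟨x, hx0, hx1, hx2⟩ : ∃ x : ℝ, 0 < x ∧ 2 * x ≤ 1 ∧ 6 * x ≤ ε :=
    ⟨min (1 / 2) (ε / 6), by positivity, by linarith [min_le_left (1 / 2) (ε / 6)],
      by linarith [min_le_right (1 / 2) (ε / 6)]⟩
  obtain ⟨n', hn', hE⟩ := h (x / A) (by positivity) ((n + 1) * 8)
  have h8 : 8 ≤ n' / (n + 1) := (Nat.le_div_iff_mul_le (Nat.succ_pos n)).2 (by rw [mul_comm]; exact hn')
  obtain ⟨k, hk⟩ : ∃ k, n' / (n + 1) = k + 3 := ⟨n' / (n + 1) - 3, by omega⟩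
  have hk5 : 5 ≤ k := by omega
  have hr := Nat.mod_lt n' (Nat.succ_pos n)
  have hdiv := Nat.div_add_mod n' (n + 1)
  rw [hk] at hdiv
  set r : ℕ := n' % (n + 1) with hrdef
  obtain ⟨Q, hQ, hQ0, hQc, hQd⟩ := exists_dig hP hd1 hd k
  have hcardV : Fintype.card (Var k α) = (n + 1) * (k + 3) := by
    rw [Fintype.card_prod, Fintype.card_option, Fintype.card_option, Fintype.card_option, Fintype.card_fin, hn]
  have hcard : Fintype.card (Var k α ⊕ Fin r) = n' := by
    rw [Fintype.card_sum, hcardV, Fintype.card_fin, ← hdiv]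
  set Q' : Finset (MvPolynomial (Var k α ⊕ Fin r) ℚ) :=
    Q.image (rename Sum.inl) ∪ Finset.univ.image fun b : Fin r => X (Sum.inr b) with hQ'
  have hmem : ∀ q, q ∈ Q' ↔ (∃ p ∈ Q, q = rename Sum.inl p) ∨ ∃ b, q = X (Sum.inr b) := by
    intro q
    rw [hQ', Finset.mem_union, Finset.mem_image, Finset.mem_image]
    constructor
    · rintro (⟨p, hp, rfl⟩ | ⟨b, -, rfl⟩)
      · exact Or.inl ⟨p, hp, rfl⟩
      · exact Or.inr ⟨b, rfl⟩
    · rintro (⟨p, hp, rfl⟩ | ⟨b, rfl⟩)
      · exact Or.inl ⟨p, hp, rfl⟩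
      · exact Or.inr ⟨b, Finset.mem_univ _, rfl⟩
  have hQ'0 : ∀ q ∈ Q', q ≠ 0 := by
    intro q hq
    rcases (hmem q).1 hq with ⟨p, hp, rfl⟩ | ⟨b, rfl⟩
    · intro h0
      exact hQ0 p hp ((rename_injective _ Sum.inl_injective) (by rw [h0, map_zero]))
    · exact X_ne_zero _
  have hD1 : 1 ≤ d * (k + 1) := Nat.one_le_iff_ne_zero.2 (Nat.mul_ne_zero (by omega) (by omega))
  have hQ'd : ∀ q ∈ Q', q.totalDegree ≤ d * (k + 1) := by
    intro q hq
    rcases (hmem q).1 hq with ⟨p, hp, rfl⟩ | ⟨b, rfl⟩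
    · exact (totalDegree_rename_le _ _).trans (hQd p hp)
    · rw [totalDegree_X]
      exact hD1
  have hQ'c : Q'.card ≤ n' + 1 + P.card := by
    have h1 : Q'.card ≤ Q.card + r := by
      refine (Finset.card_union_le _ _).trans (Nat.add_le_add Finset.card_image_le ?_)
      refine Finset.card_image_le.trans ?_
      rw [Finset.card_univ, Fintype.card_fin]
    rw [hcardV] at hQc
    omega
  set c : ℝ := x / A * ((Q'.card + 1 : ℕ) + (d * (k + 1) : ℕ)) with hc
  have hc0 : 0 ≤ c := by positivity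
  have hk0 : (0 : ℝ) < k := by exact_mod_cast (by omega : 0 < k)
  have hcx : c ≤ x * k := by
    have h4 : ((Q'.card + 1 : ℕ) : ℝ) + (d * (k + 1) : ℕ) ≤ A * k := by
      have h5 : (n + 1) * (k + 3) + r ≤ (n + 1) * (k + 4) := by nlinarith
      have h6 : (Q'.card + 1) + d * (k + 1) ≤ (2 * (n + 1) + (P.card + 2) + 2 * d) * k := by
        have h7 : (n + 1) * (k + 4) ≤ 2 * (n + 1) * k := by nlinarith
        have h8 : P.card + 2 ≤ (P.card + 2) * k := Nat.le_mul_of_pos_right _ (by omega)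
        have h9 : d * (k + 1) ≤ 2 * d * k := by nlinarith
        have h10 : (2 * (n + 1) + (P.card + 2) + 2 * d) * k = 2 * (n + 1) * k + (P.card + 2) * k + 2 * d * k := by ring
        omega
      have h7 : (((Q'.card + 1) + d * (k + 1) : ℕ) : ℝ) ≤ (((2 * (n + 1) + (P.card + 2) + 2 * d) * k : ℕ) : ℝ) :=
        Nat.cast_le.2 h6
      rw [hA]
      push_cast at h7 ⊢
      linarith
    calc c ≤ x / A * (A * k) := mul_le_mul_of_nonneg_left h4 (by positivity)
      _ = x * k := by field_simp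
  have h1 : IneqX Q' c c := poly_of_err n' hcard Q' hQ'0 _ hD1 hQ'd c c fun κ _ _ f hκ hf => by
    have := hE κ f _ hf
    rwa [hκ] at this
  have h2 : IneqX Q c c :=
    ineqX_of_sum (fun p hp => (hmem _).2 (Or.inl ⟨p, hp, rfl⟩)) (fun b => (hmem _).2 (Or.inr ⟨b, rfl⟩))
      (fun q hq => (hmem q).1 hq) hc0 h1
  have hm : ((Fintype.card (Option α) : ℕ) : ℝ) = n + 1 := by
    rw [Fintype.card_option, hn]
    push_cast
    rfl
  have hn1 : (1 : ℝ) ≤ n + 1 := by
    have : (0 : ℝ) ≤ n := Nat.cast_nonneg n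
    linarith
  have hck : 2 * c ≤ k * (Fintype.card (Option α) : ℕ) := by
    rw [hm]
    have h3 : 2 * x * k ≤ 1 * k := mul_le_mul_of_nonneg_right hx1 hk0.le
    have h4 : (k : ℝ) * 1 ≤ k * (n + 1) := mul_le_mul_of_nonneg_left hn1 hk0.le
    linarith
  obtain ⟨G, C, hG, hGC⟩ := ineqC_of_dig hP hX hd1 hd (by omega : 0 < k) hQ hc0 hc0 hck h2
  refine ⟨G, C, hG, fun y hy => ⟨(hGC y hy).1, (hGC y hy).2.trans ?_⟩⟩
  have h3 : c / (k : ℝ) + ((k + 1) * (Fintype.card (Option α) : ℕ) + c) *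
      (2 * c / (k ^ 2 * (Fintype.card (Option α) : ℕ))) ≤ ε := by
    rw [hm]
    have h4 : c / (k : ℝ) ≤ x := by
      rw [div_le_iff₀ hk0]
      exact hcx
    have hN0 : (0 : ℝ) < n + 1 := zero_lt_one.trans_le hn1
    have h5 : 2 * c / ((k : ℝ) ^ 2 * (n + 1)) ≤ 2 * x / (k * (n + 1)) := by
      rw [div_le_div_iff₀ (by positivity) (by positivity)]
      have h6 : c * (k * (n + 1)) ≤ x * k * (k * (n + 1)) := mul_le_mul_of_nonneg_right hcx (by positivity)
      nlinarith [h6]
    have h6 : ((k : ℝ) + 1) * (n + 1) + c ≤ 5 / 2 * (k * (n + 1)) := by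
      have h7 : c ≤ 1 / 2 * (k * (n + 1)) := by
        rw [hm] at hck
        linarith
      have h8 : (1 : ℝ) ≤ k := by exact_mod_cast (by omega : 1 ≤ k)
      have h9 : ((k : ℝ) + 1) * (n + 1) ≤ 2 * k * (n + 1) := mul_le_mul_of_nonneg_right (by linarith) hN0.le
      linarith
    have h7 : (((k : ℝ) + 1) * (n + 1) + c) * (2 * c / ((k : ℝ) ^ 2 * (n + 1))) ≤
        (5 / 2 * (k * (n + 1))) * (2 * x / (k * (n + 1))) := mul_le_mul h6 h5 (by positivity) (by positivity)
    have h8 : (5 / 2 * ((k : ℝ) * (n + 1))) * (2 * x / (k * (n + 1))) = 5 * x := by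
      field_simp
    rw [h8] at h7
    linarith
  have h4 := mul_le_mul_of_nonneg_right h3 (logHeight_nonneg (fun o : Option α => o.elim 1 y))
  linarith

end Pool.Agent.Lib.MP_17a322_nt.FE
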