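import Pool.Agent.Lib.MP_17a322_nt.GQ.Defs

/-!
The error term of the abc inequality for polynomials: expansions of the coordinates in bases which are powers of `2`.
Definitions.
-/

universe u

namespace Pool.Agent.Lib.MP_17a322_nt.FE

open MvPolynomial Height NumberField
open Pool.Agent.Lib.MP_17a322_nt.GQ (vec)

/-- The abc inequality for a finite set `P` of polynomials with the error term `c h(1 : y) + O(1)` and with few
exceptions: for every `B ≥ 1` at most `C B ^ b` exceptions of height at most `log B`. -/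
def IneqX {K : Type u} [Field K] [NumberField K] {α : Type} [Fintype α] [DecidableEq α]
    (P : Finset (MvPolynomial α K)) (c b : ℝ) : Prop :=
  ∃ (G : MvPolynomial α K) (C : ℝ), G ≠ 0 ∧ ∀ B : ℝ, 1 ≤ B → ∃ S : Finset (α → K), (S.card : ℝ) ≤ C * B ^ b ∧
    ∀ y : α → K, eval y G ≠ 0 → logHeight (fun o : Option α => o.elim 1 y) ≤ Real.log B → y ∉ S →
      (∀ p ∈ P, eval y p ≠ 0) ∧ logHeight (vec P y) ≤
        (∑ᶠ v ∈ {v : FinitePlace K | ∃ p ∈ P, v (eval y p) ≠ 1}, Real.log (Ideal.absNorm v.maximalIdeal.asIdeal)) +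
          c * logHeight (fun o : Option α => o.elim 1 y) + C

/-- The abc inequality for a finite set `P` of polynomials with the error term `c h(1 : y) + O(1)`. -/
def IneqC {K : Type u} [Field K] [NumberField K] {α : Type} [Fintype α] [DecidableEq α]
    (P : Finset (MvPolynomial α K)) (c : ℝ) : Prop :=
  ∃ (G : MvPolynomial α K) (C : ℝ), G ≠ 0 ∧ ∀ y : α → K, eval y G ≠ 0 → (∀ p ∈ P, eval y p ≠ 0) ∧
    logHeight (vec P y) ≤
      (∑ᶠ v ∈ {v : FinitePlace K | ∃ p ∈ P, v (eval y p) ≠ 1}, Real.log (Ideal.absNorm v.maximalIdeal.asIdeal)) +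
        c * logHeight (fun o : Option α => o.elim 1 y) + C

/-- The variables: for each `i` (the homogeneous coordinates are numbered by `Option α`) the base `u_i = X (i, none)`, the
number `c_i = X (i, some none)`, and the digits `w_ij = X (i, some (some j))`, `0 ≤ j ≤ k`. -/
abbrev Var (k : ℕ) (α : Type) : Type := Option α × Option (Option (Fin (k + 1)))

/-- The polynomial `c_i + ∑ w_ij u_i ^ j`. -/
noncomputable def XX (k : ℕ) {α : Type} (i : Option α) : MvPolynomial (Var k α) ℚ :=
  X (i, some none) + ∑ j : Fin (k + 1), X (i, some (some j)) * X (i, none) ^ (j : ℕ)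

/-- The form of degree `d` with the value `p` for `X none = 1` (if the degree of `p` is at most `d`). -/
noncomputable def hom (d : ℕ) {α : Type} (p : MvPolynomial α ℚ) : MvPolynomial (Option α) ℚ :=
  ∑ m ∈ Finset.range (d + 1), X none ^ (d - m) * rename some (homogeneousComponent m p)

/-- The family `Q` consists of the variables, the polynomial `XX_0 ^ d` and the forms `hom d p`, `p ∈ P`, of the
polynomials `XX_i`. -/
structure IsDig (k d : ℕ) {α : Type} (P : Finset (MvPolynomial α ℚ)) (Q : Finset (MvPolynomial (Var k α) ℚ)) : Prop where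
  var : ∀ a, X a ∈ Q
  zero : XX k none ^ d ∈ Q
  form : ∀ p ∈ P, aeval (XX k) (hom d p) ∈ Q
  all : ∀ q ∈ Q, (∃ a, q = X a) ∨ q = XX k none ^ d ∨ ∃ p ∈ P, q = aeval (XX k) (hom d p)

/-- The summands of the value of `XX_i` at the point `z`. -/
def summand (k : ℕ) {α : Type} (z : Var k α → ℚ) (i : Option α) : Option (Fin (k + 1)) → ℚ
  | none => z (i, some none)
  | some j => z (i, some (some j)) * z (i, none) ^ (j : ℕ)

theorem eval_XX (k : ℕ) {α : Type} (z : Var k α → ℚ) (i : Option α) : eval z (XX k i) = ∑ τ, summand k z i τ := by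
  rw [Fintype.sum_option]
  simp [XX, summand]

/-- The point `z` represents the point `y`: integral numbers, bases which are powers of `2`. The numbers `x i` are the
homogeneous coordinates of `y`, up to a power of `2` coprime. -/
structure Rep (k D : ℕ) (C C' : ℝ) {α : Type} [Fintype α] (y : α → ℚ) (x : Option α → ℤ) (z : Var k α → ℤ) : Prop where
  x_ne : ∀ i, x i ≠ 0
  y_eq : ∀ l, y l = (x (some l) : ℚ) / (x none : ℚ)
  prim : ∀ p : ℕ, p.Prime → p ≠ 2 → ∃ i, ¬ (p : ℤ) ∣ x i
  val : ∀ i, eval (fun a => (z a : ℚ)) (XX k i) = (x i : ℚ)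
  z_ne : ∀ a, z a ≠ 0
  base : ∀ i, ∃ e : ℕ, z (i, none) = 2 ^ e
  cst : ∀ i, ∃ e : ℕ, e ≤ D ∧ z (i, some none) = 2 ^ e
  cost : ∀ i, ∑ j : Fin (k + 1), Real.log |(z (i, some (some j)) : ℝ)| ≤ Real.log |(x i : ℝ)| + C
  size : ∀ a, Real.log |(z a : ℝ)| ≤ logHeight (fun o : Option α => o.elim 1 y) / k + C'

end Pool.Agent.Lib.MP_17a322_nt.FE
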