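import Pool.Agent.Lib.MP_17a322_nt.FE.Defs
import Pool.Agent.Lib.MP_17a322_nt.EQ.G0

/-!
The determinant of the logarithmic derivatives at the new point.
-/

namespace Pool.Agent.Lib.MP_17a322_nt.FE

open MvPolynomial Height NumberField
open Pool.Agent.Lib.MP_17a322_nt.GQ (vec)

section

variable {α : Type} [Fintype α]

private theorem Det_hom_eval {m : ℕ} {q : MvPolynomial α ℚ} (hq : q.IsHomogeneous m) (x : Option α → ℚ) (y : α → ℚ)
    (hxy : ∀ l, x (some l) = x none * y l) : eval x (rename some q) = x none ^ m * eval y q := by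
  rw [eval_rename]
  have h1 : x ∘ some = fun l => x none * y l := funext hxy
  rw [h1]
  exact Pool.Agent.Lib.MP_17a322_nt.EQ.aeval_mul hq (x none) y

private theorem Det_sum (d : ℕ) (P : MvPolynomial α ℚ) (hP : P.totalDegree ≤ d) :
    ∑ k ∈ Finset.range (d + 1), homogeneousComponent k P = P := by
  have h1 : ∑ k ∈ Finset.range (d + 1), homogeneousComponent k P =
      ∑ k ∈ Finset.range (P.totalDegree + 1), homogeneousComponent k P := by
    symm
    apply Finset.sum_subset
    · intro k hk
      rw [Finset.mem_range] at hk ⊢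
      omega
    · intro k _ hk
      apply homogeneousComponent_eq_zero
      rw [Finset.mem_range] at hk
      omega
  rw [h1, sum_homogeneousComponent]

private theorem Det_hom (d : ℕ) (p : MvPolynomial α ℚ) (hp : p.totalDegree ≤ d) (x : Option α → ℚ) (y : α → ℚ)
    (hxy : ∀ l, x (some l) = x none * y l) : eval x (hom d p) = x none ^ d * eval y p := by
  unfold hom
  rw [map_sum]
  have h1 : ∀ m ∈ Finset.range (d + 1), eval x (X none ^ (d - m) * rename some (homogeneousComponent m p)) =
      x none ^ d * eval y (homogeneousComponent m p) := by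
    intro m hm
    rw [Finset.mem_range] at hm
    rw [map_mul, map_pow, eval_X, Det_hom_eval (homogeneousComponent_isHomogeneous m p) x y hxy, ← mul_assoc,
      ← pow_add]
    congr 2
    omega
  rw [Finset.sum_congr rfl h1, ← Finset.mul_sum, ← map_sum, Det_sum d p hp]

private theorem Det_hom_pderiv (d : ℕ) (hd : 1 ≤ d) (p : MvPolynomial α ℚ) (hp : p.totalDegree ≤ d) (x : Option α → ℚ)
    (y : α → ℚ) (hxy : ∀ l, x (some l) = x none * y l) (l : α) :
    eval x (pderiv (some l) (hom d p)) = x none ^ (d - 1) * eval y (pderiv l p) := by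
  unfold hom
  rw [map_sum, map_sum]
  have h1 : ∀ m ∈ Finset.range (d + 1),
      eval x (pderiv (some l) (X none ^ (d - m) * rename some (homogeneousComponent m p))) =
      x none ^ (d - 1) * eval y (pderiv l (homogeneousComponent m p)) := by
    intro m hm
    rw [Finset.mem_range] at hm
    rw [Derivation.leibniz, Derivation.leibniz_pow, pderiv_X_of_ne (by simp),
      pderiv_rename (Option.some_injective α)]
    simp only [smul_zero, add_zero, smul_eq_mul, mul_zero]
    have h2 := (homogeneousComponent_isHomogeneous m p).pderiv (i := l)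
    rw [map_mul, map_pow, eval_X, Det_hom_eval h2 x y hxy, ← mul_assoc, ← pow_add]
    rcases Nat.eq_zero_or_pos m with rfl | hm0
    · have h3 : pderiv l (homogeneousComponent 0 p) = 0 := by
        rw [homogeneousComponent_zero, pderiv_C]
      rw [h3]
      simp
    · congr 2
      omega
  rw [Finset.sum_congr rfl h1, ← Finset.mul_sum, ← map_sum, ← map_sum, Det_sum d p hp]

end

variable {α : Type} [Fintype α] [DecidableEq α]

/-- The chain rule. -/
private theorem Det_chain {σ τ : Type} [Fintype σ] (Φ : σ → MvPolynomial τ ℚ) (j : τ) (p : MvPolynomial σ ℚ) :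
    pderiv j (aeval Φ p) = ∑ i, aeval Φ (pderiv i p) * pderiv j (Φ i) := by
  classical
  induction p using MvPolynomial.induction_on with
  | C c => simp
  | add p q hp hq =>
    rw [map_add, map_add, hp, hq, ← Finset.sum_add_distrib]
    apply Finset.sum_congr rfl
    intro i _
    rw [map_add, map_add]
    ring
  | mul_X p l hp =>
    rw [map_mul, aeval_X, Derivation.leibniz, hp]
    have h1 : ∀ i, aeval Φ (pderiv i (p * X l)) * pderiv j (Φ i) =
        aeval Φ (pderiv i p) * pderiv j (Φ i) * Φ l + (if i = l then aeval Φ p * pderiv j (Φ l) else 0) := by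
      intro i
      rw [Derivation.leibniz, pderiv_X]
      by_cases h : i = l
      · subst h
        simp
        ring
      · rw [Pi.single_eq_of_ne (fun h' => h h'.symm)]
        simp [h]
        ring
    rw [Finset.sum_congr rfl fun i _ => h1 i, Finset.sum_add_distrib, ← Finset.sum_mul]
    simp
    ring

/-- The value of a polynomial in the `XX i`. -/
private theorem Det_eval {k : ℕ} (z : Var k α → ℚ) (x : Option α → ℚ) (hx : ∀ i, eval z (XX k i) = x i)
    (F : MvPolynomial (Option α) ℚ) : eval z (aeval (XX k) F) = eval x F := by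
  have h1 := Pool.Agent.Lib.MP_17a322_nt.EQ.aeval_comp (L := ℚ) z (XX k : Option α → MvPolynomial (Var k α) ℚ) F
  have h2 : (fun i : Option α => aeval z (XX k i)) = x := funext hx
  rw [h2] at h1
  exact h1

/-- The derivative of `XX i` with respect to one of its variables of the form `(i, some τ)`. -/
private def Det_m (k : ℕ) (z : Var k α → ℚ) (i : Option α) : Option (Fin (k + 1)) → ℚ
  | none => 1
  | some j => z (i, none) ^ (j : ℕ)

private theorem Det_summand (k : ℕ) (z : Var k α → ℚ) (i : Option α) (τ : Option (Fin (k + 1))) :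
    Det_m k z i τ * z (i, some τ) = summand k z i τ := by
  cases τ with
  | none => exact one_mul _
  | some j => exact mul_comm _ _

private theorem Det_pderiv_XX {k : ℕ} (z : Var k α → ℚ) (i i' : Option α) (τ : Option (Fin (k + 1))) :
    eval z (pderiv (i', some τ) (XX k i)) = if i = i' then Det_m k z i τ else 0 := by
  unfold XX
  rw [map_add, map_add, map_sum, map_sum]
  have h1 : ∀ j : Fin (k + 1), eval z (pderiv (i', some τ) (X (i, some (some j)) * X (i, none) ^ (j : ℕ))) =
      if i = i' ∧ τ = some j then z (i, none) ^ (j : ℕ) else 0 := by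
    intro j
    rw [Derivation.leibniz, Derivation.leibniz_pow, pderiv_X_of_ne (by simp), pderiv_X]
    simp only [smul_zero, zero_add, smul_eq_mul, mul_zero]
    rw [map_mul, map_pow, eval_X]
    by_cases h : i = i' ∧ τ = some j
    · obtain ⟨rfl, rfl⟩ := h
      simp
    · rw [if_neg h, Pi.single_eq_of_ne, map_zero, mul_zero]
      intro h'
      rw [Prod.mk.injEq, Option.some_inj] at h'
      exact h ⟨h'.1, h'.2.symm⟩
  rw [Finset.sum_congr rfl fun j _ => h1 j, pderiv_X]
  by_cases h : i = i'
  · subst h
    rw [if_pos rfl]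
    cases τ with
    | none => simp [Det_m]
    | some j => simp [Det_m]
  · rw [if_neg h, Pi.single_eq_of_ne (by simpa using fun h' => absurd h' h), map_zero, zero_add]
    exact Finset.sum_eq_zero fun j _ => if_neg fun h' => h h'.1

/-- The determinant of the logarithmic derivatives of the forms. -/
private theorem Det_B {d : ℕ} (hd : 1 ≤ d) (F : Option α → MvPolynomial (Option α) ℚ) (p : α → MvPolynomial α ℚ)
    (hF0 : F none = X none ^ d) (hF : ∀ l, F (some l) = hom d (p l)) (hp : ∀ l, (p l).totalDegree ≤ d)
    (x : Option α → ℚ) (hx0 : x none ≠ 0) (y : α → ℚ) (hxy : ∀ l, x (some l) = x none * y l)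
    (hP : ∀ l, eval y (p l) ≠ 0) :
    (Matrix.of fun i j => eval x (pderiv j (F i)) / eval x (F i)).det * x none ^ (Fintype.card α + 1) =
      d * (Matrix.of fun i j => eval y (pderiv j (p i)) / eval y (p i)).det := by
  rw [← Matrix.det_submatrix_equiv_self (Equiv.optionEquivSumPUnit.{0} α).symm]
  have hM : (Matrix.of fun i j => eval x (pderiv j (F i)) / eval x (F i)).submatrix
      (Equiv.optionEquivSumPUnit.{0} α).symm (Equiv.optionEquivSumPUnit.{0} α).symm =
      Matrix.fromBlocks (Matrix.of fun i j => (x none)⁻¹ * (eval y (pderiv j (p i)) / eval y (p i)))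
        (Matrix.of fun i _ => eval x (pderiv none (F (some i))) / eval x (F (some i)))
        0 (Matrix.of fun _ _ => (d : ℚ) / x none) := by
    ext i j
    rcases i with i | i <;> rcases j with j | j
    · change eval x (pderiv (some j) (F (some i))) / eval x (F (some i)) = _
      rw [hF, Det_hom d _ (hp i) x y hxy, Det_hom_pderiv d hd _ (hp i) x y hxy]
      rw [Matrix.fromBlocks_apply₁₁, Matrix.of_apply]
      have h1 : x none ^ d = x none ^ (d - 1) * x none := by
        rw [← pow_succ]
        congr 1
        omega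
      rw [h1]
      have h2 := hP i
      field_simp
    · rfl
    · change eval x (pderiv (some j) (F none)) / eval x (F none) = 0
      rw [hF0, Derivation.leibniz_pow, pderiv_X_of_ne (by simp)]
      simp
    · change eval x (pderiv none (F none)) / eval x (F none) = (d : ℚ) / x none
      rw [hF0, Derivation.leibniz_pow, pderiv_X_self]
      have h1 : x none ^ d = x none ^ (d - 1) * x none := by
        rw [← pow_succ]
        congr 1
        omega
      simp only [smul_eq_mul, mul_one, map_mul, map_natCast, map_pow, eval_X, nsmul_eq_mul, h1]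
      field_simp
  have hD : (Matrix.of fun _ _ : PUnit.{1} => (d : ℚ) / x none).det = (d : ℚ) / x none := by
    rw [Matrix.det_unique]
    rfl
  have hS : (Matrix.of fun i j => (x none)⁻¹ * (eval y (pderiv j (p i)) / eval y (p i))) =
      (x none)⁻¹ • (Matrix.of fun i j => eval y (pderiv j (p i)) / eval y (p i)) := rfl
  rw [hM, Matrix.det_fromBlocks_zero₂₁, hD, hS, Matrix.det_smul, pow_succ]
  have h2 : (x none)⁻¹ ^ Fintype.card α * x none ^ Fintype.card α = 1 := by
    rw [← mul_pow, inv_mul_cancel₀ hx0, one_pow]
  have h3 : (d : ℚ) / x none * x none = d := div_mul_cancel₀ _ hx0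
  linear_combination ((Matrix.of fun i j => eval y (pderiv j (p i)) / eval y (p i)).det * ((d : ℚ) / x none * x none)) *
    h2 + (Matrix.of fun i j => eval y (pderiv j (p i)) / eval y (p i)).det * h3

/-- The determinant of the logarithmic derivatives at the new point, for the following elements of the family:
all variables but the variables `(i, some (T i))`, in the place of `(none, some (T none))` the polynomial `XX none ^ d`,
in the place of `(some l, some (T (some l)))` the form of `I l`. -/
theorem vec_dig {k d : ℕ} {P : Finset (MvPolynomial α ℚ)} {Q : Finset (MvPolynomial (Var k α) ℚ)} (hQ : IsDig k d P Q)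
    (hdeg : ∀ p ∈ P, p.totalDegree ≤ d) (hd : 1 ≤ d) (z : Var k α → ℚ) (hz : ∀ a, z a ≠ 0) (x : Option α → ℚ)
    (hx : ∀ i, eval z (XX k i) = x i) (hx0 : x none ≠ 0) (y : α → ℚ) (hy : ∀ l, y l = x (some l) / x none)
    (hP : ∀ p ∈ P, eval y p ≠ 0) (I : α → P) (T : Option α → Option (Fin (k + 1))) :
    ∃ J : Var k α → Q, vec Q z J * x none ^ (Fintype.card α + 1) * ∏ a, z a =
      d * vec P y I * ∏ i, summand k z i (T i) := by
  classical
  have hxy : ∀ l, x (some l) = x none * y l := by
    intro l
    rw [hy]
    field_simp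
  set F : Option α → MvPolynomial (Option α) ℚ := fun i => i.elim (X none ^ d) fun l => hom d (I l).1 with hF
  have hFQ : ∀ i, aeval (XX k) (F i) ∈ Q := by
    intro i
    cases i with
    | none =>
      change aeval (XX k) (X none ^ d) ∈ Q
      rw [map_pow, aeval_X]
      exact hQ.zero
    | some l => exact hQ.form _ (I l).2
  set J : Var k α → Q := fun a => if a.2 = some (T a.1) then ⟨aeval (XX k) (F a.1), hFQ a.1⟩ else ⟨X a, hQ.var a⟩
    with hJ
  refine ⟨J, ?_⟩
  set M : Matrix (Var k α) (Var k α) ℚ := Matrix.of fun a b => eval z (pderiv b (J a).1) / eval z (J a).1 with hM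
  have hv : vec Q z J = M.det := rfl
  have hJ1 : ∀ a : Var k α, a.2 = some (T a.1) → (J a).1 = aeval (XX k) (F a.1) := by
    intro a ha
    rw [hJ]
    simp only
    rw [if_pos ha]
  have hJ2 : ∀ a : Var k α, ¬ a.2 = some (T a.1) → (J a).1 = X a := by
    intro a ha
    rw [hJ]
    simp only
    rw [if_neg ha]
  have hM2 : ∀ a : Var k α, ¬ a.2 = some (T a.1) → ∀ b, M a b = if a = b then (z a)⁻¹ else 0 := by
    intro a ha b
    rw [hM, Matrix.of_apply, hJ2 a ha, eval_X, pderiv_X]
    by_cases hab : a = b
    · subst hab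
      simp
    · rw [Pi.single_eq_of_ne hab, if_neg hab, map_zero, zero_div]
  have hdet : M.det = (M.toSquareBlockProp fun a => a.2 = some (T a.1)).det *
      (M.toSquareBlockProp fun a => ¬ a.2 = some (T a.1)).det := by
    refine Matrix.twoBlockTriangular_det M _ fun a ha b hb => ?_
    rw [hM2 a ha, if_neg]
    rintro rfl
    exact ha hb
  have hdet2 : (M.toSquareBlockProp fun a => ¬ a.2 = some (T a.1)).det =
      ∏ a : {a : Var k α // ¬ a.2 = some (T a.1)}, (z a.1)⁻¹ := by
    have h1 : (M.toSquareBlockProp fun a => ¬ a.2 = some (T a.1)) =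
        Matrix.diagonal fun a : {a : Var k α // ¬ a.2 = some (T a.1)} => (z a.1)⁻¹ := by
      ext a b
      rw [Matrix.toSquareBlockProp_def, Matrix.of_apply, hM2 a.1 a.2, Matrix.diagonal_apply]
      by_cases hab : a = b
      · subst hab
        simp
      · rw [if_neg hab, if_neg fun h' => hab (Subtype.ext h')]
    rw [h1, Matrix.det_diagonal]
  let e : Option α ≃ {a : Var k α // a.2 = some (T a.1)} :=
    { toFun := fun i => ⟨(i, some (T i)), rfl⟩
      invFun := fun a => a.1.1
      left_inv := fun i => rfl
      right_inv := fun a => by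
        apply Subtype.ext
        exact Prod.ext rfl a.2.symm }
  have hdet1 : (M.toSquareBlockProp fun a => a.2 = some (T a.1)).det =
      (Matrix.of fun i j => eval x (pderiv j (F i)) / eval x (F i)).det * ∏ i, Det_m k z i (T i) := by
    rw [← Matrix.det_submatrix_equiv_self e, ← Matrix.det_diagonal, ← Matrix.det_mul]
    congr 1
    ext i i'
    rw [Matrix.mul_diagonal, Matrix.submatrix_apply, Matrix.toSquareBlockProp_def, Matrix.of_apply, Matrix.of_apply]
    change eval z (pderiv (i', some (T i')) (J (i, some (T i))).1) / eval z (J (i, some (T i))).1 = _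
    rw [hJ1 (i, some (T i)) rfl, Det_eval z x hx, Det_chain, map_sum]
    have h1 : ∀ i'' : Option α, eval z (aeval (XX k) (pderiv i'' (F i)) * pderiv (i', some (T i')) (XX k i'')) =
        if i'' = i' then eval x (pderiv i'' (F i)) * Det_m k z i'' (T i') else 0 := by
      intro i''
      rw [map_mul, Det_eval z x hx, Det_pderiv_XX]
      split_ifs with h
      · rfl
      · rw [mul_zero]
    rw [Finset.sum_congr rfl fun i'' _ => h1 i'', Finset.sum_ite_eq' Finset.univ i', if_pos (Finset.mem_univ _)]
    ring
  have hB := Det_B hd F (fun l => (I l).1) rfl (fun l => rfl) (fun l => hdeg _ (I l).2) x hx0 y hxy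
    (fun l => hP _ (I l).2)
  have hprod : (∏ a : {a : Var k α // ¬ a.2 = some (T a.1)}, (z a.1)⁻¹) * ∏ a, z a = ∏ i, z (i, some (T i)) := by
    have h1 := Fintype.prod_subtype_mul_prod_subtype (fun a : Var k α => a.2 = some (T a.1)) z
    have h2 : ∏ a : {a : Var k α // a.2 = some (T a.1)}, z a.1 = ∏ i, z (i, some (T i)) := by
      rw [← Equiv.prod_comp e]
      rfl
    rw [h2] at h1
    rw [← h1, Finset.prod_inv_distrib]
    have h3 : ∏ a : {a : Var k α // ¬ a.2 = some (T a.1)}, z a.1 ≠ 0 := Finset.prod_ne_zero_iff.2 fun a _ => hz a.1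
    field_simp
  have hs : ∏ i, summand k z i (T i) = (∏ i, Det_m k z i (T i)) * ∏ i, z (i, some (T i)) := by
    rw [← Finset.prod_mul_distrib]
    exact Finset.prod_congr rfl fun i _ => (Det_summand k z i (T i)).symm
  have hvec : vec P y I = (Matrix.of fun i j => eval y (pderiv j (I i).1) / eval y (I i).1).det := rfl
  rw [hv, hdet, hdet1, hdet2, hs, hvec, ← hB, ← hprod]
  ring

/-- The value of the form. -/
theorem eval_form {k d : ℕ} {p : MvPolynomial α ℚ} (hd : p.totalDegree ≤ d) (z : Var k α → ℚ) (x : Option α → ℚ)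
    (hx : ∀ i, eval z (XX k i) = x i) (hx0 : x none ≠ 0) (y : α → ℚ) (hy : ∀ l, y l = x (some l) / x none) :
    eval z (aeval (XX k) (hom d p)) = x none ^ d * eval y p := by
  have hxy : ∀ l, x (some l) = x none * y l := by
    intro l
    rw [hy]
    field_simp
  rw [Det_eval z x hx, Det_hom d p hd x y hxy]

end Pool.Agent.Lib.MP_17a322_nt.FE
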