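import Pool.Agent.Lib.MP_17a322_nt.EQ.P1b
import Pool.Agent.Lib.MP_17a322_nt.GQ.K1

universe u

namespace Pool.Agent.Lib.MP_17a322_nt.FE

open Height NumberField
open Pool.Agent.Lib.MP_17a322_nt.EQ (Pl av psum FS)

variable {K : Type u} [Field K] [NumberField K]

private theorem Sd_one_lt (v : FinitePlace K) :
    (1 : ℝ) < (Ideal.absNorm v.maximalIdeal.asIdeal : ℝ) := by
  exact_mod_cast NumberField.HeightOneSpectrum.one_lt_absNorm v.maximalIdeal

private theorem Sd_zpow (v : FinitePlace K) {x : K} (hx : x ≠ 0) :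
    ∃ n : ℤ, v x = (Ideal.absNorm v.maximalIdeal.asIdeal : ℝ) ^ n := by
  have h0 : v.maximalIdeal.valuation K x ≠ 0 := (Valuation.ne_zero_iff _).mpr hx
  refine ⟨(WithZero.unzero h0).toAdd, ?_⟩
  rw [← FinitePlace.norm_embedding_eq v x, FinitePlace.norm_embedding',
    WithZeroMulInt.toNNReal_neg_apply _ h0]
  push_cast
  rfl

/-- The value group at a finite place: `v x` is a power of the number `q` of elements of the residue field
with an integral exponent. -/
theorem log_q_le (v : FinitePlace K) {x : K} (hx : x ≠ 0) (h1 : v x < 1) :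
    Real.log (Ideal.absNorm v.maximalIdeal.asIdeal) ≤ - Real.log (v x) := by
  obtain ⟨n, hn⟩ := Sd_zpow v hx
  have hq := Sd_one_lt v
  have hl : 0 < Real.log (Ideal.absNorm v.maximalIdeal.asIdeal : ℝ) := Real.log_pos hq
  rw [hn] at h1 ⊢
  have hneg : n < 0 := by
    by_contra hc
    exact absurd h1 (not_lt.mpr (one_le_zpow₀ hq.le (not_lt.mp hc)))
  rw [Real.log_zpow]
  have h2 : (n : ℝ) ≤ -1 := by
    have : n ≤ -1 := by omega
    exact_mod_cast this
  nlinarith

/-- The number of elements of the residue field has positive logarithm. -/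
theorem log_q_pos (v : FinitePlace K) : 0 < Real.log (Ideal.absNorm v.maximalIdeal.asIdeal) :=
  Real.log_pos (Sd_one_lt v)

private theorem Sd_nat_le_one (v : FinitePlace K) (n : ℕ) : v (n : K) ≤ 1 := by
  have h := FinitePlace.norm_le_one (K := K) v.maximalIdeal (n : 𝓞 K)
  have h2 := FinitePlace.norm_embedding_eq v (algebraMap (𝓞 K) K (n : 𝓞 K))
  have h3 : algebraMap (𝓞 K) K (n : 𝓞 K) = (n : K) := map_natCast _ n
  rw [h2, h3] at h
  exact h

/-- A natural number which is not a unit at `v` has a prime factor which is not a unit at `v`. -/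
private theorem Sd_factor (v : FinitePlace K) (n : ℕ) (hn : n ≠ 0) (h : v (n : K) ≠ 1) :
    ∃ p : ℕ, p.Prime ∧ p ∣ n ∧ v (p : K) < 1 := by
  induction n using Nat.strong_induction_on with
  | _ n ih =>
    rcases eq_or_ne n 1 with h1 | h1
    · exfalso
      apply h
      rw [h1, Nat.cast_one, map_one]
    · have hp := Nat.minFac_prime h1
      obtain ⟨m, hm⟩ := Nat.minFac_dvd n
      by_cases hlt : v (n.minFac : K) < 1
      · exact ⟨_, hp, Nat.minFac_dvd n, hlt⟩
      · have h2 : v (n.minFac : K) = 1 := le_antisymm (Sd_nat_le_one v _) (not_lt.mp hlt)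
        have hm0 : m ≠ 0 := by
          rintro rfl
          exact hn (by rw [hm, mul_zero])
        have h3 : v (m : K) ≠ 1 := by
          intro h4
          apply h
          rw [hm, Nat.cast_mul, map_mul, h2, h4, one_mul]
        have h5 : m < n := by
          have h6 := hp.two_le
          have h7 : 0 < m := Nat.pos_of_ne_zero hm0
          calc m < 2 * m := by omega
            _ ≤ n.minFac * m := Nat.mul_le_mul_right m h6
            _ = n := hm.symm
        obtain ⟨p, h8, h9, h10⟩ := ih m h5 hm0 h3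
        exact ⟨p, h8, h9.trans (Dvd.intro_left _ hm.symm), h10⟩

/-- The absolute value of a rational number by numerator and denominator. -/
private theorem Sd_num (v : FinitePlace K) (q : ℚ) :
    v (algebraMap ℚ K q) * v (q.den : K) = v (q.num.natAbs : K) := by
  have h1 : algebraMap ℚ K q * (q.den : K) = (q.num : K) := by
    have h2 := congrArg (algebraMap ℚ K) (Rat.mul_den_eq_num q)
    rw [map_mul, map_natCast, map_intCast] at h2
    exact h2
  rw [← map_mul, h1]
  rcases Int.natAbs_eq q.num with h2 | h2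
  · conv_lhs => rw [h2]
    rw [Int.cast_natCast]
  · conv_lhs => rw [h2]
    rw [Int.cast_neg, Int.cast_natCast]
    exact v.val.map_neg _

private theorem Sd_key (v : FinitePlace K) (q : ℚ) (hq : q ≠ 0) (h : v (algebraMap ℚ K q) ≠ 1) :
    ∃ w : FinitePlace ℚ, w q ≠ 1 ∧ v ((GQ.pr w : ℕ) : K) < 1 := by
  have hn : q.num.natAbs ≠ 0 := Int.natAbs_ne_zero.mpr (Rat.num_ne_zero.mpr hq)
  have hd : q.den ≠ 0 := q.den_nz
  have hco : ∀ p : ℕ, p.Prime → p ∣ q.num.natAbs → ¬ p ∣ q.den := by
    intro p hp h1 h2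
    exact Nat.Prime.one_lt hp |>.ne' (Nat.dvd_one.mp (q.reduced ▸ Nat.dvd_gcd h1 h2))
  have hw : ∀ w : FinitePlace ℚ, w q * w (q.den : ℚ) = w (q.num.natAbs : ℚ) := fun w => Sd_num w q
  by_cases hc : v (q.num.natAbs : K) = 1
  · have hc2 : v (q.den : K) ≠ 1 := by
      intro h2
      apply h
      have h3 := Sd_num v q
      rw [h2, hc, mul_one] at h3
      exact h3
    obtain ⟨p, hp, hpd, hlt⟩ := Sd_factor v _ hd hc2
    obtain ⟨w, rfl⟩ := GQ.exists_pr hp
    refine ⟨w, fun h4 => ?_, hlt⟩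
    have h5 := (GQ.apply_lt_one_iff w q.den).mpr hpd
    have h6 := hw w
    rw [h4, one_mul] at h6
    rw [h6] at h5
    exact hco _ hp ((GQ.apply_lt_one_iff w _).mp h5) hpd
  · obtain ⟨p, hp, hpd, hlt⟩ := Sd_factor v _ hn hc
    obtain ⟨w, rfl⟩ := GQ.exists_pr hp
    refine ⟨w, fun h4 => ?_, hlt⟩
    have h5 := (GQ.apply_lt_one_iff w q.num.natAbs).mpr hpd
    have h6 := hw w
    rw [h4, one_mul] at h6
    rw [← h6] at h5
    exact hco _ hp hpd ((GQ.apply_lt_one_iff w _).mp h5)

private theorem Sd_supp {x : K} (hx : x ≠ 0) : {v : FinitePlace K | v x ≠ 1}.Finite :=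
  FinitePlace.hasFiniteMulSupport hx

/-- The product formula for a natural number. -/
private theorem Sd_prod (n : ℕ) (hn : n ≠ 0) :
    ∑ᶠ v : FinitePlace K, - Real.log (v (n : K)) = Module.finrank ℚ K * Real.log n := by
  have h := EQ.psum_log_abv (K := K) (x := (n : K)) (Nat.cast_ne_zero.2 hn)
  unfold EQ.psum at h
  have h1 : ∀ w : InfinitePlace K, (av (Sum.inl w : Pl K)) (n : K) = n := by
    intro w
    change w (n : K) = n
    rw [← InfinitePlace.norm_embedding_eq w, map_natCast, Complex.norm_natCast]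
  have h2 : ∑ w : InfinitePlace K, (w.mult : ℝ) * Real.log ((av (Sum.inl w : Pl K)) (n : K)) =
      Module.finrank ℚ K * Real.log n := by
    simp only [h1]
    rw [← Finset.sum_mul, ← Nat.cast_sum, InfinitePlace.sum_mult_eq]
  rw [h2] at h
  have h3 : ∑ᶠ w : FinitePlace K, Real.log ((av (Sum.inr w : Pl K)) (n : K)) =
      ∑ᶠ v : FinitePlace K, Real.log (v (n : K)) := rfl
  rw [h3] at h
  rw [finsum_neg_distrib]
  linarith

/-- JOB SD. The sum over the places of `K` at which rational numbers are not units. PROOF: let `v` be a place of the set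
on the left, `v (x a) ≠ 1`. The rational number `x a` is `±` a product of powers of prime numbers `p`; so some `p` with
nonzero exponent has `v p < 1`, and `p` is the prime number of a finite place `w` of `ℚ` with `w (x a) ≠ 1` (see
GQ/K1.lean: `pr`, `exists_pr`, `apply_lt_one_iff`, `absNorm_pr`, `pr_inj`; import it if useful). Hence
`log q_v ≤ - log (v p)` (`log_q_le`). So the left side is at most the sum over the `w` on the right side of
`∑ᶠ v, - log (v p_w)`, which is by the product formula (`NumberField.prod_abs_eq_one`, or `EQ.psum_log_abv`) the sum over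
the infinite places of `mult * log p_w = [K : ℚ] log p_w`. -/
theorem sum_down {κ : Type} [Finite κ] (x : κ → ℚ) (hx : ∀ a, x a ≠ 0) :
    (∑ᶠ v ∈ {v : FinitePlace K | ∃ a, v (algebraMap ℚ K (x a)) ≠ 1}, Real.log (Ideal.absNorm v.maximalIdeal.asIdeal)) ≤
      Module.finrank ℚ K *
        ∑ᶠ v ∈ {v : FinitePlace ℚ | ∃ a, v (x a) ≠ 1}, Real.log (Ideal.absNorm v.maximalIdeal.asIdeal) := by
  classical
  have hSK : {v : FinitePlace K | ∃ a, v (algebraMap ℚ K (x a)) ≠ 1}.Finite := by
    have h1 : {v : FinitePlace K | ∃ a, v (algebraMap ℚ K (x a)) ≠ 1} =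
        ⋃ a, {v : FinitePlace K | v (algebraMap ℚ K (x a)) ≠ 1} := by
      ext v
      simp
    rw [h1]
    exact Set.finite_iUnion fun a => Sd_supp ((map_ne_zero _).mpr (hx a))
  have hSQ : {v : FinitePlace ℚ | ∃ a, v (x a) ≠ 1}.Finite := by
    have h1 : {v : FinitePlace ℚ | ∃ a, v (x a) ≠ 1} = ⋃ a, {v : FinitePlace ℚ | v (x a) ≠ 1} := by
      ext v
      simp
    rw [h1]
    exact Set.finite_iUnion fun a => Sd_supp (hx a)
  rw [finsum_mem_eq_finite_toFinset_sum _ hSK, finsum_mem_eq_finite_toFinset_sum _ hSQ]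
  have hnn : ∀ (v : FinitePlace K) (n : ℕ), 0 ≤ - Real.log (v (n : K)) := by
    intro v n
    have h1 : Real.log (v (n : K)) ≤ 0 := Real.log_nonpos (apply_nonneg _ _) (Sd_nat_le_one v n)
    linarith
  have h1 : ∀ v ∈ hSK.toFinset, Real.log (Ideal.absNorm v.maximalIdeal.asIdeal) ≤
      ∑ w ∈ hSQ.toFinset, - Real.log (v ((GQ.pr w : ℕ) : K)) := by
    intro v hv
    rw [Set.Finite.mem_toFinset] at hv
    obtain ⟨a, ha⟩ := hv
    obtain ⟨w, hw, hlt⟩ := Sd_key v (x a) (hx a) ha
    have h2 : ((GQ.pr w : ℕ) : K) ≠ 0 := Nat.cast_ne_zero.2 (GQ.pr_prime w).ne_zero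
    refine (log_q_le v h2 hlt).trans ?_
    have h3 : w ∈ hSQ.toFinset := by
      rw [Set.Finite.mem_toFinset]
      exact ⟨a, hw⟩
    exact Finset.single_le_sum (f := fun w : FinitePlace ℚ => - Real.log (v ((GQ.pr w : ℕ) : K)))
      (fun w _ => hnn v _) h3
  have h2 : ∀ w ∈ hSQ.toFinset, ∑ v ∈ hSK.toFinset, - Real.log (v ((GQ.pr w : ℕ) : K)) ≤
      Module.finrank ℚ K * Real.log (Ideal.absNorm w.maximalIdeal.asIdeal) := by
    intro w _
    have hp0 : GQ.pr w ≠ 0 := (GQ.pr_prime w).ne_zero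
    rw [GQ.absNorm_pr, ← Sd_prod (K := K) (GQ.pr w) hp0]
    have hfin : (Function.support fun v : FinitePlace K => - Real.log (v ((GQ.pr w : ℕ) : K))).Finite := by
      refine (Sd_supp (K := K) (x := ((GQ.pr w : ℕ) : K)) (Nat.cast_ne_zero.2 hp0)).subset fun v hv => ?_
      intro h3
      apply hv
      change - Real.log (v ((GQ.pr w : ℕ) : K)) = 0
      rw [h3, Real.log_one, neg_zero]
    rw [finsum_eq_sum_of_support_subset (s := hfin.toFinset ∪ hSK.toFinset)]
    · exact Finset.sum_le_sum_of_subset_of_nonneg Finset.subset_union_right fun v _ _ => hnn v _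
    · intro v hv
      rw [Finset.coe_union]
      left
      rw [Set.Finite.coe_toFinset]
      exact hv
  calc ∑ v ∈ hSK.toFinset, Real.log (Ideal.absNorm v.maximalIdeal.asIdeal)
      ≤ ∑ v ∈ hSK.toFinset, ∑ w ∈ hSQ.toFinset, - Real.log (v ((GQ.pr w : ℕ) : K)) :=
        Finset.sum_le_sum h1
    _ = ∑ w ∈ hSQ.toFinset, ∑ v ∈ hSK.toFinset, - Real.log (v ((GQ.pr w : ℕ) : K)) :=
        Finset.sum_comm
    _ ≤ ∑ w ∈ hSQ.toFinset, Module.finrank ℚ K * Real.log (Ideal.absNorm w.maximalIdeal.asIdeal) :=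
        Finset.sum_le_sum h2
    _ = _ := by rw [Finset.mul_sum]

end Pool.Agent.Lib.MP_17a322_nt.FE
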