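import Pool.Agent.Lib.MP_17a322_nt.FE.Err
import Pool.Agent.Lib.MP_17a322_nt.FE.Sd
import Pool.Agent.Lib.MP_17a322_nt.FQ.Y1

universe u

namespace Pool.Agent.Lib.MP_17a322_nt.FE

open MvPolynomial Height NumberField

/-- The sum of the logarithms of the numbers of elements of residue fields is nonnegative. -/
private theorem Down_nonneg (S : Set (FinitePlace ℚ)) :
    0 ≤ ∑ᶠ v ∈ S, Real.log (Ideal.absNorm v.maximalIdeal.asIdeal) :=
  finsum_nonneg fun v => finsum_nonneg fun _ => (log_q_pos v).le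

/-- The degenerate case. -/
private theorem Down_deg (n : ℕ) (c b : ℝ) (hc : 0 ≤ c) (κ : Type) [Fintype κ] [DecidableEq κ]
    (f : κ → MvPolynomial (Fin (n + 1)) ℚ)
    (h0 : ∀ w : Fin (n + 1) → ℚ,
      (fun s : Fin (n + 1) → κ => (Matrix.of fun i j => eval w (pderiv j (f (s i)))).det *
            ∏ a ∈ (Finset.univ.image s)ᶜ, eval w (f a)) = 0) :
    ErrFamX f c b := by
  refine ⟨1, 0, one_ne_zero, ⟨0, isHomogeneous_one _ _⟩, fun B _ => ⟨∅, by simp, fun w _ _ _ _ => ?_⟩⟩
  unfold ErrAt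
  rw [h0 w, logHeight_zero]
  have h1 := Down_nonneg {v : FinitePlace ℚ | ∃ a b, v (eval w (f a)) ≠ v (eval w (f b))}
  have h2 : 0 ≤ logHeight w := logHeight_nonneg w
  have h3 := mul_nonneg hc h2
  linarith

/-- The inequality for the forms `f_a` with rational coefficients over the number field `K` implies the one over `ℚ`. -/
theorem famX_down {K : Type u} [Field K] [NumberField K] {n : ℕ} {κ : Type} [Fintype κ] [DecidableEq κ]
    (f : κ → MvPolynomial (Fin (n + 1)) ℚ) (d : ℕ) (hf : ∀ a, (f a).IsHomogeneous d) (c b : ℝ) (hc : 0 ≤ c)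
    (h : ErrFamX (fun a => map (algebraMap ℚ K) (f a)) c b) : ErrFamX f c (Module.finrank ℚ K * b) := by
  classical
  by_cases hκ : IsEmpty κ
  · refine Down_deg n c _ hc κ f fun w => ?_
    funext s
    exact (hκ.false (s 0)).elim
  by_cases hz : ∃ a, f a = 0
  · obtain ⟨a0, ha0⟩ := hz
    refine Down_deg n c _ hc κ f fun w => ?_
    funext s
    show _ = (0 : ℚ)
    by_cases hs : ∃ i, s i = a0
    · obtain ⟨i, hi⟩ := hs
      rw [Matrix.det_eq_zero_of_row_eq_zero i fun j => ?_, zero_mul]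
      show eval w (pderiv j (f (s i))) = 0
      rw [hi, ha0, map_zero, map_zero]
    · rw [Finset.prod_eq_zero (i := a0) ?_ ?_, mul_zero]
      · rw [Finset.mem_compl, Finset.mem_image]
        rintro ⟨i, _, hi⟩
        exact hs ⟨i, hi⟩
      · rw [ha0, map_zero]
  rw [not_isEmpty_iff] at hκ
  obtain ⟨a₁⟩ := hκ
  push Not at hz
  obtain ⟨N, hN⟩ : ∃ N : ℝ, N = (Module.finrank ℚ K : ℝ) := ⟨_, rfl⟩
  have hN0 : 0 < N := by
    rw [hN]
    exact_mod_cast Module.finrank_pos
  obtain ⟨G, C, hG, ⟨d', hd'⟩, hw⟩ := h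
  obtain ⟨m0, hm0⟩ := MvPolynomial.ne_zero_iff.1 hG
  obtain ⟨l, hl⟩ : ∃ l : Module.Dual ℚ K, l (coeff m0 G) ≠ 0 := by
    by_contra hcon
    push Not at hcon
    exact hm0 ((Module.forall_dual_apply_eq_zero_iff ℚ (coeff m0 G)).1 hcon)
  obtain ⟨G', hG'⟩ : ∃ G' : MvPolynomial (Fin (n + 1)) ℚ,
      G' = ∑ m ∈ G.support, monomial m (l (coeff m G)) := ⟨_, rfl⟩
  have hcf : ∀ m, coeff m G' = l (coeff m G) := by
    intro m
    rw [hG', coeff_sum]
    simp only [coeff_monomial]
    rw [Finset.sum_ite_eq' G.support m]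
    split_ifs with h1
    · rfl
    · rw [notMem_support_iff.1 h1, map_zero]
  have hG'0 : G' ≠ 0 := by
    intro h0
    apply hl
    rw [← hcf m0, h0, coeff_zero]
  have hG'h : G'.IsHomogeneous d' := by
    intro m hm
    rw [hcf m] at hm
    exact hd' fun h0 => hm (by rw [h0, map_zero])
  have hev : ∀ w : Fin (n + 1) → ℚ, l (eval (fun j => algebraMap ℚ K (w j)) G) = eval w G' := by
    intro w
    rw [eval_eq', map_sum, hG', map_sum]
    refine Finset.sum_congr rfl fun m _ => ?_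
    rw [eval_monomial, Finsupp.prod_fintype _ _ fun i => pow_zero _]
    have e : ∏ i, algebraMap ℚ K (w i) ^ m i = algebraMap ℚ K (∏ i, w i ^ m i) := by
      rw [map_prod]
      exact Finset.prod_congr rfl fun i _ => (map_pow _ _ _).symm
    rw [e, mul_comm, ← Algebra.smul_def, map_smul, smul_eq_mul, mul_comm]
  have hmap : ∀ (w : Fin (n + 1) → ℚ) (P : MvPolynomial (Fin (n + 1)) ℚ),
      eval (fun j => algebraMap ℚ K (w j)) (map (algebraMap ℚ K) P) =
        algebraMap ℚ K (eval w P) := by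
    intro w P
    rw [eval_map, eval₂_eq', eval_eq', map_sum]
    refine Finset.sum_congr rfl fun m _ => ?_
    rw [map_mul, map_prod]
    congr 1
    exact Finset.prod_congr rfl fun i _ => (map_pow _ _ _).symm
  have hinj : Function.Injective fun (w : Fin (n + 1) → ℚ) (j : Fin (n + 1)) => algebraMap ℚ K (w j) := by
    intro w w' hww
    funext j
    exact (algebraMap ℚ K).injective (congrFun hww j)
  refine ⟨G' * ∏ a, f a, |C| + |C| / N, mul_ne_zero hG'0 (Finset.prod_ne_zero_iff.2 fun a _ => hz a),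
    ⟨d' + ∑ _a : κ, d, hG'h.mul (IsHomogeneous.prod _ _ _ fun a _ => hf a)⟩, fun B hB => ?_⟩
  have hB0 : 0 < B := zero_lt_one.trans_le hB
  obtain ⟨S', hS', hSS⟩ := hw (B ^ N) (Real.one_le_rpow hB hN0.le)
  refine ⟨S'.preimage _ hinj.injOn, ?_, fun w hw0 hne hwB hwS => ?_⟩
  · have h1 : ((S'.preimage _ hinj.injOn).card : ℝ) ≤ (S'.card : ℝ) := by
      refine Nat.cast_le.2 (Finset.card_le_card_of_injOn _ (fun w hw => ?_) hinj.injOn)
      exact Finset.mem_preimage.1 hw
    refine h1.trans (hS'.trans ?_)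
    rw [← Real.rpow_mul hB0.le, ← hN]
    refine mul_le_mul_of_nonneg_right ?_ (Real.rpow_nonneg hB0.le _)
    have h2 : 0 ≤ |C| / N := div_nonneg (abs_nonneg C) hN0.le
    have h3 := le_abs_self C
    linarith
  rw [map_mul, map_prod] at hne
  have hne1 : eval w G' ≠ 0 := left_ne_zero_of_mul hne
  have hne2 : ∀ a, eval w (f a) ≠ 0 := fun a =>
    Finset.prod_ne_zero_iff.1 (right_ne_zero_of_mul hne) a (Finset.mem_univ a)
  have h1 : eval (fun j => algebraMap ℚ K (w j)) G ≠ 0 := by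
    intro h0
    apply hne1
    rw [← hev w, h0, map_zero]
  have h2 := hSS (fun j => algebraMap ℚ K (w j)) (by rw [hw0, map_one]) h1
    (by
      rw [FQ.height_bc, ← hN, Real.log_rpow hB0]
      exact mul_le_mul_of_nonneg_left hwB hN0.le)
    (fun hmem => hwS (Finset.mem_preimage.2 hmem))
  unfold ErrAt at h2 ⊢
  have e1 : (fun s : Fin (n + 1) → κ => (Matrix.of fun i j => eval (fun j => algebraMap ℚ K (w j))
        (pderiv j (map (algebraMap ℚ K) (f (s i))))).det *
          ∏ a ∈ (Finset.univ.image s)ᶜ, eval (fun j => algebraMap ℚ K (w j)) (map (algebraMap ℚ K) (f a))) =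
      fun s : Fin (n + 1) → κ => algebraMap ℚ K ((Matrix.of fun i j => eval w (pderiv j (f (s i)))).det *
        ∏ a ∈ (Finset.univ.image s)ᶜ, eval w (f a)) := by
    funext s
    rw [map_mul, RingHom.map_det, map_prod]
    congr 1
    · congr 1
      ext i j
      show eval (fun j => algebraMap ℚ K (w j)) (pderiv j (map (algebraMap ℚ K) (f (s i)))) =
        algebraMap ℚ K (eval w (pderiv j (f (s i))))
      rw [pderiv_map, hmap]
    · exact Finset.prod_congr rfl fun a _ => hmap w (f a)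
  rw [e1, FQ.height_bc, FQ.height_bc, ← hN] at h2
  have hx : ∀ a, eval w (f a) / eval w (f a₁) ≠ 0 := fun a => div_ne_zero (hne2 a) (hne2 a₁)
  have h3 := sum_down (K := K) (fun a => eval w (f a) / eval w (f a₁)) hx
  have s1 : {v : FinitePlace K | ∃ a b, v (eval (fun j => algebraMap ℚ K (w j)) (map (algebraMap ℚ K) (f a))) ≠
        v (eval (fun j => algebraMap ℚ K (w j)) (map (algebraMap ℚ K) (f b)))} =
      {v : FinitePlace K | ∃ a, v (algebraMap ℚ K (eval w (f a) / eval w (f a₁))) ≠ 1} := by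
    ext v
    have hb0 : v (algebraMap ℚ K (eval w (f a₁))) ≠ 0 :=
      (map_ne_zero v).2 ((map_ne_zero (algebraMap ℚ K)).2 (hne2 a₁))
    have q : ∀ a, v (algebraMap ℚ K (eval w (f a) / eval w (f a₁))) = 1 ↔
        v (algebraMap ℚ K (eval w (f a))) = v (algebraMap ℚ K (eval w (f a₁))) := by
      intro a
      rw [map_div₀, map_div₀, div_eq_one_iff_eq hb0]
    simp only [Set.mem_ofPred_eq, hmap]
    constructor
    · rintro ⟨a, a', h4⟩
      by_contra hcon
      push Not at hcon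
      exact h4 (((q a).1 (hcon a)).trans ((q a').1 (hcon a')).symm)
    · rintro ⟨a, h4⟩
      exact ⟨a, a₁, fun h5 => h4 ((q a).2 h5)⟩
  have s2 : {v : FinitePlace ℚ | ∃ a b, v (eval w (f a)) ≠ v (eval w (f b))} =
      {v : FinitePlace ℚ | ∃ a, v (eval w (f a) / eval w (f a₁)) ≠ 1} := by
    ext v
    have hb0 : v (eval w (f a₁)) ≠ 0 := (map_ne_zero v).2 (hne2 a₁)
    have q : ∀ a, v (eval w (f a) / eval w (f a₁)) = 1 ↔ v (eval w (f a)) = v (eval w (f a₁)) := by
      intro a
      rw [map_div₀, div_eq_one_iff_eq hb0]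
    simp only [Set.mem_ofPred_eq]
    constructor
    · rintro ⟨a, a', h4⟩
      by_contra hcon
      push Not at hcon
      exact h4 (((q a).1 (hcon a)).trans ((q a').1 (hcon a')).symm)
    · rintro ⟨a, h4⟩
      exact ⟨a, a₁, fun h5 => h4 ((q a).2 h5)⟩
  rw [s1] at h2
  rw [s2]
  rw [← hN] at h3
  have h4 : N * logHeight (fun s : Fin (n + 1) → κ => (Matrix.of fun i j => eval w (pderiv j (f (s i)))).det *
        ∏ a ∈ (Finset.univ.image s)ᶜ, eval w (f a)) ≤
      N * ((∑ᶠ v ∈ {v : FinitePlace ℚ | ∃ a, v (eval w (f a) / eval w (f a₁)) ≠ 1},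
            Real.log (Ideal.absNorm v.maximalIdeal.asIdeal)) + c * logHeight w + (|C| + |C| / N)) := by
    refine h2.trans ?_
    have e5 : N * (|C| + |C| / N) = N * |C| + |C| := by field_simp
    rw [mul_add, mul_add, e5]
    have e6 : c * (N * logHeight w) = N * (c * logHeight w) := by ring
    rw [e6]
    have e7 := le_abs_self C
    have e8 : 0 ≤ N * |C| := mul_nonneg hN0.le (abs_nonneg C)
    linarith
  exact le_of_mul_le_mul_left h4 hN0

end Pool.Agent.Lib.MP_17a322_nt.FE
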