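import Pool.Agent.Lib.MP_17a322_nt.FE.Asy
import Pool.Agent.Lib.MP_17a322_nt.FE.Down
import Pool.Agent.Lib.MP_17a322_nt.GQ.Fin

/-!
The abc inequality for forms with a fixed error term and few exceptions, or with an error term of linear growth and few
exceptions, is equivalent to the one with every `ε`, and to Vojta's conjecture.
-/

universe u v

namespace Pool.Agent.Lib.MP_17a322_nt.FE

open MvPolynomial Height NumberField
open Pool.Agent.Lib.MP_17a322_nt.JAC
open Pool.Agent.Lib.MP_17a322_nt.ABN
open Pool.Agent.Lib.MP_17a322_nt.FL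
open Pool.Agent.Lib.MP_17a322_nt.GQ
open Pool.Agent.Lib.MP_17a322_nt.RAT (VojtaGaussRat)

section

variable {K : Type u} [Field K] [NumberField K] {n : ℕ} {κ : Type} [Fintype κ] [DecidableEq κ]

/-- The inequality at a point is weaker for larger constants. -/
theorem errAt_mono {f : κ → MvPolynomial (Fin (n + 1)) K} {c c' C C' : ℝ} (hc : c ≤ c') (hC : C ≤ C')
    {w : Fin (n + 1) → K} (h : ErrAt f c C w) : ErrAt f c' C' w := by
  refine h.trans ?_
  have h1 := mul_le_mul_of_nonneg_right hc (logHeight_nonneg w)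
  linarith

/-- The inequality is weaker for a larger error term and more exceptions. -/
theorem famX_mono {f : κ → MvPolynomial (Fin (n + 1)) K} {c c' b b' : ℝ} (hc : c ≤ c') (hb : b ≤ b')
    (h : ErrFamX f c b) : ErrFamX f c' b' := by
  obtain ⟨G, C, hG, hd, hw⟩ := h
  refine ⟨G, |C|, hG, hd, fun B hB => ?_⟩
  obtain ⟨S, hS, hSS⟩ := hw B hB
  refine ⟨S, hS.trans ?_, fun w h0 hwG hwB hwS => errAt_mono hc (le_abs_self C) (hSS w h0 hwG hwB hwS)⟩
  have h1 : B ^ b ≤ B ^ b' := Real.rpow_le_rpow_of_exponent_le hB hb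
  have h2 : 0 ≤ B ^ b := Real.rpow_nonneg (zero_le_one.trans hB) b
  exact mul_le_mul (le_abs_self C) h1 h2 (abs_nonneg C)

/-- No exceptions. -/
theorem famX_of_fam {f : κ → MvPolynomial (Fin (n + 1)) K} {c : ℝ} (b : ℝ) (h : ErrFam f c) : ErrFamX f c b := by
  obtain ⟨G, C, hG, hd, hw⟩ := h
  refine ⟨G, |C|, hG, hd, fun B hB => ⟨∅, ?_, fun w _ hwG _ _ => errAt_mono le_rfl (le_abs_self C) (hw w hwG)⟩⟩
  rw [Finset.card_empty, Nat.cast_zero]
  exact mul_nonneg (abs_nonneg C) (Real.rpow_nonneg (zero_le_one.trans hB) b)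

/-- For at most `n` forms in `n + 1` variables the inequality is trivial. -/
theorem fam_small (f : κ → MvPolynomial (Fin (n + 1)) K) {c : ℝ} (hc : 0 ≤ c) (hκ : Fintype.card κ ≤ n) :
    ErrFam f c := by
  refine ⟨1, 0, one_ne_zero, ⟨0, isHomogeneous_one _ _⟩, fun w _ => ?_⟩
  have h0 : (fun s : Fin (n + 1) → κ => (Matrix.of fun i j => eval w (pderiv j (f (s i)))).det *
      ∏ a ∈ (Finset.univ.image s)ᶜ, eval w (f a)) = 0 := by
    funext s
    have h1 : ∃ i j, s i = s j ∧ i ≠ j := by
      by_contra hcon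
      push Not at hcon
      have h2 := Fintype.card_le_of_injective s fun i j hij => hcon i j hij
      rw [Fintype.card_fin] at h2
      omega
    obtain ⟨i, j, hij, hne⟩ := h1
    have h2 : (Matrix.of fun i j => eval w (pderiv j (f (s i)))).det = 0 := by
      apply Matrix.det_zero_of_row_eq hne
      funext l
      rw [Matrix.of_apply, Matrix.of_apply, hij]
    rw [h2, zero_mul]
    rfl
  unfold ErrAt
  rw [h0, logHeight_zero]
  have h1 : 0 ≤ ∑ᶠ v ∈ {v : FinitePlace K | ∃ a b, v (eval w (f a)) ≠ v (eval w (f b))},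
      Real.log (Ideal.absNorm v.maximalIdeal.asIdeal) :=
    finsum_nonneg fun v => finsum_nonneg fun _ => (log_q_pos v).le
  have h2 := mul_nonneg hc (logHeight_nonneg w)
  linarith

end

/-- The inequality with every `ε` gives the one with a fixed error term. -/
theorem fix_of_forms {K : Type u} [Field K] [NumberField K] (h : ∀ n, ABCForms K n) {c : ℝ} (hc : 0 < c) :
    ABCFix K c :=
  fun n κ _ _ f d hf => h n κ f d hf c hc

/-- No exceptions. -/
theorem fixX_of_fix {K : Type u} [Field K] [NumberField K] {c : ℝ} (h : ABCFix K c) : ABCFixX K c :=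
  fun n κ _ _ f d hf => famX_of_fam c (h n κ f d hf)

/-- A fixed error term is of linear growth. -/
theorem lin_of_fix {K : Type u} [Field K] [NumberField K] {c : ℝ} (h : ABCFixX K c) : ABCLinX K := by
  intro η hη n₀
  obtain ⟨m, hm⟩ := exists_nat_ge (c / η)
  refine ⟨max n₀ m, le_max_left _ _, fun κ _ _ f d hf => ?_⟩
  have h1 : c / η ≤ (max n₀ m : ℕ) := hm.trans (Nat.cast_le.2 (le_max_right _ _))
  rw [div_le_iff₀ hη] at h1
  have hd : (0 : ℝ) ≤ d := Nat.cast_nonneg d
  rcases Nat.lt_or_ge (max n₀ m) (Fintype.card κ) with h2 | h2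
  · have h3 : ((max n₀ m : ℕ) : ℝ) ≤ Fintype.card κ := Nat.cast_le.2 h2.le
    have h4 : c ≤ η * (Fintype.card κ + d) := by nlinarith
    exact famX_mono h4 h4 (h _ κ f d hf)
  · exact famX_of_fam _ (fam_small f (by positivity) h2)

/-- From a number field to the rational numbers. -/
theorem lin_down {K : Type u} [Field K] [NumberField K] (h : ABCLinX K) : ABCLinX ℚ := by
  intro η hη n₀
  obtain ⟨N, hN⟩ : ∃ N : ℝ, N = (Module.finrank ℚ K : ℝ) := ⟨_, rfl⟩
  have hN1 : 1 ≤ N := by
    rw [hN]
    exact_mod_cast Module.finrank_pos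
  have hN0 : 0 < N := zero_lt_one.trans_le hN1
  obtain ⟨n, hn, hE⟩ := h (η / N) (by positivity) n₀
  refine ⟨n, hn, fun κ _ _ f d hf => ?_⟩
  have h1 := famX_down (K := K) f d hf _ _ (by positivity)
    (hE κ (fun a => map (algebraMap ℚ K) (f a)) d fun a => (hf a).map _)
  rw [← hN] at h1
  have h2 : (0 : ℝ) ≤ (Fintype.card κ : ℝ) + d := by positivity
  refine famX_mono ?_ ?_ h1
  · refine mul_le_mul_of_nonneg_right ?_ h2
    rw [div_le_iff₀ hN0]
    nlinarith
  · rw [← mul_assoc, mul_div_cancel₀ _ hN0.ne']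

/-- The abc inequality for forms over one number field with an error term of linear growth and few exceptions implies
Vojta's conjecture for `D = 0` and rational varieties over every number field. -/
theorem rat_of_lin {K : Type u} [Field K] [NumberField K] (h : ABCLinX K) (L : Type v) [Field L] [NumberField L] :
    VojtaGaussRat L :=
  (rat_iff_gauss L).2 (gauss_any ℚ L (gauss_of_poly (poly_of_lin (lin_down h))))

/-- The abc inequality for forms with one fixed error term is equivalent to Vojta's conjecture for `D = 0` and rational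
varieties. -/
theorem fix_iff_rat (K : Type u) (L : Type v) [Field K] [NumberField K] [Field L] [NumberField L] {c : ℝ} (hc : 0 < c) :
    ABCFix K c ↔ VojtaGaussRat L :=
  ⟨fun h => rat_of_lin (lin_of_fix (fixX_of_fix h)) L, fun h => fix_of_forms ((forms_iff_rat K L).2 h) hc⟩

/-- The abc inequality for forms with one fixed error term and at most `C B ^ c` exceptions of height at most `log B` is
equivalent to Vojta's conjecture for `D = 0` and rational varieties. -/
theorem fixX_iff_rat (K : Type u) (L : Type v) [Field K] [NumberField K] [Field L] [NumberField L] {c : ℝ}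
    (hc : 0 < c) : ABCFixX K c ↔ VojtaGaussRat L :=
  ⟨fun h => rat_of_lin (lin_of_fix h) L, fun h => fixX_of_fix ((fix_iff_rat K L hc).2 h)⟩

/-- The abc inequality for forms with an error term of linear growth and few exceptions is equivalent to Vojta's
conjecture for `D = 0` and rational varieties. -/
theorem lin_iff_rat (K : Type u) (L : Type v) [Field K] [NumberField K] [Field L] [NumberField L] :
    ABCLinX K ↔ VojtaGaussRat L :=
  ⟨fun h => rat_of_lin h L, fun h => lin_of_fix ((fixX_iff_rat K L one_pos).2 h)⟩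

end Pool.Agent.Lib.MP_17a322_nt.FE
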