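import Pool.Agent.Lib.MP_17a322_nt.FE.Det
import Pool.Agent.Lib.MP_17a322_nt.EQ.P1b

namespace Pool.Agent.Lib.MP_17a322_nt.FE

open MvPolynomial Height NumberField
open Pool.Agent.Lib.MP_17a322_nt.GQ (vec)
open Pool.Agent.Lib.MP_17a322_nt.EQ (Pl av FS)

variable {α : Type} [Fintype α] [DecidableEq α]

private theorem Loc_sum {κ : Type*} (s : Finset κ) (F : κ → Pl ℚ → ℝ) (hF : ∀ k ∈ s, FS (F k)) :
    FS (fun v => ∑ k ∈ s, F k v) ∧
      EQ.psum (fun v => ∑ k ∈ s, F k v) = ∑ k ∈ s, EQ.psum (F k) := by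
  classical
  induction s using Finset.induction_on with
  | empty =>
    constructor
    · simp [FS]
    · simp [EQ.psum]
  | insert a s ha ih =>
    have h1 := hF a (Finset.mem_insert_self a s)
    obtain ⟨h2, h3⟩ := ih fun k hk => hF k (Finset.mem_insert_of_mem hk)
    have h4 : (fun v => ∑ k ∈ insert a s, F k v) = fun v => F a v + ∑ k ∈ s, F k v :=
      funext fun v => Finset.sum_insert ha
    rw [h4, Finset.sum_insert ha, ← h3]
    exact ⟨h1.add h2, EQ.psum_add h1 h2⟩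

private theorem Loc_fs (t : ℚ) : FS fun v : Pl ℚ => Real.log (av v t) := by
  have h := EQ.FS_log (K := ℚ) (fun _ : Unit => t)
  have e : (fun v : Pl ℚ => Real.log (⨆ _ : Unit, av v t)) = fun v : Pl ℚ => Real.log (av v t) := by
    funext v
    rw [ciSup_const]
  rwa [e] at h

private theorem Loc_attained {ι : Type*} [Finite ι] (v : Pl ℚ) {x : ι → ℚ} (hx : x ≠ 0) :
    ∃ i, av v (x i) = ⨆ i, av v (x i) := by
  obtain ⟨i, -⟩ := Function.ne_iff.1 hx
  have : Nonempty ι := ⟨i⟩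
  exact exists_eq_ciSup_of_finite

/-- The height at the new point. -/
theorem height_vec {k d : ℕ} {P : Finset (MvPolynomial α ℚ)} {Q : Finset (MvPolynomial (Var k α) ℚ)} (hQ : IsDig k d P Q)
    (hdeg : ∀ p ∈ P, p.totalDegree ≤ d) (hd : 1 ≤ d) (z : Var k α → ℚ) (hz : ∀ a, z a ≠ 0) (x : Option α → ℚ)
    (hx : ∀ i, eval z (XX k i) = x i) (hx0 : x none ≠ 0) (y : α → ℚ) (hy : ∀ l, y l = x (some l) / x none)
    (hP : ∀ p ∈ P, eval y p ≠ 0) (hvec : vec P y ≠ 0) :
    logHeight (vec P y) + ∑ i, logHeight (summand k z i) ≤ logHeight (vec Q z) := by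
  have hd0 : (d : ℚ) ≠ 0 := Nat.cast_ne_zero.2 (by omega)
  have hdig := vec_dig hQ hdeg hd z hz x hx hx0 y hy hP
  have hS : ∀ i, summand k z i ≠ 0 := fun i h => hz (i, some none) (congrFun h none)
  have hprod : ∏ a, z a ≠ 0 := Finset.prod_ne_zero_iff.2 fun a _ => hz a
  have hV : vec Q z ≠ 0 := by
    intro h0
    obtain ⟨I, hI⟩ := Function.ne_iff.1 hvec
    obtain ⟨J, hJ⟩ := hdig I fun _ => none
    rw [h0] at hJ
    have hI' : vec P y I ≠ 0 := hI
    have h1 : (d : ℚ) * vec P y I * ∏ i, summand k z i none ≠ 0 :=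
      mul_ne_zero (mul_ne_zero hd0 hI') (Finset.prod_ne_zero_iff.2 fun i _ => hz (i, some none))
    refine h1 ?_
    rw [← hJ]
    show (0 : ℚ) * x none ^ (Fintype.card α + 1) * ∏ a, z a = 0
    rw [zero_mul, zero_mul]
  have hloc : ∀ v : Pl ℚ, Real.log (av v (d : ℚ)) + Real.log (⨆ I, av v (vec P y I)) +
      ∑ i, Real.log (⨆ τ, av v (summand k z i τ)) ≤
      Real.log (⨆ J, av v (vec Q z J)) + ((Fintype.card α + 1 : ℕ) : ℝ) * Real.log (av v (x none)) +
        ∑ a, Real.log (av v (z a)) := by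
    intro v
    obtain ⟨I, hI⟩ := Loc_attained v hvec
    choose T hT using fun i => Loc_attained v (hS i)
    obtain ⟨J, hJ⟩ := hdig I T
    have hA := EQ.av_iSup_pos hvec v
    have hB := EQ.av_iSup_pos hV v
    have hSp : ∀ i, 0 < ⨆ τ, av v (summand k z i τ) := fun i => EQ.av_iSup_pos (hS i) v
    have h1 := congrArg (av v) hJ
    rw [map_mul, map_mul, map_pow, map_mul, map_mul, AbsoluteValue.map_prod, AbsoluteValue.map_prod, hI] at h1
    simp only [hT] at h1
    have h2 : av v (vec Q z J) ≤ ⨆ J, av v (vec Q z J) :=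
      Finite.le_ciSup (fun J => av v (vec Q z J)) J
    have px : 0 < av v (x none) := (av v).pos hx0
    have pz : ∀ a, 0 < av v (z a) := fun a => (av v).pos (hz a)
    have pd : 0 < av v (d : ℚ) := (av v).pos hd0
    have h3 : av v (d : ℚ) * (⨆ I, av v (vec P y I)) * ∏ i, (⨆ τ, av v (summand k z i τ)) ≤
        (⨆ J, av v (vec Q z J)) * av v (x none) ^ (Fintype.card α + 1) * ∏ a, av v (z a) := by
      rw [← h1]
      refine mul_le_mul_of_nonneg_right (mul_le_mul_of_nonneg_right h2 (pow_pos px _).le) ?_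
      exact (Finset.prod_pos fun a _ => pz a).le
    have h4 := Real.log_le_log (mul_pos (mul_pos pd hA) (Finset.prod_pos fun i _ => hSp i)) h3
    rw [Real.log_mul (mul_pos pd hA).ne' (Finset.prod_pos fun i _ => hSp i).ne',
      Real.log_mul pd.ne' hA.ne', Real.log_prod fun i _ => (hSp i).ne',
      Real.log_mul (mul_pos hB (pow_pos px _)).ne' (Finset.prod_pos fun a _ => pz a).ne',
      Real.log_mul hB.ne' (pow_pos px _).ne', Real.log_pow, Real.log_prod fun a _ => (pz a).ne'] at h4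
    exact h4
  have f1 := Loc_fs (d : ℚ)
  have f2 := EQ.FS_log (K := ℚ) (vec P y)
  obtain ⟨f3, e3⟩ := Loc_sum (Finset.univ : Finset (Option α))
    (fun i v => Real.log (⨆ τ, av v (summand k z i τ))) fun i _ => EQ.FS_log (K := ℚ) (summand k z i)
  have f4 := EQ.FS_log (K := ℚ) (vec Q z)
  have f5 := (Loc_fs (x none)).mul_left fun _ => ((Fintype.card α + 1 : ℕ) : ℝ)
  obtain ⟨f6, e6⟩ := Loc_sum (Finset.univ : Finset (Var k α))
    (fun a v => Real.log (av v (z a))) fun a _ => Loc_fs (z a)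
  have h := EQ.psum_le ((f1.add f2).add f3) ((f4.add f5).add f6) hloc
  rw [EQ.psum_add (f1.add f2) f3, EQ.psum_add f1 f2, EQ.psum_add (f4.add f5) f6, EQ.psum_add f4 f5,
    EQ.psum_mul, EQ.psum_log_abv hd0, EQ.psum_log_abv hx0, EQ.psum_log hvec, EQ.psum_log hV, e3, e6] at h
  have e7 : ∀ i ∈ (Finset.univ : Finset (Option α)),
      EQ.psum (fun v : Pl ℚ => Real.log (⨆ τ, av v (summand k z i τ))) = logHeight (summand k z i) :=
    fun i _ => EQ.psum_log (hS i)
  have e8 : ∀ a ∈ (Finset.univ : Finset (Var k α)), EQ.psum (fun v : Pl ℚ => Real.log (av v (z a))) = 0 :=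
    fun a _ => EQ.psum_log_abv (hz a)
  rw [Finset.sum_congr rfl e7, Finset.sum_congr rfl e8, Finset.sum_const_zero] at h
  linarith

end Pool.Agent.Lib.MP_17a322_nt.FE
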