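import Pool.Agent.Lib.MP_17a322_nt.FE.Defs

/-!
Digits, carries, and points with small coordinates where a polynomial does not vanish.
-/

namespace Pool.Agent.Lib.MP_17a322_nt.FE

open MvPolynomial

/-- The degree of a composition. -/
theorem totalDegree_aeval_le {σ τ : Type} (f : σ → MvPolynomial τ ℚ) (m : ℕ) (hf : ∀ i, (f i).totalDegree ≤ m)
    (p : MvPolynomial σ ℚ) : (aeval f p).totalDegree ≤ p.totalDegree * m := by
  classical
  rw [aeval_def, eval₂_eq]
  refine totalDegree_finsetSum_le fun d hd => ?_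
  refine (totalDegree_mul _ _).trans ?_
  rw [algebraMap_eq, totalDegree_C, zero_add]
  refine (totalDegree_finsetProd _ _).trans ?_
  calc ∑ i ∈ d.support, (f i ^ d i).totalDegree ≤ ∑ i ∈ d.support, d i * m :=
        Finset.sum_le_sum fun i _ => (totalDegree_pow _ _).trans (Nat.mul_le_mul_left _ (hf i))
    _ = (d.sum fun _ e => e) * m := by rw [Finsupp.sum, Finset.sum_mul]
    _ ≤ _ := Nat.mul_le_mul_right _ (le_totalDegree hd)

/-- A nonzero polynomial does not vanish at some point of a big box. -/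
theorem exists_grid {σ : Type} [Finite σ] (p : MvPolynomial σ ℚ) (N : ℕ) (hN : p.totalDegree ≤ N) (a : σ → ℚ)
    (ha : eval a p ≠ 0) (g : σ → ℕ → ℚ) (hg : ∀ i, Function.Injective (g i)) :
    ∃ s : σ → ℕ, (∀ i, s i ≤ N) ∧ eval (fun i => g i (s i)) p ≠ 0 := by
  classical
  by_contra hcon
  push Not at hcon
  apply ha
  have h0 : p = 0 := by
    apply MvPolynomial.eq_zero_of_eval_zero_at_prod_finset p (fun i => (Finset.range (N + 1)).image (g i))
    · intro i
      rw [Finset.card_image_of_injective _ (hg i), Finset.card_range]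
      exact Nat.lt_succ_of_le ((degreeOf_le_totalDegree p i).trans hN)
    · intro x hx
      have h1 : ∀ i, ∃ s, s ≤ N ∧ g i s = x i := fun i => by
        obtain ⟨s, hs, hs'⟩ := Finset.mem_image.1 (hx i)
        exact ⟨s, Nat.lt_succ_iff.1 (Finset.mem_range.1 hs), hs'⟩
      choose s hs hs' using h1
      have h2 := hcon s hs
      have h3 : (fun i => g i (s i)) = x := funext hs'
      rwa [h3] at h2
  rw [h0, map_zero]

/-- The carries which arrive at a digit. -/
def lo {R : Type} [Zero R] {k : ℕ} (t : Fin k → R) : Fin (k + 1) → R := Fin.cons (α := fun _ => R) 0 t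

/-- The carries which leave a digit. -/
def hi {R : Type} [Zero R] {k : ℕ} (t : Fin k → R) : Fin (k + 1) → R := Fin.snoc (α := fun _ => R) t 0

section

variable {R : Type} {k : ℕ}

theorem lo_zero [Zero R] (t : Fin k → R) : lo t 0 = 0 := rfl

theorem lo_succ [Zero R] (t : Fin k → R) (j : Fin k) : lo t j.succ = t j := rfl

theorem hi_castSucc [Zero R] (t : Fin k → R) (j : Fin k) : hi t j.castSucc = t j := by
  unfold hi
  rw [Fin.snoc_castSucc]

theorem hi_last [Zero R] (t : Fin k → R) : hi t (Fin.last k) = 0 := by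
  unfold hi
  rw [Fin.snoc_last]

theorem map_lo {S : Type} [Zero R] [Zero S] (φ : R → S) (h0 : φ 0 = 0) (t : Fin k → R) (j : Fin (k + 1)) :
    φ (lo t j) = lo (fun l => φ (t l)) j := by
  refine Fin.cases ?_ (fun i => ?_) j
  · rw [lo_zero, lo_zero, h0]
  · rw [lo_succ, lo_succ]

theorem map_hi {S : Type} [Zero R] [Zero S] (φ : R → S) (h0 : φ 0 = 0) (t : Fin k → R) (j : Fin (k + 1)) :
    φ (hi t j) = hi (fun l => φ (t l)) j := by
  refine Fin.lastCases ?_ (fun i => ?_) j
  · rw [hi_last, hi_last, h0]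
  · rw [hi_castSucc, hi_castSucc]

/-- Carries do not change the number. -/
theorem sum_carry [CommRing R] (u : R) (d : Fin (k + 1) → R) (t : Fin k → R) :
    ∑ j, (d j + lo t j - u * hi t j) * u ^ (j : ℕ) = ∑ j, d j * u ^ (j : ℕ) := by
  have h1 : ∑ j, lo t j * u ^ (j : ℕ) = ∑ j : Fin k, t j * u ^ ((j : ℕ) + 1) := by
    rw [Fin.sum_univ_succ, lo_zero, zero_mul, zero_add]
    exact Finset.sum_congr rfl fun j _ => by rw [lo_succ, Fin.val_succ]
  have h2 : ∑ j, hi t j * u ^ (j : ℕ) = ∑ j : Fin k, t j * u ^ (j : ℕ) := by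
    rw [Fin.sum_univ_castSucc, hi_last, zero_mul, add_zero]
    exact Finset.sum_congr rfl fun j _ => by rw [hi_castSucc, Fin.val_castSucc]
  have h3 : ∑ j, (d j + lo t j - u * hi t j) * u ^ (j : ℕ) =
      ∑ j, d j * u ^ (j : ℕ) + ∑ j, lo t j * u ^ (j : ℕ) - u * ∑ j, hi t j * u ^ (j : ℕ) := by
    rw [Finset.mul_sum, ← Finset.sum_add_distrib, ← Finset.sum_sub_distrib]
    exact Finset.sum_congr rfl fun j _ => by ring
  have h4 : ∑ j : Fin k, t j * u ^ ((j : ℕ) + 1) - u * ∑ j : Fin k, t j * u ^ (j : ℕ) = 0 := by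
    rw [Finset.mul_sum, ← Finset.sum_sub_distrib]
    exact Finset.sum_eq_zero fun j _ => by ring
  rw [h3, h1, h2, add_sub_assoc, h4, add_zero]

end

/-- Two expansions of one number differ by carries. -/
theorem exists_carry : ∀ (k : ℕ) (u : ℚ) (d w : Fin (k + 1) → ℚ),
    ∑ j, d j * u ^ (j : ℕ) = ∑ j, w j * u ^ (j : ℕ) → ∃ t : Fin k → ℚ, ∀ j, w j = d j + lo t j - u * hi t j := by
  intro k
  induction k with
  | zero =>
    intro u d w h
    refine ⟨fun l => l.elim0, fun j => ?_⟩
    have hj : j = 0 := Fin.ext (by omega)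
    subst hj
    rw [Fin.sum_univ_succ, Fin.sum_univ_succ (f := fun j => w j * u ^ (j : ℕ))] at h
    simp only [Finset.univ_eq_empty, Finset.sum_empty, Fin.val_zero, pow_zero, mul_one, add_zero] at h
    have h1 : hi (fun l : Fin 0 => (l.elim0 : ℚ)) 0 = 0 := hi_last _
    rw [lo_zero, h1, ← h]
    ring
  | succ k ih =>
    intro u d w h
    set e : ℚ := w (Fin.last (k + 1)) - d (Fin.last (k + 1)) with he
    rw [Fin.sum_univ_castSucc, Fin.sum_univ_castSucc (f := fun j => w j * u ^ (j : ℕ))] at h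
    obtain ⟨t, ht⟩ := ih u (fun j => d j.castSucc - if j = Fin.last k then u * e else 0) (fun j => w j.castSucc) (by
      simp only [sub_mul, Finset.sum_sub_distrib, ite_mul, zero_mul, Finset.sum_ite_eq', Finset.mem_univ, if_true]
      simp only [Fin.val_castSucc, Fin.val_last] at h ⊢
      rw [he]
      linear_combination h)
    refine ⟨Fin.snoc (α := fun _ => ℚ) t e, fun j => ?_⟩
    refine Fin.lastCases ?_ (fun i => ?_) j
    · have h1 : lo (Fin.snoc (α := fun _ => ℚ) t e) (Fin.last (k + 1)) = e := by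
        rw [← Fin.succ_last, lo_succ, Fin.snoc_last]
      rw [hi_last, h1, he]
      ring
    · have h1 : lo (Fin.snoc (α := fun _ => ℚ) t e) i.castSucc = lo t i := by
        refine Fin.cases ?_ (fun l => ?_) i
        · rw [Fin.castSucc_zero, lo_zero, lo_zero]
        · rw [← Fin.succ_castSucc, lo_succ, lo_succ, Fin.snoc_castSucc]
      rw [h1, hi_castSucc, ht i]
      refine Fin.lastCases ?_ (fun l => ?_) i
      · rw [hi_last, Fin.snoc_last, if_pos rfl]
        ring
      · rw [hi_castSucc, Fin.snoc_castSucc, if_neg (Fin.castSucc_lt_last l).ne]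
        ring

/-- The digits of `n` in the base `u`; the last one is unbounded. -/
def dig (k : ℕ) (u n : ℤ) (j : Fin (k + 1)) : ℤ := if (j : ℕ) < k then n / u ^ (j : ℕ) % u else n / u ^ k

theorem digits (n u : ℤ) (hu : 0 < u) : ∀ k : ℕ,
    ∑ j ∈ Finset.range k, n / u ^ j % u * u ^ j + n / u ^ k * u ^ k = n := by
  intro k
  induction k with
  | zero => simp
  | succ k ih =>
    rw [Finset.sum_range_succ]
    have h1 : n / u ^ (k + 1) = n / u ^ k / u := by
      rw [pow_succ, Int.ediv_ediv_of_nonneg (pow_nonneg hu.le k)]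
    have h2 := Int.emod_add_mul_ediv (n / u ^ k) u
    rw [h1, pow_succ]
    linear_combination ih + u ^ k * h2

theorem sum_dig (k : ℕ) (u n : ℤ) (hu : 0 < u) : ∑ j, dig k u n j * u ^ (j : ℕ) = n := by
  rw [Fin.sum_univ_castSucc]
  have h1 : ∑ j : Fin k, dig k u n j.castSucc * u ^ ((j.castSucc : Fin (k + 1)) : ℕ) =
      ∑ j ∈ Finset.range k, n / u ^ j % u * u ^ j := by
    rw [← Fin.sum_univ_eq_sum_range (fun j => n / u ^ j % u * u ^ j) k]
    refine Finset.sum_congr rfl fun j _ => ?_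
    rw [Fin.val_castSucc, dig, Fin.val_castSucc, if_pos j.2]
  rw [h1, dig, Fin.val_last, if_neg (lt_irrefl k)]
  exact digits n u hu k

theorem abs_dig_lt (k : ℕ) (u n : ℤ) (hu : 0 < u) (j : Fin k) : |dig k u n j.castSucc| ≤ u := by
  rw [dig, Fin.val_castSucc, if_pos j.2, abs_of_nonneg (Int.emod_nonneg _ hu.ne')]
  exact (Int.emod_lt_of_pos _ hu).le

theorem abs_dig_last (k : ℕ) (u n A : ℤ) (hu : 0 < u) (hn : |n| ≤ A * u ^ k) : |dig k u n (Fin.last k)| ≤ A := by
  rw [dig, Fin.val_last, if_neg (lt_irrefl k)]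
  have h1 := abs_le.1 hn
  have hu' : 0 < u ^ k := pow_pos hu k
  rw [abs_le]
  constructor
  · apply Int.le_ediv_of_mul_le hu'
    rw [neg_mul]
    exact h1.1
  · exact Int.ediv_le_of_le_mul hu' h1.2

end Pool.Agent.Lib.MP_17a322_nt.FE
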