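import Pool.Agent.Lib.MP_17a322_nt.FE.P0

/-!
The size of the digits.
-/

namespace Pool.Agent.Lib.MP_17a322_nt.FE

open MvPolynomial

theorem natAbs_lt (k : ℕ) (hk : 0 < k) (a : ℕ) : a < 2 ^ (k * (Nat.log 2 a / k) + k) := by
  refine (Nat.lt_pow_succ_log_self (by norm_num) a).trans_le (Nat.pow_le_pow_right (by norm_num) ?_)
  have h1 := Nat.div_add_mod (Nat.log 2 a) k
  have h2 := Nat.mod_lt (Nat.log 2 a) hk
  omega

/-- The number whose digits are taken. -/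
theorem abs_le_base (k : ℕ) (hk : 0 < k) (N : ℕ) (m : ℤ) (hm : m ≠ 0) (t s r : ℕ) (ht : t ≤ N) (hr : r ≤ N) :
    |m * 2 ^ t - 2 ^ r| ≤ 2 ^ (N + 1 + k) * (2 ^ (Nat.log 2 m.natAbs / k + s)) ^ k := by
  have h1 : (1 : ℤ) ≤ |m| := Int.one_le_abs hm
  have h2 : |m * 2 ^ t - 2 ^ r| ≤ |m| * 2 ^ N + |m| * 2 ^ N := by
    refine (abs_sub _ _).trans (add_le_add ?_ ?_)
    · rw [abs_mul, abs_of_pos (pow_pos (by norm_num : (0 : ℤ) < 2) t)]
      exact mul_le_mul_of_nonneg_left (pow_le_pow_right₀ (by norm_num) ht) (abs_nonneg m)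
    · rw [abs_of_pos (pow_pos (by norm_num : (0 : ℤ) < 2) r)]
      have h3 : (2 : ℤ) ^ r ≤ 2 ^ N := pow_le_pow_right₀ (by norm_num) hr
      exact h3.trans (le_mul_of_one_le_left (by positivity) h1)
  set e : ℕ := Nat.log 2 m.natAbs / k with he
  have h4 : |m| ≤ 2 ^ (k * e + k) := by
    have h5 := (natAbs_lt k hk m.natAbs).le
    rw [← he] at h5
    rw [Int.abs_eq_natAbs]
    exact_mod_cast h5
  have h6 : (2 : ℤ) ^ (k * e + k) ≤ 2 ^ k * (2 ^ (e + s)) ^ k := by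
    rw [← pow_mul, ← pow_add]
    refine pow_le_pow_right₀ (by norm_num) ?_
    have h7 : k * e ≤ (e + s) * k := by
      rw [mul_comm]
      exact Nat.mul_le_mul_right _ (Nat.le_add_right _ _)
    omega
  calc |m * 2 ^ t - 2 ^ r| ≤ |m| * 2 ^ N + |m| * 2 ^ N := h2
    _ = 2 ^ (N + 1) * |m| := by ring
    _ ≤ 2 ^ (N + 1) * (2 ^ k * (2 ^ (e + s)) ^ k) := mul_le_mul_of_nonneg_left (h4.trans h6) (by positivity)
    _ = _ := by ring

/-- The size of the base. -/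
theorem log_base (k : ℕ) (hk : 0 < k) (m : ℤ) (hm : m ≠ 0) :
    ((Nat.log 2 m.natAbs / k : ℕ) : ℝ) * Real.log 2 ≤ Real.log |(m : ℝ)| / k := by
  have hk' : (0 : ℝ) < k := Nat.cast_pos.2 hk
  rw [le_div_iff₀ hk']
  have h1 : Nat.log 2 m.natAbs / k * k ≤ Nat.log 2 m.natAbs := Nat.div_mul_le_self _ _
  have h2 : 2 ^ Nat.log 2 m.natAbs ≤ m.natAbs := Nat.pow_log_le_self 2 (Int.natAbs_ne_zero.2 hm)
  have h3 : (2 : ℝ) ^ Nat.log 2 m.natAbs ≤ |(m : ℝ)| := by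
    have h4 : ((2 ^ Nat.log 2 m.natAbs : ℕ) : ℝ) ≤ (m.natAbs : ℝ) := Nat.cast_le.2 h2
    rw [Nat.cast_natAbs, Int.cast_abs] at h4
    simpa using h4
  have h5 : (Nat.log 2 m.natAbs : ℝ) * Real.log 2 ≤ Real.log |(m : ℝ)| := by
    rw [← Real.log_pow]
    exact Real.log_le_log (by positivity) h3
  have h6 : ((Nat.log 2 m.natAbs / k : ℕ) : ℝ) * k ≤ (Nat.log 2 m.natAbs : ℝ) := by
    rw [← Nat.cast_mul]
    exact Nat.cast_le.2 h1
  have h7 : 0 ≤ Real.log 2 := Real.log_nonneg (by norm_num)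
  calc ((Nat.log 2 m.natAbs / k : ℕ) : ℝ) * Real.log 2 * k =
        ((Nat.log 2 m.natAbs / k : ℕ) : ℝ) * k * Real.log 2 := by ring
    _ ≤ (Nat.log 2 m.natAbs : ℝ) * Real.log 2 := mul_le_mul_of_nonneg_right h6 h7
    _ ≤ _ := h5

theorem lo_bound {k M : ℕ} (t : Fin k → ℕ) (ht : ∀ l, t l ≤ M) (j : Fin (k + 1)) :
    0 ≤ lo (fun l => (t l : ℤ)) j ∧ lo (fun l => (t l : ℤ)) j ≤ M := by
  refine Fin.cases ?_ (fun i => ?_) j
  · rw [lo_zero]
    exact ⟨le_refl _, Int.natCast_nonneg _⟩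
  · rw [lo_succ]
    exact ⟨Int.natCast_nonneg _, Int.ofNat_le.2 (ht i)⟩

/-- The digits after the carries. -/
def dg (k : ℕ) (u n : ℤ) (t : Fin k → ℕ) (j : Fin (k + 1)) : ℤ :=
  dig k u n j + lo (fun l => (t l : ℤ)) j - u * hi (fun l => (t l : ℤ)) j

theorem sum_dg (k : ℕ) (u n : ℤ) (hu : 0 < u) (t : Fin k → ℕ) : ∑ j, dg k u n t j * u ^ (j : ℕ) = n := by
  unfold dg
  rw [sum_carry, sum_dig k u n hu]

theorem abs_dg_lt (k M : ℕ) (u n : ℤ) (hu : 0 < u) (t : Fin k → ℕ) (ht : ∀ l, t l ≤ M) (j : Fin k) :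
    |dg k u n t j.castSucc| ≤ u * (1 + 2 * M) := by
  have h1 := abs_dig_lt k u n hu j
  obtain ⟨h2, h3⟩ := lo_bound t ht j.castSucc
  have h4 : (0 : ℤ) ≤ t j := Int.natCast_nonneg _
  have h5 : ((t j : ℕ) : ℤ) ≤ M := Int.ofNat_le.2 (ht j)
  have h6 : |dg k u n t j.castSucc| ≤ u + M + u * M := by
    unfold dg
    rw [hi_castSucc]
    refine (abs_sub _ _).trans (add_le_add ((abs_add_le _ _).trans (add_le_add h1 ?_)) ?_)
    · rw [abs_of_nonneg h2]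
      exact h3
    · rw [abs_of_nonneg (mul_nonneg hu.le h4)]
      exact mul_le_mul_of_nonneg_left h5 hu.le
  have h7 : (M : ℤ) ≤ u * M := le_mul_of_one_le_left (Int.natCast_nonneg _) hu
  linarith

theorem abs_dg_last (k M : ℕ) (u n A : ℤ) (hu : 0 < u) (hn : |n| ≤ A * u ^ k) (t : Fin k → ℕ) (ht : ∀ l, t l ≤ M) :
    |dg k u n t (Fin.last k)| ≤ A + M := by
  obtain ⟨h2, h3⟩ := lo_bound t ht (Fin.last k)
  unfold dg
  rw [hi_last, mul_zero, sub_zero]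
  refine (abs_add_le _ _).trans (add_le_add (abs_dig_last k u n A hu hn) ?_)
  rw [abs_of_nonneg h2]
  exact h3

/-- The carries are determined by the digits. -/
theorem dg_inj (k : ℕ) (u n : ℤ) (hu : 0 < u) : Function.Injective (dg k u n) := by
  intro t t' h
  have h1 : ∀ j, lo (fun l => (t l : ℤ)) j - u * hi (fun l => (t l : ℤ)) j =
      lo (fun l => (t' l : ℤ)) j - u * hi (fun l => (t' l : ℤ)) j := by
    intro j
    have h2 := congrFun h j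
    unfold dg at h2
    linarith
  have h3 : ∀ m : ℕ, ∀ hm : m < k, t ⟨m, hm⟩ = t' ⟨m, hm⟩ := by
    intro m
    induction m with
    | zero =>
      intro hm
      have h4 := h1 (Fin.castSucc ⟨0, hm⟩)
      rw [hi_castSucc, hi_castSucc] at h4
      have h5 : (Fin.castSucc ⟨0, hm⟩ : Fin (k + 1)) = 0 := rfl
      rw [h5, lo_zero, lo_zero] at h4
      have h6 : u * ((t ⟨0, hm⟩ : ℕ) : ℤ) = u * ((t' ⟨0, hm⟩ : ℕ) : ℤ) := by linarith
      exact_mod_cast mul_left_cancel₀ hu.ne' h6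
    | succ m ih =>
      intro hm
      have h4 := h1 (Fin.castSucc ⟨m + 1, hm⟩)
      rw [hi_castSucc, hi_castSucc] at h4
      have h5 : (Fin.castSucc ⟨m + 1, hm⟩ : Fin (k + 1)) = Fin.succ ⟨m, by omega⟩ := rfl
      rw [h5, lo_succ, lo_succ, ih (by omega)] at h4
      have h6 : u * ((t ⟨m + 1, hm⟩ : ℕ) : ℤ) = u * ((t' ⟨m + 1, hm⟩ : ℕ) : ℤ) := by linarith
      exact_mod_cast mul_left_cancel₀ hu.ne' h6
  funext l
  exact h3 l.1 l.2

end Pool.Agent.Lib.MP_17a322_nt.FE
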